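import Pool.Agent.Lib.MP_ce1fc8_nt.Sieve3

/-!
Short prime gaps are rare; an integer `n` that divides no `π(kn)` forces short gaps at all
indices divisible by `n`; a second moment bound for sets of multiples.
-/

set_option autoImplicit false

namespace P52

open Finset Pool.Agent.Lib.MP_ce1fc8_nt

lemma p52_log_sq_le (X : ℝ) (hX : 1 ≤ X) : Real.log X ^ 2 ≤ 16 * Real.sqrt X := by
  have h0 : 0 < X := by linarith
  have h1 : Real.log X = 4 * Real.log (Real.sqrt (Real.sqrt X)) := by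
    rw [Real.log_sqrt (Real.sqrt_nonneg _), Real.log_sqrt h0.le]; ring
  have h2 : 0 < Real.sqrt (Real.sqrt X) := Real.sqrt_pos.2 (Real.sqrt_pos.2 h0)
  have h3 := Real.log_le_sub_one_of_pos h2
  have h4 : 0 ≤ Real.log X := Real.log_nonneg hX
  have h5 : Real.sqrt (Real.sqrt X) ^ 2 = Real.sqrt X := Real.sq_sqrt (Real.sqrt_nonneg _)
  have h6 : Real.log X ≤ 4 * Real.sqrt (Real.sqrt X) := by linarith
  calc Real.log X ^ 2 ≤ (4 * Real.sqrt (Real.sqrt X)) ^ 2 := pow_le_pow_left₀ h4 h6 2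
    _ = 16 * Real.sqrt X := by rw [mul_pow, h5]; norm_num

lemma p52_pair (X h : ℕ) (hX : 2 ≤ X) (hh : 1 ≤ h) (E : Finset ℕ) (hE : E ⊆ range X)
    (hEp : ∀ p ∈ E, p.Prime ∧ (p + h).Prime) :
    (E.card : ℝ) ≤ 320 * eul 6 ^ 2 * eul h ^ 2 * (X / Real.log X ^ 2) := by
  classical
  have hX1 : (1 : ℝ) < X := by exact_mod_cast hX
  have hX0 : (0 : ℝ) < X := by linarith
  have hL : 0 < Real.log X := Real.log_pos hX1
  set w : ℝ := (X : ℝ) ^ ((1 : ℝ) / 16) with hw
  have hw1 : 1 ≤ w := Real.one_le_rpow hX1.le (by norm_num)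
  set y : ℕ := ⌊w⌋₊ with hy
  have hy1 : 1 ≤ y := Nat.le_floor (by exact_mod_cast hw1)
  have hyw : (y : ℝ) ≤ w := Nat.floor_le (by linarith)
  have hwy : w ≤ (y : ℝ) + 1 := (Nat.lt_floor_add_one w).le
  have hlog : Real.log X / 16 ≤ Real.log ((y : ℝ) + 1) := by
    have : Real.log w = Real.log X / 16 := by rw [hw, Real.log_rpow hX0]; ring
    rw [← this]
    exact Real.log_le_log (by linarith) hwy
  have hw8 : w ^ 8 = Real.sqrt X := by
    rw [hw, ← Real.rpow_natCast, ← Real.rpow_mul hX0.le, Real.sqrt_eq_rpow]; norm_num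
  have hb := tuple_bound {0, h} 2 (6 * h) y X (by norm_num)
    (card_pair (by omega)) (by omega) hy1 (fun p hp hn => by
      have h2 : p ≠ 2 := by rintro rfl; exact hn ⟨3 * h, by ring⟩
      have h3 : p ≠ 3 := by rintro rfl; exact hn ⟨2 * h, by ring⟩
      have h4 := hp.two_le
      have h5 : ¬ p ∣ h := fun hd => hn (hd.mul_left 6)
      refine ⟨by omega, fun a ha b hb hab => ?_⟩
      simp only [mem_insert, mem_singleton] at ha hb
      rcases ha with rfl | rfl <;> rcases hb with rfl | rfl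
      · rfl
      · exact absurd ((Nat.modEq_zero_iff_dvd).1 hab.symm) h5
      · exact absurd ((Nat.modEq_zero_iff_dvd).1 hab) h5
      · rfl) E hE (fun n hn a ha => by
      simp only [mem_insert, mem_singleton] at ha
      rcases ha with rfl | rfl
      · simpa using (hEp n hn).1
      · exact (hEp n hn).2)
  have he0 : ∀ Q, 0 ≤ eul Q := fun Q => by
    unfold eul
    exact prod_nonneg fun p hp =>
      le_trans zero_le_one (one_le_eul_factor p (Nat.prime_of_mem_primeFactors hp))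
  have he : eul (6 * h) ^ 2 ≤ eul 6 ^ 2 * eul h ^ 2 := by
    rw [← mul_pow]
    exact pow_le_pow_left₀ (he0 _) (eul_mul_le 6 h (by norm_num) (by omega)) 2
  have h1 : (X : ℝ) / Real.log ((y : ℝ) + 1) ^ 2 ≤ 256 * (X / Real.log X ^ 2) := by
    calc (X : ℝ) / Real.log ((y : ℝ) + 1) ^ 2 ≤ X / (Real.log X / 16) ^ 2 :=
          div_le_div_of_nonneg_left hX0.le (by positivity)
            (pow_le_pow_left₀ (by positivity) hlog 2)
      _ = 256 * (X / Real.log X ^ 2) := by field_simp; norm_num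
  have h2 : 4 * ((y : ℝ) ^ 2) ^ 4 ≤ 64 * (X / Real.log X ^ 2) := by
    have h3 : ((y : ℝ) ^ 2) ^ 4 ≤ Real.sqrt X := by
      rw [← pow_mul, ← hw8]
      exact pow_le_pow_left₀ (by positivity) hyw 8
    have h4 := p52_log_sq_le X hX1.le
    have h5 : Real.sqrt X ≤ 16 * (X / Real.log X ^ 2) := by
      rw [← mul_div_assoc, le_div_iff₀ (by positivity)]
      have h6 : Real.sqrt X * Real.sqrt X = X := Real.mul_self_sqrt hX0.le
      nlinarith [Real.sqrt_nonneg (X : ℝ)]
    linarith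
  calc (E.card : ℝ) ≤ _ := hb
    _ ≤ (eul 6 ^ 2 * eul h ^ 2) * (320 * (X / Real.log X ^ 2)) :=
        mul_le_mul he (by linarith) (by positivity) (by positivity)
    _ = _ := by ring

lemma p52_short : ∃ C : ℝ, 0 < C ∧ ∀ (X H : ℕ), 2 ≤ X → 1 ≤ H → ∀ E : Finset ℕ, E ⊆ range X →
    (∀ p ∈ E, p.Prime ∧ ∃ h, 1 ≤ h ∧ h ≤ H ∧ (p + h).Prime) →
    (E.card : ℝ) ≤ C * H * (X / Real.log X ^ 2) := by
  classical
  obtain ⟨C, hC, h1⟩ := sum_eul_le 2
  refine ⟨320 * eul 6 ^ 2 * (C * 2) + 1, by positivity, fun X H hX hH E hE hEp => ?_⟩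
  have hsub : E ⊆ (Icc 1 H).biUnion fun h => E.filter fun p => (p + h).Prime := by
    intro p hp
    obtain ⟨-, h, a, b, c⟩ := hEp p hp
    exact mem_biUnion.2 ⟨h, mem_Icc.2 ⟨a, b⟩, mem_filter.2 ⟨hp, c⟩⟩
  have h2 := h1 1 H H 0 (Icc 1 H) (Nat.zero_le _) (fun h hh => by
    rw [mem_Icc] at hh; rw [mem_Ico]; omega) (fun h hh => by rw [mem_Icc] at hh; omega)
  have h3 : ∀ h : ℕ, dd h 0 = h := fun h => by simp [dd]
  simp only [h3] at h2
  have hH1 : (1 : ℝ) ≤ H := by exact_mod_cast hH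
  have h4 : Real.sqrt H ≤ H := by
    rw [Real.sqrt_le_iff]; exact ⟨by linarith, by nlinarith⟩
  have hW : 0 ≤ (X : ℝ) / Real.log X ^ 2 := by positivity
  calc (E.card : ℝ) ≤ ((∑ h ∈ Icc 1 H, (E.filter fun p => (p + h).Prime).card : ℕ) : ℝ) := by
        exact_mod_cast (card_le_card hsub).trans card_biUnion_le
    _ ≤ ∑ h ∈ Icc 1 H, 320 * eul 6 ^ 2 * eul h ^ 2 * (X / Real.log X ^ 2) := by
        rw [Nat.cast_sum]
        refine sum_le_sum fun h hh => p52_pair X h hX (mem_Icc.1 hh).1 _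
          ((filter_subset _ _).trans hE) fun p hp => ?_
        exact ⟨(hEp p (mem_filter.1 hp).1).1, (mem_filter.1 hp).2⟩
    _ = 320 * eul 6 ^ 2 * (∑ h ∈ Icc 1 H, eul h ^ 2) * (X / Real.log X ^ 2) := by
        rw [← sum_mul, ← mul_sum]
    _ ≤ 320 * eul 6 ^ 2 * (C * 2 * H) * (X / Real.log X ^ 2) := by
        gcongr
        nlinarith
    _ ≤ _ := by nlinarith [mul_nonneg (by linarith : (0 : ℝ) ≤ H) hW]

/-- An unhit modulus forces a short gap at every index it divides. -/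
lemma p52_gap (n i X : ℕ) (hn : 1 ≤ n) (hni : n ∣ i + 1) (hX : Nat.nth Nat.Prime (i + 1) ≤ X)
    (hun : ∀ k, 1 ≤ k → k ≤ X → ¬ n ∣ Nat.primeCounting (k * n)) :
    Nat.nth Nat.Prime (i + 1) < Nat.nth Nat.Prime i + n := by
  by_contra hlt
  push Not at hlt
  set a := Nat.nth Nat.Prime i with ha
  have ha2 : 2 ≤ a := (Nat.prime_nth_prime i).two_le
  set k := (a + n - 1) / n with hk
  have h1 : k * n ≤ a + n - 1 := Nat.div_mul_le_self _ _
  have h2 : a + n - 1 < k * n + n := by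
    have := Nat.lt_div_mul_add (a := a + n - 1) (b := n) hn
    simpa [hk] using this
  have h3 : a ≤ k * n := by omega
  have hk1 : 1 ≤ k := by
    rcases Nat.eq_zero_or_pos k with h | h
    · rw [h] at h3; omega
    · exact h
  have h4 : k ≤ k * n := Nat.le_mul_of_pos_right _ hn
  refine hun k hk1 (by omega) ?_
  have h5 : Nat.primeCounting (k * n) = i + 1 := by
    unfold Nat.primeCounting Nat.primeCounting'
    apply le_antisymm
    · calc Nat.count Nat.Prime (k * n + 1) ≤ Nat.count Nat.Prime (Nat.nth Nat.Prime (i + 1)) :=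
            Nat.count_monotone _ (by omega)
        _ = i + 1 := Nat.count_nth_of_infinite Nat.infinite_setOfPred_prime _
    · calc i + 1 = Nat.count Nat.Prime (a + 1) :=
            (Nat.count_nth_succ_of_infinite Nat.infinite_setOfPred_prime i).symm
        _ ≤ _ := Nat.count_monotone _ (by omega)
  rw [h5]; exact hni

lemma p52_gcd_sum (n N : ℕ) (hn : n ≠ 0) :
    ∑ m ∈ Icc 1 N, Nat.gcd n m ≤ N * n.divisors.card := by
  calc ∑ m ∈ Icc 1 N, Nat.gcd n m
      ≤ ∑ m ∈ Icc 1 N, ∑ d ∈ n.divisors, if d ∣ m then d else 0 := by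
        refine sum_le_sum fun m _ => ?_
        have h := single_le_sum (f := fun d => if d ∣ m then d else 0) (s := n.divisors)
          (fun d _ => Nat.zero_le _) (Nat.mem_divisors.2 ⟨Nat.gcd_dvd_left n m, hn⟩)
        simpa [Nat.gcd_dvd_right] using h
    _ = ∑ d ∈ n.divisors, d * (N / d) := by
        rw [sum_comm]
        refine sum_congr rfl fun d _ => ?_
        rw [← sum_filter, sum_const, smul_eq_mul, mul_comm, ← Nat.Ioc_filter_dvd_card_eq_div]
        rfl
    _ ≤ ∑ d ∈ n.divisors, N := sum_le_sum fun d _ => Nat.mul_div_le N d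
    _ = _ := by rw [sum_const, smul_eq_mul, mul_comm]

/-- Second moment lower bound for the number of multiples of a set. -/
lemma p52_cs (B : Finset ℕ) (N I : ℕ) (T : ℝ) (hB : B ⊆ Icc 1 N) (hI : 2 * N ≤ I)
    (hT : ∀ n ∈ B, (n.divisors.card : ℝ) ≤ T) (hT0 : 0 ≤ T) :
    (B.card : ℝ) * I ≤ 4 * (((Icc 1 I).filter fun i => ∃ n ∈ B, n ∣ i).card : ℝ) * N * T := by
  classical
  set M := (Icc 1 I).filter fun i => ∃ n ∈ B, n ∣ i with hM
  rcases Nat.eq_zero_or_pos B.card with h0 | h0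
  · rw [h0]; simp only [Nat.cast_zero, zero_mul]; positivity
  have hN : 1 ≤ N := by
    obtain ⟨n, hn⟩ := card_pos.1 h0
    have := mem_Icc.1 (hB hn); omega
  let r : ℕ → ℝ := fun i => ∑ n ∈ B, if n ∣ i then (n : ℝ) else 0
  have hcnt : ∀ d : ℕ, ((Icc 1 I).filter fun i => d ∣ i).card = I / d := fun d => by
    rw [← Nat.Ioc_filter_dvd_card_eq_div]; rfl
  have h1 : ∑ i ∈ M, r i = ∑ i ∈ Icc 1 I, r i := by
    refine sum_subset (filter_subset _ _) fun i hi hi' => ?_
    refine sum_eq_zero fun n hn => if_neg fun hd => hi' (mem_filter.2 ⟨hi, n, hn, hd⟩)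
  have h2 : (B.card : ℝ) * I / 2 ≤ ∑ i ∈ Icc 1 I, r i := by
    simp only [r]
    rw [sum_comm]
    calc (B.card : ℝ) * I / 2 = ∑ n ∈ B, (I : ℝ) / 2 := by
          rw [sum_const, nsmul_eq_mul]; ring
      _ ≤ _ := sum_le_sum fun n hn => by
          rw [← sum_filter, sum_const, hcnt, nsmul_eq_mul]
          have hn' := mem_Icc.1 (hB hn)
          have h3 := Nat.lt_div_mul_add (a := I) (b := n) hn'.1
          have h4 : I ≤ 2 * (I / n * n) := by omega
          have h5 : (I : ℝ) ≤ 2 * (((I / n : ℕ) : ℝ) * n) := by exact_mod_cast h4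
          linarith
  have h3 : ∑ i ∈ M, r i ^ 2 ≤ I * (B.card * (N * T)) := by
    calc ∑ i ∈ M, r i ^ 2 ≤ ∑ i ∈ Icc 1 I, r i ^ 2 :=
          sum_le_sum_of_subset_of_nonneg (filter_subset _ _) fun _ _ _ => by positivity
      _ = ∑ n ∈ B, ∑ m ∈ B, ∑ i ∈ Icc 1 I, if Nat.lcm n m ∣ i then (n : ℝ) * m else 0 := by
          simp only [r, sq, sum_mul_sum]
          rw [sum_comm]
          refine sum_congr rfl fun n _ => ?_
          rw [sum_comm]
          refine sum_congr rfl fun m _ => sum_congr rfl fun i _ => ?_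
          by_cases a : n ∣ i <;> by_cases b : m ∣ i <;> simp [Nat.lcm_dvd_iff, a, b]
      _ ≤ ∑ n ∈ B, ∑ m ∈ B, (I : ℝ) * (Nat.gcd n m : ℕ) := by
          refine sum_le_sum fun n _ => sum_le_sum fun m _ => ?_
          rw [← sum_filter, sum_const, hcnt, nsmul_eq_mul]
          have h4 : I / Nat.lcm n m * (n * m) ≤ I * Nat.gcd n m := by
            rw [← Nat.gcd_mul_lcm n m, mul_comm (Nat.gcd n m), ← mul_assoc]
            exact Nat.mul_le_mul_right _ (Nat.div_mul_le_self _ _)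
          exact_mod_cast h4
      _ ≤ ∑ n ∈ B, (I : ℝ) * (N * T) := by
          refine sum_le_sum fun n hn => ?_
          rw [← mul_sum]
          refine mul_le_mul_of_nonneg_left ?_ (by positivity)
          have hn' := mem_Icc.1 (hB hn)
          have h4 : ∑ m ∈ B, Nat.gcd n m ≤ N * n.divisors.card :=
            (sum_le_sum_of_subset hB).trans (p52_gcd_sum n N (by omega))
          have h5 : ((∑ m ∈ B, Nat.gcd n m : ℕ) : ℝ) ≤ N * (n.divisors.card : ℝ) := by
            exact_mod_cast h4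
          rw [Nat.cast_sum] at h5
          exact h5.trans (mul_le_mul_of_nonneg_left (hT n hn) (by positivity))
      _ = _ := by rw [sum_const, nsmul_eq_mul]; ring
  have h4 : (∑ i ∈ M, r i) ^ 2 ≤ M.card * ∑ i ∈ M, r i ^ 2 := sq_sum_le_card_mul_sum_sq
  have hb : (0 : ℝ) < B.card := by exact_mod_cast h0
  have hI0 : (0 : ℝ) < I := by exact_mod_cast (by omega : 0 < I)
  have h5 : ((B.card : ℝ) * I / 2) ^ 2 ≤ M.card * (I * (B.card * (N * T))) :=
    (pow_le_pow_left₀ (by positivity) (h1 ▸ h2) 2).trans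
      (h4.trans (mul_le_mul_of_nonneg_left h3 (by positivity)))
  have h6 : (B.card : ℝ) * I * (B.card * I) ≤ (B.card * I) * (4 * M.card * N * T) := by
    nlinarith
  exact le_of_mul_le_mul_left h6 (by positivity)

/-- The combined inequality. -/
lemma p52_main : ∃ C : ℝ, 0 < C ∧ ∀ (B : Finset ℕ) (N X : ℕ) (T : ℝ), 1 ≤ N → B ⊆ Icc 1 N →
    2 ≤ X → 2 * N + 1 ≤ Nat.primeCounting' X → (∀ n ∈ B, (n.divisors.card : ℝ) ≤ T) → 0 ≤ T →
    (∀ n ∈ B, ∀ k, 1 ≤ k → k ≤ X → ¬ n ∣ Nat.primeCounting (k * n)) →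
    (B.card : ℝ) * ((Nat.primeCounting' X : ℝ) - 1) ≤
      C * N * N * T * (X / Real.log X ^ 2) := by
  classical
  obtain ⟨C, hC, h1⟩ := p52_short
  refine ⟨4 * C, by positivity, fun B N X T hN hB hX hpi hT hT0 hun => ?_⟩
  set I := Nat.primeCounting' X - 1 with hI
  have h2 := p52_cs B N I T hB (by omega) hT hT0
  set M := (Icc 1 I).filter fun i => ∃ n ∈ B, n ∣ i with hM
  have hlt : ∀ i, i ≤ I → Nat.nth Nat.Prime i < X := fun i hi =>
    Nat.nth_lt_of_lt_count (by unfold Nat.primeCounting' at hI hpi; omega)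
  have hmono := Nat.nth_strictMono Nat.infinite_setOfPred_prime
  have h3 := h1 X N hX hN (M.image fun i => Nat.nth Nat.Prime (i - 1)) (fun p hp => by
    obtain ⟨i, hi, rfl⟩ := mem_image.1 hp
    have := mem_Icc.1 (mem_filter.1 hi).1
    exact mem_range.2 (hlt _ (by omega))) (fun p hp => by
    obtain ⟨i, hi, rfl⟩ := mem_image.1 hp
    obtain ⟨hi1, n, hn, hd⟩ := mem_filter.1 hi
    have hi2 := mem_Icc.1 hi1
    have hn2 := mem_Icc.1 (hB hn)
    obtain ⟨j, rfl⟩ : ∃ j, i = j + 1 := ⟨i - 1, by omega⟩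
    have h4 := p52_gap n j X hn2.1 hd (hlt _ hi2.2).le (hun n hn)
    have h5 : Nat.nth Nat.Prime j < Nat.nth Nat.Prime (j + 1) := hmono (by omega)
    simp only [Nat.add_sub_cancel]
    refine ⟨Nat.prime_nth_prime _, Nat.nth Nat.Prime (j + 1) - Nat.nth Nat.Prime j,
      by omega, by omega, ?_⟩
    rw [Nat.add_sub_cancel' h5.le]
    exact Nat.prime_nth_prime _)
  rw [card_image_of_injOn (fun a ha b hb hab => by
    have ha' := mem_Icc.1 (mem_filter.1 ha).1
    have hb' := mem_Icc.1 (mem_filter.1 hb).1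
    have := hmono.injective hab
    omega)] at h3
  have h4 : (I : ℝ) = (Nat.primeCounting' X : ℝ) - 1 := by
    rw [hI, Nat.cast_sub (by omega)]; simp
  rw [← h4]
  calc (B.card : ℝ) * I ≤ 4 * (M.card : ℝ) * N * T := h2
    _ ≤ 4 * (C * N * (X / Real.log X ^ 2)) * N * T := by gcongr
    _ = _ := by ring

end P52
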