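import Pool.Agent.Lib.MP_6073f3_nt.Mertens

/-!
Small moments of the divisor function and its upper tail.
-/

set_option autoImplicit false

namespace P52

open Finset ArithmeticFunction

/-- `z` to the number of prime factors. -/
noncomputable def p52h (z : ℝ) : ArithmeticFunction ℝ :=
  ⟨fun d => if d = 0 then 0 else z ^ d.primeFactors.card, by simp⟩

lemma p52h_apply (z : ℝ) {d : ℕ} (hd : d ≠ 0) : p52h z d = z ^ d.primeFactors.card := by
  simp [p52h, hd]

lemma p52h_nonneg {z : ℝ} (hz : 0 ≤ z) (d : ℕ) : 0 ≤ p52h z d := by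
  rcases eq_or_ne d 0 with rfl | hd
  · simp
  · rw [p52h_apply z hd]; positivity

lemma p52h_mult (z : ℝ) : (p52h z).IsMultiplicative := by
  refine ⟨by rw [p52h_apply z one_ne_zero]; simp, fun {m n} hmn => ?_⟩
  rcases eq_or_ne m 0 with rfl | hm
  · simp
  rcases eq_or_ne n 0 with rfl | hn
  · simp
  rw [p52h_apply z (mul_ne_zero hm hn), p52h_apply z hm, p52h_apply z hn, hmn.primeFactors_mul,
    card_union_of_disjoint hmn.disjoint_primeFactors, pow_add]

lemma p52h_pow (z : ℝ) {p k : ℕ} (hp : p.Prime) (hk : k ≠ 0) : p52h z (p ^ k) = z := by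
  rw [p52h_apply z (pow_ne_zero _ hp.ne_zero), Nat.primeFactors_prime_pow hk hp]; simp

lemma p52_conc {s : ℝ} (hs : 0 ≤ s) (hs1 : s ≤ 1) (k : ℕ) (hk : 1 ≤ k) :
    ((k : ℝ) + 1) ^ s ≤ 1 + k * ((2 : ℝ) ^ s - 1) := by
  have hk1 : (1 : ℝ) ≤ k := by exact_mod_cast hk
  have hk0 : (0 : ℝ) < k := by linarith
  have h := (Real.concaveOn_rpow hs hs1).2 (show (1 : ℝ) ∈ Set.Ici 0 by simp)
    (show (k : ℝ) + 1 ∈ Set.Ici 0 by simp only [Set.mem_Ici]; linarith)
    (show (0 : ℝ) ≤ 1 - 1 / k by rw [sub_nonneg, div_le_one hk0]; exact hk1)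
    (show (0 : ℝ) ≤ 1 / k by positivity) (by ring)
  simp only [smul_eq_mul, Real.one_rpow, mul_one] at h
  have h2 : 1 - 1 / (k : ℝ) + 1 / k * (k + 1) = 2 := by field_simp; ring
  rw [h2] at h
  have h3 := mul_le_mul_of_nonneg_left h hk0.le
  have h4 : (k : ℝ) * (1 - 1 / k + 1 / k * ((k : ℝ) + 1) ^ s) = k - 1 + ((k : ℝ) + 1) ^ s := by
    field_simp
  rw [h4] at h3
  linarith

lemma p52_tau_le {s : ℝ} (hs : 0 ≤ s) (hs1 : s ≤ 1) (n : ℕ) (hn : n ≠ 0) :
    (n.divisors.card : ℝ) ^ s ≤ ∑ d ∈ n.divisors, p52h ((2 : ℝ) ^ s - 1) d := by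
  have hm : (((zeta : ArithmeticFunction ℕ) : ArithmeticFunction ℝ) * p52h ((2 : ℝ) ^ s - 1)).IsMultiplicative :=
    isMultiplicative_zeta.natCast.mul (p52h_mult _)
  induction n using Nat.recOnPosPrimePosCoprime with
  | prime_pow p k hp hk =>
    rw [Nat.divisors_prime_pow hp, card_map, card_range, sum_map, sum_range_succ']
    simp only [Function.Embedding.coeFn_mk, pow_zero]
    rw [(p52h_mult _).1, sum_congr rfl fun j _ => p52h_pow _ hp (Nat.succ_ne_zero j), sum_const,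
      card_range, nsmul_eq_mul]
    have := p52_conc hs hs1 k hk
    push_cast
    linarith
  | zero => exact absurd rfl hn
  | one => simp [(p52h_mult _).1]
  | coprime a b ha hb hab iha ihb =>
    have h1 := hm.map_mul_of_coprime hab
    simp only [coe_zeta_mul_apply] at h1
    rw [h1, hab.card_divisors_mul, Nat.cast_mul, Real.mul_rpow (by positivity) (by positivity)]
    have h2 := iha (by omega)
    exact mul_le_mul h2 (ihb (by omega)) (by positivity) (le_trans (by positivity) h2)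

lemma p52_euler {z : ℝ} (hz : 0 ≤ z) (hz1 : z ≤ 1) (N : ℕ) (hN : 2 ≤ N) :
    ∑ d ∈ Icc 1 N, p52h z d / d ≤ Real.exp 10 * Real.log N ^ z := by
  classical
  let f : ℕ → ℝ := fun d => p52h z d / d
  have hf0 : ∀ d, 0 ≤ f d := fun d => div_nonneg (p52h_nonneg hz d) (by positivity)
  have hpow : ∀ {p : ℕ}, p.Prime → ∀ k, f (p ^ (k + 1)) = z * (p : ℝ)⁻¹ * ((p : ℝ)⁻¹) ^ k :=
    fun {p} hp k => by
      simp only [f]
      rw [p52h_pow z hp (Nat.succ_ne_zero k)]
      push_cast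
      rw [div_eq_mul_inv, ← inv_pow, pow_succ]; ring
  have hb : ∀ {p : ℕ}, p.Prime → (p : ℝ)⁻¹ ≤ 1 / 2 := fun {p} hp => by
    rw [one_div]
    exact inv_anti₀ two_pos (by exact_mod_cast hp.two_le)
  have hf1 : f 1 = 1 := by simp [f, (p52h_mult z).1]
  have hs : ∀ {p : ℕ}, p.Prime →
      HasSum (fun k => f (p ^ k)) (1 + z * (p : ℝ)⁻¹ * (1 - (p : ℝ)⁻¹)⁻¹) := fun {p} hp => by
    have h1 := (hasSum_geometric_of_lt_one (r := (p : ℝ)⁻¹) (by positivity)
      (by linarith [hb hp])).mul_left (z * (p : ℝ)⁻¹)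
    rw [← hasSum_nat_add_iff' 1]
    simp only [hpow hp, range_one, sum_singleton, pow_zero, hf1, add_sub_cancel_left]
    exact h1
  obtain ⟨-, h⟩ := EulerProduct.summable_and_hasSum_smoothNumbers_prod_primesBelow_tsum
    (f := f) hf1 (fun {m n} hmn => by
      simp only [f]
      rw [(p52h_mult z).map_mul_of_coprime hmn, Nat.cast_mul, mul_div_mul_comm])
    (fun {p} hp => by
      simp only [Real.norm_of_nonneg (hf0 _)]
      exact (hs hp).summable) (N + 1)
  have h2 : ∑ n ∈ Icc 1 N, f n ≤ ∏ p ∈ (N + 1).primesBelow, ∑' k, f (p ^ k) := by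
    have h := (hasSum_subtype_iff_indicator (f := f)).1 h
    refine le_trans (le_of_eq (sum_congr rfl fun n hn => ?_)) (sum_le_hasSum (Icc 1 N)
      (fun n _ => Set.indicator_nonneg (fun n _ => hf0 n) n) h)
    rw [mem_Icc] at hn
    rw [Set.indicator_of_mem (Nat.mem_smoothNumbers_of_lt (by omega) (by omega))]
  have h3 : ∏ p ∈ (N + 1).primesBelow, ∑' k, f (p ^ k) ≤
      Real.exp (∑ p ∈ (N + 1).primesBelow, (z * (p : ℝ)⁻¹ + 2 * ((p : ℝ) ^ 2)⁻¹)) := by
    rw [Real.exp_sum]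
    refine prod_le_prod (fun p _ => tsum_nonneg fun k => hf0 _) fun p hp => ?_
    have hp' := Nat.prime_of_mem_primesBelow hp
    rw [(hs hp').tsum_eq, ← inv_pow]
    have h0 : (0 : ℝ) ≤ (p : ℝ)⁻¹ := by positivity
    have h4 := hb hp'
    refine le_trans ?_ (Real.add_one_le_exp _)
    have h5 : (1 - (p : ℝ)⁻¹)⁻¹ ≤ 1 + 2 * (p : ℝ)⁻¹ := by
      rw [inv_le_iff_one_le_mul₀ (by linarith)]
      nlinarith
    have h6 := mul_le_mul_of_nonneg_left h5 (mul_nonneg hz h0)
    nlinarith [mul_nonneg h0 h0]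
  have h4 := Pool.Agent.Lib.TorsRank.sum_inv_sq_le (S := (N + 1).primesBelow) fun l hl =>
    (Nat.prime_of_mem_primesBelow hl).two_le
  have h5 := Pool.Agent.Lib.TorsRank.mertens_upper (fun n => if n = 1 then 1 else 0) (by simp)
    (fun m n => by
      by_cases a : m = 1 <;> by_cases b : n = 1 <;> simp [a, b]) (fun n => by
      by_cases a : n = 1 <;> simp [a]) (B := 1) (fun u => by
      simp only [ite_div, zero_div]
      rw [sum_ite_eq']
      split_ifs <;> simp) hN (S := (N + 1).primesBelow) (fun l hl => by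
      rw [Nat.mem_primesBelow] at hl
      exact ⟨hl.2, by omega⟩)
  have h6 : ∑ p ∈ (N + 1).primesBelow, (p : ℝ)⁻¹ ≤ Real.log (28 * 1 * Real.log N) + 4 := by
    refine le_trans (le_of_eq (sum_congr rfl fun p hp => ?_)) h5
    rw [if_neg (Nat.prime_of_mem_primesBelow hp).ne_one]; simp
  have hL : 0 < Real.log N := Real.log_pos (by exact_mod_cast hN)
  rw [mul_one, Real.log_mul (by norm_num) hL.ne'] at h6
  have h7 : Real.log 28 ≤ 4 := by
    rw [Real.log_le_iff_le_exp (by norm_num)]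
    have := Real.add_one_le_exp (1 : ℝ)
    have h8 := Real.exp_one_gt_d9
    have h9 : Real.exp 4 = Real.exp 1 ^ 4 := by rw [← Real.exp_nat_mul]; norm_num
    rw [h9]
    calc (28 : ℝ) ≤ 2.5 ^ 4 := by norm_num
      _ ≤ _ := pow_le_pow_left₀ (by norm_num) (by linarith) 4
  refine h2.trans (h3.trans ?_)
  rw [Real.rpow_def_of_pos hL, ← Real.exp_add, Real.exp_le_exp, sum_add_distrib, ← mul_sum,
    ← mul_sum]
  have h8 := mul_le_mul_of_nonneg_left h6 hz
  nlinarith

lemma p52_moment {s : ℝ} (hs : 0 ≤ s) (hs1 : s ≤ 1) (N : ℕ) (hN : 2 ≤ N) :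
    ∑ n ∈ Icc 1 N, (n.divisors.card : ℝ) ^ s ≤
      Real.exp 10 * N * Real.log N ^ ((2 : ℝ) ^ s - 1) := by
  classical
  set z := (2 : ℝ) ^ s - 1 with hz
  have hz0 : 0 ≤ z := sub_nonneg.2 (Real.one_le_rpow (by norm_num) hs)
  have hz1 : z ≤ 1 := by
    have := Real.rpow_le_rpow_of_exponent_le (show (1 : ℝ) ≤ 2 by norm_num) hs1
    rw [Real.rpow_one] at this
    linarith
  calc ∑ n ∈ Icc 1 N, (n.divisors.card : ℝ) ^ s
      ≤ ∑ n ∈ Icc 1 N, ∑ d ∈ Icc 1 N, if d ∣ n then p52h z d else 0 := by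
        refine sum_le_sum fun n hn => ?_
        rw [mem_Icc] at hn
        refine (p52_tau_le hs hs1 n (by omega)).trans ?_
        rw [← sum_filter]
        refine sum_le_sum_of_subset_of_nonneg (fun d hd => ?_) fun d _ _ => p52h_nonneg hz0 d
        have h1 := Nat.dvd_of_mem_divisors hd
        have h2 := Nat.le_of_dvd (by omega) h1
        have h3 := Nat.pos_of_mem_divisors hd
        exact mem_filter.2 ⟨mem_Icc.2 ⟨h3, by omega⟩, h1⟩
    _ ≤ ∑ d ∈ Icc 1 N, N * (p52h z d / d) := by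
        rw [sum_comm]
        refine sum_le_sum fun d _ => ?_
        have hc : ((Icc 1 N).filter fun i => d ∣ i).card = N / d := by
          rw [← Nat.Ioc_filter_dvd_card_eq_div]; rfl
        rw [← sum_filter, sum_const, hc, nsmul_eq_mul, ← mul_div_assoc, mul_div_right_comm]
        exact mul_le_mul_of_nonneg_right Nat.cast_div_le (p52h_nonneg hz0 d)
    _ ≤ N * (Real.exp 10 * Real.log N ^ z) := by
        rw [← mul_sum]
        exact mul_le_mul_of_nonneg_left (p52_euler hz0 hz1 N hN) (by positivity)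
    _ = _ := by ring

lemma p52_tail {c : ℝ} (hc : Real.log 2 < c) : ∃ η : ℝ, 0 < η ∧ ∀ N : ℕ, 2 ≤ N →
    (((Icc 1 N).filter fun n => Real.log N ^ c < (n.divisors.card : ℝ)).card : ℝ) ≤
      Real.exp 10 * N / Real.log N ^ η := by
  classical
  obtain ⟨s, hs, hs1, hsc⟩ : ∃ s : ℝ, 0 < s ∧ s ≤ 1 ∧ (2 : ℝ) ^ s - 1 < s * c := by
    have hl := Real.log_two_gt_d9
    have hl2 := Real.log_two_lt_d9
    refine ⟨min 1 (c - Real.log 2), lt_min one_pos (by linarith), min_le_left _ _, ?_⟩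
    set s := min 1 (c - Real.log 2) with hs
    have h0 : 0 < s := lt_min one_pos (by linarith)
    have h1 : s ≤ 1 := min_le_left _ _
    have h2 : s ≤ c - Real.log 2 := min_le_right _ _
    rw [Real.rpow_def_of_pos two_pos]
    have h3 : |Real.log 2 * s| ≤ 1 := by
      rw [abs_of_nonneg (by positivity)]; nlinarith
    have h4 := (abs_le.1 (Real.abs_exp_sub_one_sub_id_le h3)).2
    have h5 : (Real.log 2 * s) ^ 2 < s * s := by
      have : Real.log 2 ^ 2 < 1 := by nlinarith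
      nlinarith [mul_pos h0 h0]
    nlinarith
  refine ⟨s * c - ((2 : ℝ) ^ s - 1), by linarith, fun N hN => ?_⟩
  have hL : 0 < Real.log N := Real.log_pos (by exact_mod_cast hN)
  have h1 := p52_moment hs.le hs1 N hN
  set F := (Icc 1 N).filter fun n => Real.log N ^ c < (n.divisors.card : ℝ) with hF
  have h2 : (F.card : ℝ) * Real.log N ^ (s * c) ≤ ∑ n ∈ Icc 1 N, (n.divisors.card : ℝ) ^ s := by
    calc (F.card : ℝ) * Real.log N ^ (s * c) = ∑ n ∈ F, Real.log N ^ (s * c) := by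
          rw [sum_const, nsmul_eq_mul]
      _ ≤ ∑ n ∈ F, (n.divisors.card : ℝ) ^ s := sum_le_sum fun n hn => by
          rw [mul_comm, Real.rpow_mul hL.le]
          exact Real.rpow_le_rpow (by positivity) (mem_filter.1 hn).2.le hs.le
      _ ≤ _ := sum_le_sum_of_subset_of_nonneg (filter_subset _ _) fun _ _ _ => by positivity
  rw [Real.rpow_sub hL, div_div_eq_mul_div, le_div_iff₀ (by positivity)]
  exact h2.trans h1

end P52
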