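import Pool.Agent.Lib.P52.A
import Pool.Agent.Lib.P52.B

/-!
Assembly: almost every `n` divides `π(kn)` for some `k ≤ exp(n (log n)^c)`.
-/

set_option autoImplicit false

namespace P52

open Finset Filter

lemma p52_pi (X : ℕ) (hX : 10000 ≤ X) :
    (X : ℝ) / (4 * Real.log X) ≤ (Nat.primeCounting' X : ℝ) - 1 ∧
      Real.sqrt X / 8 ≤ (X : ℝ) / (4 * Real.log X) := by
  have hX1 : (10000 : ℝ) ≤ X := by exact_mod_cast hX
  have hL : 0 < Real.log X := Real.log_pos (by linarith)
  have hs : 100 ≤ Real.sqrt X := by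
    rw [Real.le_sqrt (by norm_num) (by linarith)]; linarith
  have hss : Real.sqrt X * Real.sqrt X = X := Real.mul_self_sqrt (by linarith)
  have hl : Real.log X ≤ 2 * Real.sqrt X := by
    have h1 := Real.log_le_sub_one_of_pos (show 0 < Real.sqrt X by linarith)
    rw [Real.log_sqrt (by linarith)] at h1
    linarith
  have hl1 : Real.log ((X : ℝ) + 1) ≤ 1 + 2 * Real.sqrt X := by
    have h1 : Real.log ((X : ℝ) + 1) ≤ Real.log (2 * X) :=
      Real.log_le_log (by linarith) (by linarith)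
    rw [Real.log_mul (by norm_num) (by linarith)] at h1
    linarith [Real.log_two_lt_d9]
  have h1 := Chebyshev.pi_ge X
  have h2 : Nat.primeCounting X ≤ Nat.primeCounting' X + 1 := by
    unfold Nat.primeCounting Nat.primeCounting'
    rw [Nat.count_succ]
    split_ifs <;> omega
  have h3 : (Nat.primeCounting X : ℝ) ≤ Nat.primeCounting' X + 1 := by exact_mod_cast h2
  constructor
  · have h4 : (X : ℝ) / (4 * Real.log X) + 2 ≤
        (X * Real.log 2 - Real.log (X + 1)) / Real.log X := by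
      rw [le_div_iff₀ hL, add_mul]
      have h5 : (X : ℝ) / (4 * Real.log X) * Real.log X = X / 4 := by field_simp
      rw [h5]
      nlinarith [Real.log_two_gt_d9]
    linarith
  · rw [div_le_div_iff₀ (by norm_num) (by positivity)]
    nlinarith

lemma p52_big {c : ℝ} (hc : Real.log 2 < c) : ∃ δ : ℝ, 0 < δ ∧ ∃ C : ℝ, 0 < C ∧
    ∀ᶠ N : ℕ in atTop, ∀ B : Finset ℕ, B ⊆ Icc 1 N →
      (∀ n ∈ B, (N : ℝ) / Real.log N ^ δ < n) →
      (∀ n ∈ B, (n.divisors.card : ℝ) ≤ Real.log N ^ (Real.log 2 + δ)) →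
      (∀ n ∈ B, ∀ k : ℕ, 1 ≤ k → (k : ℝ) ≤ Real.exp (n * Real.log n ^ c) →
        ¬ n ∣ Nat.primeCounting (k * n)) →
      (B.card : ℝ) ≤ C * N / Real.log N ^ δ := by
  obtain ⟨C, hC, hm⟩ := p52_main
  have hl2 := Real.log_two_gt_d9
  set δ := (c - Real.log 2) / 3 with hδ
  have hδ0 : 0 < δ := by rw [hδ]; linarith
  have hc0 : 0 < c := by linarith
  refine ⟨δ, hδ0, 8 * C * 2 ^ c, by positivity, ?_⟩
  have e1 : ∀ᶠ N : ℕ in atTop, Real.log N ^ δ ≤ Real.sqrt N := by
    have h := (isLittleO_log_rpow_rpow_atTop δ (show (0 : ℝ) < 1 / 2 by norm_num)).bound one_pos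
    filter_upwards [tendsto_natCast_atTop_atTop.eventually h] with N hN
    rw [one_mul, Real.norm_of_nonneg (Real.rpow_nonneg (Real.log_natCast_nonneg N) _),
      Real.norm_of_nonneg (by positivity)] at hN
    rwa [Real.sqrt_eq_rpow]
  have e2 : ∀ᶠ N : ℕ in atTop, (2 : ℝ) ^ c ≤ Real.log N ^ (c - δ) :=
    ((tendsto_rpow_atTop (show 0 < c - δ by rw [hδ]; linarith)).comp
      (Real.tendsto_log_atTop.comp tendsto_natCast_atTop_atTop)).eventually_ge_atTop _
  filter_upwards [e1, e2, eventually_ge_atTop 10000] with N h1 h2 hN B hB hlo hT hun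
  have hN1 : (10000 : ℝ) ≤ N := by exact_mod_cast hN
  have hL : 0 < Real.log N := Real.log_pos (by linarith)
  have h2c : (0 : ℝ) < 2 ^ c := by positivity
  set Λ : ℝ := N * Real.log N ^ (c - δ) / 2 ^ c with hΛ
  have hΛN : (N : ℝ) ≤ Λ := by
    rw [hΛ, le_div_iff₀ h2c]
    exact mul_le_mul_of_nonneg_left h2 (by positivity)
  set X := ⌊Real.exp Λ⌋₊ with hX
  have hXle : (X : ℝ) ≤ Real.exp Λ := Nat.floor_le (Real.exp_pos _).le
  have hXge : Real.exp Λ / 2 ≤ X := by
    have h3 := Nat.lt_floor_add_one (Real.exp Λ)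
    have h4 := Real.add_one_le_exp Λ
    linarith
  have hX3 : (16 * N : ℝ) ^ 2 ≤ X := by
    have h3 := Real.pow_div_factorial_le_exp (N : ℝ) (by positivity) 3
    have h4 := Real.exp_le_exp.2 hΛN
    norm_num [Nat.factorial] at h3
    nlinarith [mul_nonneg (sq_nonneg (N : ℝ)) (show (0 : ℝ) ≤ N - 10000 by linarith)]
  have hX4 : (10000 : ℝ) ≤ X := by nlinarith
  have hX5 : 10000 ≤ X := by exact_mod_cast hX4
  obtain ⟨p1, p2⟩ := p52_pi X hX5
  have hsq : 16 * (N : ℝ) ≤ Real.sqrt X := Real.le_sqrt_of_sq_le hX3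
  have hLX : Λ / 2 ≤ Real.log X := by
    have h3 := Real.log_le_log (by positivity) hXge
    rw [Real.log_div (Real.exp_pos _).ne' (by norm_num), Real.log_exp] at h3
    linarith [Real.log_two_lt_d9]
  have hLX0 : 0 < Real.log X := by linarith
  have hpi : 2 * N + 1 ≤ Nat.primeCounting' X := by
    have : (2 * N + 1 : ℝ) ≤ Nat.primeCounting' X := by linarith
    exact_mod_cast this
  have hmain := hm B N X _ (by omega) hB (by omega) hpi hT (by positivity) (fun n hn k hk hkX => by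
    refine hun n hn k hk (le_trans (by exact_mod_cast hkX) (hXle.trans (Real.exp_le_exp.2 ?_)))
    have a1 := hlo n hn
    have hR : 0 < Real.log N ^ δ := by positivity
    have hs0 : 0 < Real.sqrt N := Real.sqrt_pos.2 (by linarith)
    have a2 : Real.sqrt N ≤ N / Real.log N ^ δ := by
      rw [le_div_iff₀ hR]
      nlinarith [Real.mul_self_sqrt (show (0 : ℝ) ≤ N by linarith)]
    have a3 : Real.log N / 2 ≤ Real.log n := by
      rw [← Real.log_sqrt (by linarith)]
      exact Real.log_le_log hs0 (by linarith)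
    have a4 : (Real.log N / 2) ^ c ≤ Real.log n ^ c :=
      Real.rpow_le_rpow (by positivity) a3 hc0.le
    rw [Real.div_rpow hL.le (by norm_num)] at a4
    calc Λ = N / Real.log N ^ δ * (Real.log N ^ c / 2 ^ c) := by
          rw [hΛ, Real.rpow_sub hL]; field_simp
      _ ≤ _ := mul_le_mul a1.le a4 (by positivity) (by positivity))
  set T := Real.log N ^ (Real.log 2 + δ) with hTd
  have hT0 : 0 < T := by positivity
  have b1 : (B.card : ℝ) * (X / (4 * Real.log X)) ≤ C * N * N * T * (X / Real.log X ^ 2) :=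
    (mul_le_mul_of_nonneg_left p1 (by positivity)).trans hmain
  have b2 : (B.card : ℝ) ≤ 4 * C * N * N * T / Real.log X := by
    have b3 : C * N * N * T * (X / Real.log X ^ 2) =
        4 * C * N * N * T / Real.log X * (X / (4 * Real.log X)) := by field_simp
    rw [b3] at b1
    exact le_of_mul_le_mul_right b1 (by positivity)
  have b4 : Real.log N ^ (c - δ) = T * Real.log N ^ δ := by
    rw [hTd, ← Real.rpow_add hL]; congr 1; rw [hδ]; ring
  calc (B.card : ℝ) ≤ 4 * C * N * N * T / Real.log X := b2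
    _ ≤ 4 * C * N * N * T / (Λ / 2) :=
        div_le_div_of_nonneg_left (by positivity) (by linarith) hLX
    _ = _ := by rw [hΛ, b4]; field_simp; norm_num

theorem p52_final {c : ℝ} (hc : Real.log 2 < c) : ∃ η : ℝ, 0 < η ∧ ∃ C : ℝ, ∀ N : ℕ, 2 ≤ N →
    (({n : ℕ | 1 ≤ n ∧ n ≤ N ∧ ¬ ∃ k : ℕ, 1 ≤ k ∧ (k : ℝ) ≤ Real.exp (n * Real.log n ^ c) ∧
      n ∣ Nat.primeCounting (k * n)}.ncard : ℕ) : ℝ) ≤ C * N / Real.log N ^ η := by
  classical
  obtain ⟨δ, hδ, C, hC, hbig⟩ := p52_big hc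
  obtain ⟨θ, hθ, htail⟩ := p52_tail (c := Real.log 2 + δ) (by linarith)
  obtain ⟨N0, hN0⟩ := eventually_atTop.1 (hbig.and (eventually_ge_atTop 3))
  set η := min δ θ with hη
  have hη0 : 0 < η := lt_min hδ hθ
  have hl0 : 0 ≤ Real.log N0 ^ η := Real.rpow_nonneg (Real.log_natCast_nonneg _) _
  refine ⟨η, hη0, Real.log N0 ^ η + (1 + Real.exp 10 + C), fun N hN => ?_⟩
  set A := (Icc 1 N).filter fun n : ℕ => ¬ ∃ k : ℕ, 1 ≤ k ∧
    (k : ℝ) ≤ Real.exp (n * Real.log n ^ c) ∧ n ∣ Nat.primeCounting (k * n) with hA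
  have hset : {n : ℕ | 1 ≤ n ∧ n ≤ N ∧ ¬ ∃ k : ℕ, 1 ≤ k ∧
      (k : ℝ) ≤ Real.exp (n * Real.log n ^ c) ∧ n ∣ Nat.primeCounting (k * n)} = (A : Set ℕ) := by
    ext n
    simp only [hA, Set.mem_ofPred_eq, coe_filter, mem_Icc, and_assoc]
  rw [hset, Set.ncard_coe_finset]
  have hN2 : (2 : ℝ) ≤ N := by exact_mod_cast hN
  have hL : 0 < Real.log N := Real.log_pos (by linarith)
  have hLη : 0 < Real.log N ^ η := by positivity
  rcases lt_or_ge N N0 with h | h
  · have h1 : (A.card : ℝ) ≤ N := by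
      have := card_filter_le (Icc 1 N) fun n : ℕ => ¬ ∃ k : ℕ, 1 ≤ k ∧
        (k : ℝ) ≤ Real.exp (n * Real.log n ^ c) ∧ n ∣ Nat.primeCounting (k * n)
      rw [Nat.card_Icc, Nat.add_sub_cancel] at this
      exact_mod_cast this
    have h2 : Real.log N ^ η ≤ Real.log N0 ^ η :=
      Real.rpow_le_rpow hL.le (Real.log_le_log (by linarith) (by exact_mod_cast h.le)) hη0.le
    rw [le_div_iff₀ hLη]
    calc (A.card : ℝ) * Real.log N ^ η ≤ N * Real.log N0 ^ η :=
          mul_le_mul h1 h2 hLη.le (by positivity)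
      _ ≤ _ := by nlinarith [Real.exp_pos 10]
  · obtain ⟨h1, h3⟩ := hN0 N h
    have hL1 : 1 ≤ Real.log N := by
      rw [Real.le_log_iff_exp_le (by linarith)]
      have : (3 : ℝ) ≤ N := by exact_mod_cast h3
      linarith [Real.exp_one_lt_d9]
    set A1 := Icc 1 ⌊(N : ℝ) / Real.log N ^ δ⌋₊ with hA1
    set A2 := (Icc 1 N).filter fun n => Real.log N ^ (Real.log 2 + δ) < (n.divisors.card : ℝ)
      with hA2
    set B := A.filter fun n : ℕ => (N : ℝ) / Real.log N ^ δ < n ∧
      (n.divisors.card : ℝ) ≤ Real.log N ^ (Real.log 2 + δ) with hB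
    have hsub : A ⊆ A1 ∪ A2 ∪ B := by
      intro n hn
      have hn1 := (mem_filter.1 hn).1
      by_cases a : (N : ℝ) / Real.log N ^ δ < n
      · by_cases b : (n.divisors.card : ℝ) ≤ Real.log N ^ (Real.log 2 + δ)
        · exact mem_union_right _ (mem_filter.2 ⟨hn, a, b⟩)
        · exact mem_union_left _ (mem_union_right _ (mem_filter.2 ⟨hn1, not_le.1 b⟩))
      · exact mem_union_left _ (mem_union_left _
          (mem_Icc.2 ⟨(mem_Icc.1 hn1).1, Nat.le_floor (not_lt.1 a)⟩))
    have c0 : A.card ≤ A1.card + A2.card + B.card :=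
      (card_le_card hsub).trans ((card_union_le _ _).trans
        (Nat.add_le_add_right (card_union_le _ _) _))
    have c1 : (A1.card : ℝ) ≤ N / Real.log N ^ δ := by
      rw [hA1, Nat.card_Icc, Nat.add_sub_cancel]
      exact Nat.floor_le (by positivity)
    have c2 := htail N hN
    have c3 := h1 B ((filter_subset _ _).trans (filter_subset _ _))
      (fun n hn => (mem_filter.1 hn).2.1) (fun n hn => (mem_filter.1 hn).2.2)
      (fun n hn k a b d => (mem_filter.1 (mem_filter.1 hn).1).2 ⟨k, a, b, d⟩)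
    have d1 : Real.log N ^ η ≤ Real.log N ^ δ :=
      Real.rpow_le_rpow_of_exponent_le hL1 (min_le_left _ _)
    have d2 : Real.log N ^ η ≤ Real.log N ^ θ :=
      Real.rpow_le_rpow_of_exponent_le hL1 (min_le_right _ _)
    have f1 := c1.trans (div_le_div_of_nonneg_left (by positivity) hLη d1)
    have f2 := c2.trans (div_le_div_of_nonneg_left (by positivity) hLη d2)
    have f3 := c3.trans (div_le_div_of_nonneg_left (by positivity) hLη d1)
    have c4 : (A.card : ℝ) ≤ A1.card + A2.card + B.card := by exact_mod_cast c0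
    have g : (Real.log N0 ^ η + (1 + Real.exp 10 + C)) * N / Real.log N ^ η =
        Real.log N0 ^ η * N / Real.log N ^ η + (N / Real.log N ^ η +
          Real.exp 10 * N / Real.log N ^ η + C * N / Real.log N ^ η) := by ring
    rw [g]
    have g0 : 0 ≤ Real.log N0 ^ η * N / Real.log N ^ η := by positivity
    linarith

end P52
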