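import Mathlib

/-!
Finite averaging operators for independent coin flips, and the Fourier expansion of the
probability that the number of successes is divisible by `q`.
-/

set_option autoImplicit false

namespace P52

open Finset Function

abbrev Cf := ℕ → Bool

/-- average over the coordinate `m` -/
noncomputable def av (p : ℕ → ℝ) (m : ℕ) : (Cf → ℝ) →ₗ[ℝ] (Cf → ℝ) where
  toFun g := fun ω => (1 - p m) * g (update ω m false) + p m * g (update ω m true)
  map_add' g h := by funext ω; simp only [Pi.add_apply]; ring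
  map_smul' c g := by funext ω; simp only [Pi.smul_apply, smul_eq_mul, RingHom.id_apply]; ring

lemma av_apply (p : ℕ → ℝ) (m : ℕ) (g : Cf → ℝ) (ω : Cf) :
    av p m g ω = (1 - p m) * g (update ω m false) + p m * g (update ω m true) := rfl

/-- average over the coordinates `y, .., y + l - 1` -/
noncomputable def opr (p : ℕ → ℝ) (y : ℕ) : ℕ → ((Cf → ℝ) →ₗ[ℝ] (Cf → ℝ))
  | 0 => LinearMap.id
  | l + 1 => (opr p y l).comp (av p (y + l))

lemma opr_zero (p : ℕ → ℝ) (y : ℕ) (g : Cf → ℝ) : opr p y 0 g = g := rfl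

lemma opr_succ (p : ℕ → ℝ) (y l : ℕ) (g : Cf → ℝ) :
    opr p y (l + 1) g = opr p y l (av p (y + l) g) := rfl

/-- `g` depends only on the coordinates below `y` -/
def Dep (y : ℕ) (g : Cf → ℝ) : Prop := ∀ ω ω' : Cf, (∀ m < y, ω m = ω' m) → g ω = g ω'

lemma Dep.mono {y y' : ℕ} {g : Cf → ℝ} (h : Dep y g) (hy : y ≤ y') : Dep y' g :=
  fun ω ω' H => h ω ω' fun m hm => H m (by omega)

lemma Dep.mul {y : ℕ} {g h : Cf → ℝ} (hg : Dep y g) (hh : Dep y h) : Dep y (g * h) :=
  fun ω ω' H => by simp only [Pi.mul_apply, hg ω ω' H, hh ω ω' H]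

lemma Dep.upd {y m : ℕ} {g : Cf → ℝ} (h : Dep y g) (hm : y ≤ m) (ω : Cf) (b : Bool) :
    g (update ω m b) = g ω :=
  h _ _ fun j hj => update_of_ne (by omega) _ _

lemma opr_add (p : ℕ → ℝ) (y a b : ℕ) (g : Cf → ℝ) :
    opr p y (a + b) g = opr p y a (opr p (y + a) b g) := by
  induction b generalizing g with
  | zero => rfl
  | succ b ih => rw [← add_assoc, opr_succ, ih, opr_succ, add_assoc]

lemma opr_mono {p : ℕ → ℝ} (hp : ∀ m, 0 ≤ p m ∧ p m ≤ 1) (y l : ℕ) {g h : Cf → ℝ}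
    (H : ∀ ω, g ω ≤ h ω) (ω : Cf) : opr p y l g ω ≤ opr p y l h ω := by
  induction l generalizing g h with
  | zero => exact H ω
  | succ l ih =>
    rw [opr_succ, opr_succ]
    refine ih fun ω => ?_
    rw [av_apply, av_apply]
    have := hp (y + l)
    exact add_le_add (mul_le_mul_of_nonneg_left (H _) (by linarith))
      (mul_le_mul_of_nonneg_left (H _) this.1)

lemma opr_pull (p : ℕ → ℝ) (y l : ℕ) {f : Cf → ℝ} (hf : Dep y f) (g : Cf → ℝ) :
    opr p y l (f * g) = f * opr p y l g := by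
  induction l generalizing g with
  | zero => rfl
  | succ l ih =>
    rw [opr_succ, opr_succ, ← ih]
    congr 1
    funext ω
    simp only [av_apply, Pi.mul_apply, hf.upd (Nat.le_add_right y l)]
    ring

lemma opr_dep (p : ℕ → ℝ) (y l : ℕ) {f : Cf → ℝ} (hf : Dep y f) : opr p y l f = f := by
  induction l with
  | zero => rfl
  | succ l ih =>
    rw [opr_succ]
    refine Eq.trans ?_ ih
    congr 1
    funext ω
    simp only [av_apply, hf.upd (Nat.le_add_right y l)]
    ring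

/-- conditional expectation given the coordinates below `y`, with horizon `X` -/
noncomputable def ce (p : ℕ → ℝ) (X y : ℕ) : (Cf → ℝ) →ₗ[ℝ] (Cf → ℝ) := opr p y (X - y)

lemma ce_mono {p : ℕ → ℝ} (hp : ∀ m, 0 ≤ p m ∧ p m ≤ 1) (X y : ℕ) {g h : Cf → ℝ}
    (H : ∀ ω, g ω ≤ h ω) (ω : Cf) : ce p X y g ω ≤ ce p X y h ω := opr_mono hp _ _ H ω

lemma ce_const (p : ℕ → ℝ) (X y : ℕ) (c : ℝ) (ω : Cf) : ce p X y (fun _ => c) ω = c :=
  congrFun (opr_dep p y (X - y) (f := fun _ => c) fun _ _ _ => rfl) ω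

lemma ce_one (p : ℕ → ℝ) (X y : ℕ) (ω : Cf) : ce p X y 1 ω = 1 := ce_const p X y 1 ω

lemma ce_le {p : ℕ → ℝ} (hp : ∀ m, 0 ≤ p m ∧ p m ≤ 1) (X y : ℕ) {g : Cf → ℝ} {c : ℝ}
    (H : ∀ ω, g ω ≤ c) (ω : Cf) : ce p X y g ω ≤ c :=
  (ce_mono hp X y H ω).trans_eq (ce_const p X y c ω)

lemma le_ce {p : ℕ → ℝ} (hp : ∀ m, 0 ≤ p m ∧ p m ≤ 1) (X y : ℕ) {g : Cf → ℝ} {c : ℝ}
    (H : ∀ ω, c ≤ g ω) (ω : Cf) : c ≤ ce p X y g ω :=
  (ce_const p X y c ω).symm.trans_le (ce_mono hp X y H ω)

lemma ce_tower (p : ℕ → ℝ) (X : ℕ) {y y' : ℕ} (h : y ≤ y') (g : Cf → ℝ) :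
    ce p X y g = ce p X y (ce p X y' g) := by
  rcases le_total y' X with h' | h'
  · obtain ⟨a, rfl⟩ := Nat.exists_eq_add_of_le h
    obtain ⟨b, rfl⟩ := Nat.exists_eq_add_of_le h'
    have e1 : y + a + b - y = a + b := by omega
    have e2 : y + a + b - (y + a) = b := by omega
    have hd : ∀ (l : ℕ) (g : Cf → ℝ), opr p (y + a) l (opr p (y + a) l g) = opr p (y + a) l g := by
      intro l
      have hu : ∀ (l : ℕ) (g : Cf → ℝ) (m : ℕ), (y + a + l ≤ m ∨ m < y + a) →
          (∀ ω b, g (update ω m b) = g ω) →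
          ∀ ω b, opr p (y + a) l g (update ω m b) = opr p (y + a) l g ω := by
        intro l
        induction l with
        | zero => exact fun g m _ H => H
        | succ l ih =>
          intro g m hm H
          rw [opr_succ]
          refine ih _ m (by omega) fun ω b => ?_
          rw [av_apply, av_apply, update_comm (by omega), update_comm (a := m) (by omega), H, H]
      have hv : ∀ (l : ℕ) (g : Cf → ℝ) (m : ℕ), y + a ≤ m → m < y + a + l →
          ∀ ω b, opr p (y + a) l g (update ω m b) = opr p (y + a) l g ω := by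
        intro l
        induction l with
        | zero => intro g m h1 h2; omega
        | succ l ih =>
          intro g m h1 h2
          rw [opr_succ]
          rcases Nat.lt_or_ge m (y + a + l) with h3 | h3
          · exact ih _ m h1 h3
          · obtain rfl : m = y + a + l := by omega
            exact hu l _ _ (Or.inl le_rfl) fun ω b => by simp only [av_apply, update_idem]
      intro g
      have hw : ∀ j ≤ l, opr p (y + a) j (opr p (y + a) l g) = opr p (y + a) l g := by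
        intro j
        induction j with
        | zero => exact fun _ => rfl
        | succ j ih =>
          intro hj
          rw [opr_succ]
          refine Eq.trans ?_ (ih (by omega))
          congr 1
          funext ω
          rw [av_apply, hv l g _ (by omega) (by omega), hv l g _ (by omega) (by omega)]
          ring
      exact hw l le_rfl
    unfold ce
    rw [e1, e2, opr_add, opr_add, hd]
  · unfold ce
    rw [Nat.sub_eq_zero_of_le h', opr_zero]

lemma ce_pull (p : ℕ → ℝ) (X y : ℕ) {f : Cf → ℝ} (hf : Dep y f) (g : Cf → ℝ) :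
    ce p X y (f * g) = f * ce p X y g := opr_pull p y _ hf g

lemma ce_dep (p : ℕ → ℝ) {X y x : ℕ} (h : y ≤ x) (h' : x ≤ X) {g : Cf → ℝ} (hg : Dep x g) :
    ce p X y g = opr p y (x - y) g := by
  obtain ⟨a, rfl⟩ := Nat.exists_eq_add_of_le h
  obtain ⟨b, rfl⟩ := Nat.exists_eq_add_of_le h'
  unfold ce
  rw [show y + a + b - y = a + b by omega, show y + a - y = a by omega, opr_add,
    opr_dep p _ _ hg]

/-- a past factor times a future factor, upper bound -/
lemma ce_mul_le {p : ℕ → ℝ} (hp : ∀ m, 0 ≤ p m ∧ p m ≤ 1) (X : ℕ) {y y' : ℕ} (h : y ≤ y')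
    {f g : Cf → ℝ} (hf : Dep y' f) (hf0 : ∀ ω, 0 ≤ f ω) {c : ℝ} (hg : ∀ ω, ce p X y' g ω ≤ c)
    (ω : Cf) : ce p X y (f * g) ω ≤ c * ce p X y f ω := by
  rw [ce_tower p X h, ce_pull p X y' hf]
  have h1 := ce_mono hp X y (g := f * ce p X y' g) (h := c • f) (fun ω => by
    simp only [Pi.mul_apply, Pi.smul_apply, smul_eq_mul]
    rw [mul_comm c]
    exact mul_le_mul_of_nonneg_left (hg ω) (hf0 ω)) ω
  rwa [map_smul] at h1

lemma le_ce_mul {p : ℕ → ℝ} (hp : ∀ m, 0 ≤ p m ∧ p m ≤ 1) (X : ℕ) {y y' : ℕ} (h : y ≤ y')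
    {f g : Cf → ℝ} (hf : Dep y' f) (hf0 : ∀ ω, 0 ≤ f ω) {c : ℝ} (hg : ∀ ω, c ≤ ce p X y' g ω)
    (ω : Cf) : c * ce p X y f ω ≤ ce p X y (f * g) ω := by
  rw [ce_tower p X h (f * g), ce_pull p X y' hf]
  have h1 := ce_mono hp X y (h := f * ce p X y' g) (g := c • f) (fun ω => by
    simp only [Pi.mul_apply, Pi.smul_apply, smul_eq_mul]
    rw [mul_comm c]
    exact mul_le_mul_of_nonneg_left (hg ω) (hf0 ω)) ω
  rwa [map_smul] at h1

/-- number of successes below `x` -/
def cnt (x : ℕ) (ω : Cf) : ℕ := Nat.count (fun m => ω m = true) x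

lemma cnt_congr {x : ℕ} {ω ω' : Cf} (H : ∀ m < x, ω m = ω' m) : cnt x ω = cnt x ω' := by
  unfold cnt
  induction x with
  | zero => rfl
  | succ x ih => rw [Nat.count_succ, Nat.count_succ, ih fun m hm => H m (by omega), H x (by omega)]

lemma cnt_upd (x : ℕ) (ω : Cf) (b : Bool) :
    cnt (x + 1) (update ω x b) = cnt x ω + if b = true then 1 else 0 := by
  have h := cnt_congr (x := x) (ω := update ω x b) (ω' := ω) fun m hm =>
    update_of_ne (by omega) _ _
  unfold cnt at *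
  rw [Nat.count_succ, h, update_self]

/-- the generating function of the number of successes in `[y, x)` -/
noncomputable def gf (p : ℕ → ℝ) (y x : ℕ) (z : ℂ) : ℂ := ∏ m ∈ Ico y x, (1 + p m * (z - 1))

lemma opr_char (p : ℕ → ℝ) (y l : ℕ) (z c : ℂ) (ω : Cf) :
    opr p y l (fun ω => (c * z ^ cnt (y + l) ω).re) ω =
      (c * z ^ cnt y ω * gf p y (y + l) z).re := by
  induction l generalizing c with
  | zero => simp [opr_zero, gf]
  | succ l ih =>
    have h1 : av p (y + l) (fun ω => (c * z ^ cnt (y + (l + 1)) ω).re) =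
        fun ω => (c * (1 + p (y + l) * (z - 1)) * z ^ cnt (y + l) ω).re := by
      funext ω
      rw [av_apply, ← add_assoc, cnt_upd, cnt_upd, ← Complex.re_ofReal_mul,
        ← Complex.re_ofReal_mul, ← Complex.add_re]
      congr 1
      simp only [Bool.false_eq_true, if_false, if_true, add_zero, pow_succ]
      push_cast
      ring
    rw [opr_succ, h1, ih]
    congr 1
    unfold gf
    rw [← add_assoc, prod_Ico_succ_top (Nat.le_add_right y l)]
    ring

lemma ce_char (p : ℕ → ℝ) {X y x : ℕ} (h : y ≤ x) (h' : x ≤ X) (z c : ℂ) (ω : Cf) :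
    ce p X y (fun ω => (c * z ^ cnt x ω).re) ω = (c * z ^ cnt y ω * gf p y x z).re := by
  rw [ce_dep p h h' fun ω ω' H => by simp only [cnt_congr H]]
  obtain ⟨a, rfl⟩ := Nat.exists_eq_add_of_le h
  rw [Nat.add_sub_cancel_left, opr_char]

/-- indicator of `q ∣ cnt x` -/
noncomputable def hit (q x : ℕ) : Cf → ℝ := fun ω => if q ∣ cnt x ω then 1 else 0

lemma hit_dep (q x : ℕ) : Dep x (hit q x) := fun ω ω' H => by simp only [hit, cnt_congr H]

lemma hit_nonneg (q x : ℕ) (ω : Cf) : 0 ≤ hit q x ω := by unfold hit; split_ifs <;> norm_num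

lemma hit_le_one (q x : ℕ) (ω : Cf) : hit q x ω ≤ 1 := by unfold hit; split_ifs <;> norm_num

lemma hit_eq {q : ℕ} (hq : q ≠ 0) (x : ℕ) : hit q x = ∑ t ∈ range q,
    fun ω => ((q : ℂ)⁻¹ * (Complex.exp (2 * Real.pi * Complex.I / q) ^ t) ^ cnt x ω).re := by
  funext ω
  have hζ := Complex.isPrimitiveRoot_exp q hq
  set ζ := Complex.exp (2 * Real.pi * Complex.I / q)
  rw [Finset.sum_apply, ← Complex.re_sum, ← mul_sum]
  simp only [← pow_mul, mul_comm _ (cnt x ω)]
  simp only [pow_mul]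
  have hq' : (q : ℂ) ≠ 0 := by exact_mod_cast hq
  unfold hit
  split_ifs with h
  · rw [(hζ.pow_eq_one_iff_dvd _).2 h]
    simp [hq']
  · rw [geom_sum_eq (fun h1 => h ((hζ.pow_eq_one_iff_dvd _).1 h1)), ← pow_mul, mul_comm _ q,
      pow_mul, hζ.pow_eq_one]
    simp

/-- The Fourier bound. -/
lemma four_bound (p : ℕ → ℝ) {q : ℕ} (hq : q ≠ 0) {X y : ℕ} (S : Finset ℕ) (x : ℕ → ℕ)
    (hx : ∀ k ∈ S, y ≤ x k ∧ x k ≤ X) (b : ℕ → ℝ) (hb0 : ∀ s, 0 ≤ b s)
    (hb : ∀ (s : ℕ) (α : ℝ), 1 ≤ s → 2 * s ≤ q → |α| = 2 * Real.pi * s / q →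
      ‖∑ k ∈ S, gf p y (x k) (Complex.exp (α * Complex.I))‖ ≤ b s) (ω : Cf) :
    |∑ k ∈ S, ce p X y (hit q (x k)) ω - S.card / q| ≤ 2 / q * ∑ s ∈ Ico 1 q, b s := by
  set ζ := Complex.exp (2 * Real.pi * Complex.I / q) with hζ
  have hq0 : (0 : ℝ) < q := by exact_mod_cast Nat.pos_of_ne_zero hq
  have hq' : (q : ℂ) ≠ 0 := by exact_mod_cast hq
  have h1 : ∑ k ∈ S, ce p X y (hit q (x k)) ω = ∑ t ∈ range q,
      ((q : ℂ)⁻¹ * (ζ ^ t) ^ cnt y ω * ∑ k ∈ S, gf p y (x k) (ζ ^ t)).re := by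
    simp only [mul_sum, Complex.re_sum]
    rw [sum_comm]
    refine sum_congr rfl fun k hk => ?_
    rw [hit_eq hq, map_sum, Finset.sum_apply]
    exact sum_congr rfl fun t _ => ce_char p (hx k hk).1 (hx k hk).2 _ _ _
  rw [h1, range_eq_Ico, sum_eq_sum_Ico_succ_bot (Nat.pos_of_ne_zero hq)]
  have h2 : ((q : ℂ)⁻¹ * (ζ ^ 0) ^ cnt y ω * ∑ k ∈ S, gf p y (x k) (ζ ^ 0)).re = S.card / q := by
    simp only [pow_zero, one_pow, mul_one, gf, sub_self, mul_zero, add_zero, prod_const_one,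
      sum_const, nsmul_eq_mul]
    rw [← Complex.ofReal_natCast, ← Complex.ofReal_natCast, ← Complex.ofReal_inv,
      ← Complex.ofReal_mul, Complex.ofReal_re]
    field_simp
  rw [h2, add_sub_cancel_left, zero_add]
  have hz : ∀ t : ℕ, ζ ^ t = Complex.exp ((2 * Real.pi * t / q : ℝ) * Complex.I) := fun t => by
    rw [hζ, ← Complex.exp_nat_mul]; congr 1; push_cast; ring
  have h3 : ∀ t ∈ Ico 1 q, ‖∑ k ∈ S, gf p y (x k) (ζ ^ t)‖ ≤ b t + b (q - t) := by
    intro t ht
    rw [mem_Ico] at ht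
    rcases le_total (2 * t) q with h | h
    · rw [hz]
      exact (hb t _ ht.1 h (abs_of_nonneg (by positivity))).trans (le_add_of_nonneg_right (hb0 _))
    · have h4 : ζ ^ t = Complex.exp ((-(2 * Real.pi * (q - t : ℕ) / q) : ℝ) * Complex.I) := by
        rw [hz, ← Complex.exp_periodic (((-(2 * Real.pi * (q - t : ℕ) / q) : ℝ) : ℂ) * Complex.I)]
        congr 1
        rw [Nat.cast_sub ht.2.le]
        push_cast
        field_simp
        ring
      rw [h4]
      exact (hb (q - t) _ (by omega) (by omega)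
        (by rw [abs_neg]; exact abs_of_nonneg (by positivity))).trans
        (le_add_of_nonneg_left (hb0 _))
  calc _ ≤ ∑ t ∈ Ico 1 q, (q : ℝ)⁻¹ * (b t + b (q - t)) := by
        refine (abs_sum_le_sum_abs _ _).trans (sum_le_sum fun t ht => ?_)
        refine (Complex.abs_re_le_norm _).trans ?_
        rw [norm_mul, norm_mul, norm_inv, Complex.norm_natCast, norm_pow, hz,
          Complex.norm_exp_ofReal_mul_I, one_pow, mul_one, ← hz]
        exact mul_le_mul_of_nonneg_left (h3 t ht) (by positivity)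
    _ = _ := by
        rw [← mul_sum, sum_add_distrib]
        have h5 : ∑ t ∈ Ico 1 q, b (q - t) = ∑ t ∈ Ico 1 q, b t := by
          rw [sum_Ico_reflect b 1 (Nat.le_succ q)]
          congr 2; omega
        rw [h5]
        field_simp
        ring

end P52
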