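import Pool.Agent.Lib.P52.R9

/-!
The almost sure limit of the number of `n` with no hit up to `KK a n`.
-/

set_option autoImplicit false

namespace P52

open Finset Filter MeasureTheory ProbabilityTheory Function Topology

/-- the scale at which the iterated logarithm equals `t` -/
noncomputable def MM (t : ℕ) : ℕ := ⌊Real.exp (Real.exp t)⌋₊

lemma MM_mono : Monotone MM := fun _ _ h =>
  Nat.floor_le_floor (Real.exp_le_exp.2 (Real.exp_le_exp.2 (Nat.cast_le.2 h)))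

lemma MM_top : Tendsto MM atTop atTop := tendsto_nat_floor_atTop.comp
  (Real.tendsto_exp_atTop.comp (Real.tendsto_exp_atTop.comp tendsto_natCast_atTop_atTop))

lemma loglog_top : Tendsto (fun N : ℕ => Real.log (Real.log N)) atTop atTop :=
  Real.tendsto_log_atTop.comp (Real.tendsto_log_atTop.comp tendsto_natCast_atTop_atTop)

lemma sq_top : Tendsto (fun j : ℕ => j ^ 2) atTop atTop := tendsto_pow_atTop two_ne_zero

lemma interp {z : ℕ → ℝ} (hz : Monotone z) (h0 : ∀ N, 0 ≤ z N) {l : ℝ}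
    (h : Tendsto (fun j : ℕ => z (MM (j ^ 2)) / (j ^ 2 : ℕ)) atTop (𝓝 l)) :
    Tendsto (fun N : ℕ => z N / Real.log (Real.log N)) atTop (𝓝 l) := by
  have hw : Tendsto (fun t : ℕ => z (MM t) / t) atTop (𝓝 l) := by
    refine tendsto_div_of_monotone_of_exists_subseq_tendsto_div (fun t => z (MM t)) l
      (hz.comp MM_mono) fun a ha => ⟨fun j => j ^ 2, ?_, sq_top, h⟩
    filter_upwards [tendsto_natCast_atTop_atTop.eventually_ge_atTop (3 / (a - 1)),
      tendsto_natCast_atTop_atTop.eventually_ge_atTop (1 : ℝ)] with j h1 h2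
    rw [div_le_iff₀ (by linarith)] at h1
    push_cast
    nlinarith
  have hτ := tendsto_nat_floor_atTop.comp loglog_top
  have hr := tendsto_natCast_div_add_atTop (1 : ℝ)
  have lo := (hw.mul hr).comp hτ
  have hi := ((hw.comp (tendsto_add_atTop_nat 1)).div hr one_ne_zero).comp hτ
  rw [mul_one] at lo
  rw [div_one] at hi
  have ev : ∀ᶠ N : ℕ in atTop, 1 ≤ Real.log (Real.log N) ∧ 8 ≤ N :=
    (loglog_top.eventually_ge_atTop 1).and (eventually_ge_atTop 8)
  have key : ∀ᶠ N : ℕ in atTop, ∀ t, t = ⌊Real.log (Real.log N)⌋₊ →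
      z (MM t) / t * (t / (t + 1)) ≤ z N / Real.log (Real.log N) ∧
      z N / Real.log (Real.log N) ≤ z (MM (t + 1)) / (t + 1 : ℕ) / (t / (t + 1)) := by
    filter_upwards [ev] with N ⟨h1, h2⟩ t ht
    have h3 := two_le_log h2
    have h4 : (0 : ℝ) < N := by exact_mod_cast (by omega : 0 < N)
    have h5 := Nat.floor_le (zero_le_one.trans h1)
    have h6 := Nat.lt_floor_add_one (Real.log (Real.log N))
    have h7 : (1 : ℝ) ≤ ⌊Real.log (Real.log N)⌋₊ := by
      exact_mod_cast Nat.le_floor (by simpa using h1)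
    rw [← ht] at h5 h6 h7
    have h8 : MM t ≤ N := Nat.floor_le_of_le (by
      rwa [← Real.le_log_iff_exp_le h4, ← Real.le_log_iff_exp_le (by linarith)])
    have h9 : N ≤ MM (t + 1) := Nat.le_floor (by
      rw [← Real.log_le_iff_le_exp h4, ← Real.log_le_iff_le_exp (by linarith)]
      push_cast; exact h6.le)
    push_cast
    rw [div_mul_div_cancel₀ (by linarith), div_div_div_cancel_right₀ (by linarith)]
    exact ⟨div_le_div₀ (h0 _) (hz h8) (by linarith) h6.le,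
      div_le_div₀ (h0 _) (hz h9) (by linarith) h5⟩
  exact tendsto_of_tendsto_of_tendsto_of_le_of_le' lo hi (key.mono fun N h => (h _ rfl).1)
    (key.mono fun N h => (h _ rfl).2)

lemma vsum_bd (a : ℝ) {m t : ℕ} (hm : 8 ≤ m) (ht : m ≤ MM t) :
    Real.exp (-a) * (t - Real.log (Real.log (m + 1 : ℕ))) ≤ ∑ n ∈ Ioc m (MM t), vv a n ∧
    ∑ n ∈ Ioc m (MM t), vv a n ≤ Real.exp (-a) * t := by
  obtain ⟨h1, h2⟩ := sum_uu hm ht
  have e : ∑ n ∈ Ioc m (MM t), vv a n =
      Real.exp (-a) * ∑ n ∈ Ioc m (MM t), 1 / (n * Real.log n) := by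
    rw [mul_sum]; exact sum_congr rfl fun n _ => by rw [mul_one_div]; rfl
  have h3 := two_le_log (hm.trans ht)
  have h4 := two_le_log (m := MM t + 1) (by omega)
  have h5 : (0 : ℝ) < MM t := by exact_mod_cast (by omega : 0 < MM t)
  have h6 : Real.log (Real.log (MM t)) ≤ t := by
    rw [Real.log_le_iff_le_exp (by linarith), Real.log_le_iff_le_exp h5]
    exact Nat.floor_le (Real.exp_pos _).le
  have h7 : t ≤ Real.log (Real.log (MM t + 1 : ℕ)) := by
    rw [Real.le_log_iff_exp_le (by linarith), Real.le_log_iff_exp_le (by positivity)]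
    push_cast
    exact (Nat.lt_floor_add_one _).le
  have h8 := Real.log_nonneg (one_le_two.trans (two_le_log hm))
  rw [e]
  exact ⟨mul_le_mul_of_nonneg_left (by linarith) (Real.exp_pos _).le,
    mul_le_mul_of_nonneg_left (by linarith) (Real.exp_pos _).le⟩

lemma Z_var {Ω : Type*} [MeasurableSpace Ω] {P : Measure Ω} [IsProbabilityMeasure P]
    {A : ℕ → Set Ω} (hm : ∀ m, MeasurableSet (A m)) (hi : iIndepSet A P)
    (hp : Cr fun m => P.real (A m)) {a : ℝ} (ha : -2 ≤ a ∧ a ≤ 0) {m : ℕ}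
    (hall : ∀ q, m ≤ q → Big q) (N : ℕ) {s : ℝ} (h1 : 1 ≤ s)
    (h2 : ∑ n ∈ Ioc m N, vv a n ≤ Real.exp (-a) * s) :
    Integrable (fun ω => (∑ n ∈ Ioc m N, FF a n (cfg A ω) - ∑ n ∈ Ioc m N, vv a n) ^ 2 / s ^ 2) P ∧
    ∫ ω, (∑ n ∈ Ioc m N, FF a n (cfg A ω) - ∑ n ∈ Ioc m N, vv a n) ^ 2 / s ^ 2 ∂P ≤
      5000 * (Real.exp (-a) + 1) * (1 / s) := by
  have hd : Dep (KK a N * N + 1)
      fun ω => (∑ n ∈ Ioc m N, FF a n ω - ∑ n ∈ Ioc m N, vv a n) ^ 2 := fun ω ω' H => by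
    have : ∑ n ∈ Ioc m N, FF a n ω = ∑ n ∈ Ioc m N, FF a n ω' := sum_congr rfl fun n hn =>
      surv_dep (Nat.succ_le_succ (KK_mono ha (hall n (mem_Ioc.1 hn).1.le) (mem_Ioc.1 hn).2))
        ω ω' H
    simp only [this]
  obtain ⟨k1, k2⟩ := link hm hi hd fun _ => true
  refine ⟨k1.div_const _, ?_⟩
  rw [integral_div, k2, div_le_iff₀ (by positivity)]
  refine (var_le hp ha hall le_rfl _).trans ?_
  have : 5000 * (Real.exp (-a) + 1) * (1 / s) * s ^ 2 = 5000 * (Real.exp (-a) * s + s) := by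
    field_simp
  linarith

theorem Z_lim {Ω : Type*} [MeasurableSpace Ω] {P : Measure Ω} [IsProbabilityMeasure P]
    {A : ℕ → Set Ω} (hm : ∀ m, MeasurableSet (A m)) (hi : iIndepSet A P)
    (hp : Cr fun m => P.real (A m)) {a : ℝ} (ha : -2 ≤ a ∧ a ≤ 0) {m : ℕ} (h8 : 8 ≤ m)
    (hall : ∀ q, m ≤ q → Big q) : ∀ᵐ ω ∂P, Tendsto (fun N : ℕ =>
      (∑ n ∈ Ioc m N, FF a n (cfg A ω)) / Real.log (Real.log N)) atTop (𝓝 (Real.exp (-a))) := by
  have ev : ∀ᶠ j : ℕ in atTop, m ≤ MM (j ^ 2) ∧ (1 : ℝ) ≤ (j ^ 2 : ℕ) :=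
    sq_top.eventually (p := fun t => m ≤ MM t ∧ (1 : ℝ) ≤ t) ((MM_top.eventually_ge_atTop m).and
      (tendsto_natCast_atTop_atTop.eventually_ge_atTop 1))
  have hb : Summable fun j : ℕ => 5000 * (Real.exp (-a) + 1) * (1 / ((j ^ 2 : ℕ) : ℝ)) := by
    simp only [Nat.cast_pow]
    exact (Real.summable_one_div_nat_pow.2 one_lt_two).mul_left _
  have h1 := ae_zero (P := P) (f := fun j ω => (∑ n ∈ Ioc m (MM (j ^ 2)), FF a n (cfg A ω) -
      ∑ n ∈ Ioc m (MM (j ^ 2)), vv a n) ^ 2 / (((j ^ 2 : ℕ) : ℝ)) ^ 2) hb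
    (fun j ω => div_nonneg (sq_nonneg _) (sq_nonneg _))
    (ev.mono fun j h => Z_var hm hi hp ha hall _ h.2 (vsum_bd a h8 h.1).2)
  have h2 : Tendsto (fun j : ℕ => (∑ n ∈ Ioc m (MM (j ^ 2)), vv a n) / (j ^ 2 : ℕ)) atTop
      (𝓝 (Real.exp (-a))) := by
    have u := ((tendsto_const_nhds (x := (1 : ℝ))).sub ((tendsto_const_div_atTop_nhds_zero_nat
      (Real.log (Real.log (m + 1 : ℕ)))).comp sq_top)).const_mul (Real.exp (-a))
    rw [sub_zero, mul_one] at u
    refine tendsto_of_tendsto_of_tendsto_of_le_of_le' u tendsto_const_nhds ?_ ?_ <;>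
      filter_upwards [ev] with j ⟨h1, h2⟩
    · rw [le_div_iff₀ (by linarith), mul_assoc, sub_mul, comp_apply,
        div_mul_cancel₀ _ (by linarith), one_mul]
      exact (vsum_bd a h8 h1).1
    · rw [div_le_iff₀ (by linarith)]
      exact (vsum_bd a h8 h1).2
  filter_upwards [h1] with ω h1
  refine interp (z := fun N => ∑ n ∈ Ioc m N, FF a n (cfg A ω)) (fun N N' h =>
    sum_le_sum_of_subset_of_nonneg (Ioc_subset_Ioc_right h) fun n _ _ => surv_nonneg _ _ _ _)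
    (fun N => sum_nonneg fun n _ => surv_nonneg _ _ _ _) ?_
  have h3 := h1.sqrt
  simp only [← div_pow, Real.sqrt_sq_eq_abs, Real.sqrt_zero] at h3
  have h4 := ((tendsto_zero_iff_abs_tendsto_zero _).2 h3).add h2
  rw [zero_add] at h4
  exact h4.congr fun j => by rw [← add_div, sub_add_cancel]

end P52
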