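import Pool.Agent.Lib.P52.R10

/-!
The number of exceptions in the random model.
-/

set_option autoImplicit false

namespace P52

open Finset Filter MeasureTheory ProbabilityTheory Function Topology

lemma sum_cmp {f g : ℕ → ℝ} (hf : ∀ n, f n ≤ 1) (hg : ∀ n, 0 ≤ g n) {n0 m' : ℕ}
    (h : ∀ n, n0 < n → f n ≤ g n) (hm : m' ≤ n0) (m N : ℕ) :
    ∑ n ∈ Ioc m N, f n ≤ n0 + ∑ n ∈ Ioc m' N, g n := by
  rw [← sum_filter_add_sum_filter_not _ fun n => n ≤ n0]
  refine add_le_add ((sum_le_card_nsmul _ _ 1 fun n _ => hf n).trans ?_)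
    ((sum_le_sum fun n hn => h n (not_le.1 (mem_filter.1 hn).2)).trans
      (sum_le_sum_of_subset_of_nonneg (fun n hn => ?_) fun n _ _ => hg n))
  · rw [nsmul_eq_mul, mul_one, Nat.cast_le]
    refine (card_le_card (t := Ioc 0 n0) fun n hn => ?_).trans_eq (by simp)
    simp only [mem_filter, mem_Ioc] at hn ⊢
    omega
  · simp only [mem_filter, mem_Ioc] at hn ⊢
    omega

/-- `n` is an exception -/
def Exc (σ : Cf) (n : ℕ) : Prop :=
  ¬ ∃ k, 1 ≤ k ∧ k < Nat.nth (fun m => σ m = true) (n - 1) ∧ n ∣ cnt (k * n + 1) σ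

open Classical in
/-- indicator of `Exc` -/
noncomputable def exc (σ : Cf) (n : ℕ) : ℝ := if Exc σ n then 1 else 0

lemma exc_bd (σ : Cf) (n : ℕ) : 0 ≤ exc σ n ∧ exc σ n ≤ 1 := by
  unfold exc; split_ifs <;> norm_num

lemma exc_le {σ : Cf} {n K : ℕ} (h : K < Nat.nth (fun m => σ m = true) (n - 1)) :
    exc σ n ≤ surv n 0 K σ := by
  unfold exc
  split_ifs with h1
  · exact (surv_of fun k hk h2 => h1 ⟨k, (mem_Ioc.1 hk).1, (mem_Ioc.1 hk).2.trans_lt h, h2⟩).ge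
  · exact surv_nonneg _ _ _ _

lemma le_exc {σ : Cf} {n K : ℕ} (h : Nat.nth (fun m => σ m = true) (n - 1) ≤ K) :
    surv n 0 K σ ≤ exc σ n := by
  by_cases h1 : Nh n 0 K σ
  · rw [surv_of h1]
    exact (if_pos fun ⟨k, h2, h3, h4⟩ => h1 k (mem_Ioc.2 ⟨h2, h3.le.trans h⟩) h4).ge
  · rw [surv_of_not h1]
    exact (exc_bd σ n).1

lemma window {σ : Cf} {K K' : ℕ → ℕ} (h : ∀ᶠ n in atTop, n ≤ cnt (K n + 1) σ)
    (h' : ∀ᶠ n in atTop, cnt (K' n + 1) σ < n) : ∀ᶠ n in atTop,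
    K' n < Nat.nth (fun m => σ m = true) (n - 1) ∧ Nat.nth (fun m => σ m = true) (n - 1) ≤ K n := by
  have hi : Set.Infinite {m | σ m = true} := fun hf => by
    obtain ⟨n, h1, h2⟩ := (h.and (eventually_gt_atTop hf.toFinset.card)).exists
    exact h2.not_ge (h1.trans (Nat.count_le_card hf _))
  filter_upwards [h, h'] with n h1 h2
  exact ⟨(Nat.count_le_iff_le_nth hi).1 (Nat.le_sub_one_of_lt h2),
    Nat.lt_succ_iff.1 (Nat.nth_lt_of_lt_count (lt_of_lt_of_le (by omega) h1))⟩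

section

variable {Ω : Type*} [MeasurableSpace Ω] {P : Measure Ω} [IsProbabilityMeasure P]
  {A : ℕ → Set Ω} (hm : ∀ m, MeasurableSet (A m)) (hi : iIndepSet A P)
include hm hi

lemma ae_not {x : ℕ → ℕ} {Q : ℕ → ℕ → Prop} [∀ n c, Decidable (Q n c)]
    (h : ∀ᶠ n : ℕ in atTop, ∀ σ, ce (fun m => P.real (A m)) (x n) 0
      (fun σ => if Q n (cnt (x n) σ) then 1 else 0) σ ≤ 1 / (n : ℝ) ^ 2) :
    ∀ᵐ ω ∂P, ∀ᶠ n in atTop, ¬ Q n (cnt (x n) (cfg A ω)) := by
  have h1 := ae_zero (P := P) (f := fun n ω => if Q n (cnt (x n) (cfg A ω)) then 1 else 0)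
    (Real.summable_one_div_nat_pow.2 one_lt_two) (fun n ω => by split_ifs <;> norm_num)
    (h.mono fun n hn => by
      obtain ⟨k1, k2⟩ := link hm hi (x := x n) (g := fun σ => if Q n (cnt (x n) σ) then 1 else 0)
        (fun σ σ' H => by simp only [cnt_congr H]) fun _ => true
      exact ⟨k1, k2.trans_le (hn _)⟩)
  filter_upwards [h1] with ω h1
  filter_upwards [h1.eventually_lt_const one_pos] with n h2 h3
  rw [if_pos h3] at h2
  exact lt_irrefl _ h2

theorem exc_lim (hp : Cr fun m => P.real (A m)) : ∀ᵐ ω ∂P, Tendsto (fun N : ℕ =>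
    (∑ n ∈ Ioc 0 N, exc (cfg A ω) n) / Real.log (Real.log N)) atTop (𝓝 (Real.exp 1)) := by
  obtain ⟨m0, h0⟩ := big_eventually
  have hall : ∀ q, m0 + 8 ≤ q → Big q := fun q hq => h0 q (by omega)
  have h8 : 8 ≤ m0 + 8 := by omega
  generalize m0 + 8 = m at hall h8
  have hd : ∀ j : ℕ, (0 : ℝ) < 1 / (j + 1) ∧ (1 : ℝ) / (j + 1) ≤ 1 := fun j =>
    ⟨by positivity, (div_le_one (by positivity)).2 (le_add_of_nonneg_left j.cast_nonneg)⟩
  filter_upwards [ae_all_iff.2 fun j => (ae_not hm hi (Q := fun n c => c < n)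
      (tail_lo hp (hd j).1 (hd j).2)).and (ae_not hm hi (Q := fun n c => n ≤ c)
      (tail_hi hp (hd j).1 (hd j).2)),
    ae_all_iff.2 fun j : ℕ => Z_lim hm hi hp (a := -1 + 1 / (j + 1))
      ⟨by linarith [(hd j).1], by linarith [(hd j).2]⟩ h8 hall,
    ae_all_iff.2 fun j : ℕ => Z_lim hm hi hp (a := -1 - 1 / (j + 1))
      ⟨by linarith [(hd j).2], by linarith [(hd j).1]⟩ h8 hall] with ω h1 h2 h3
  generalize cfg A ω = σ at *
  have hw : ∀ j : ℕ, ∃ n0, m ≤ n0 ∧ ∀ n, n0 < n →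
      KK (-1 - 1 / (j + 1)) n < Nat.nth (fun m => σ m = true) (n - 1) ∧
      Nat.nth (fun m => σ m = true) (n - 1) ≤ KK (-1 + 1 / (j + 1)) n := fun j => by
    obtain ⟨n0, h⟩ := eventually_atTop.1 (window ((h1 j).1.mono fun n => not_lt.1)
      ((h1 j).2.mono fun n => not_le.1))
    exact ⟨n0 + m, by omega, fun n hn => h n (by omega)⟩
  have t0 := tendsto_one_div_add_atTop_nhds_zero_nat (𝕜 := ℝ)
  have hc : ∀ c : ℝ, Tendsto (fun N : ℕ => c / Real.log (Real.log N)) atTop (𝓝 0) :=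
    fun c => tendsto_const_nhds.div_atTop loglog_top
  refine tendsto_order.2 ⟨fun b hb => ?_, fun b hb => ?_⟩
  · have t1 := (t0.const_add (-1)).neg.rexp
    rw [add_zero, neg_neg] at t1
    obtain ⟨j, hj⟩ := (t1.eventually_const_lt hb).exists
    obtain ⟨n0, k1, k2⟩ := hw j
    filter_upwards [((h2 j).sub (hc n0)).eventually_const_lt (by rwa [sub_zero]),
      loglog_top.eventually_ge_atTop 0] with N k3 k4
    rw [← sub_div] at k3
    refine k3.trans_le (div_le_div_of_nonneg_right (sub_le_iff_le_add'.2 ?_) k4)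
    exact sum_cmp (fun n => surv_le_one _ _ _ _) (fun n => (exc_bd σ n).1)
      (fun n hn => le_exc (k2 n hn).2) (Nat.zero_le _) m N
  · have t1 := (t0.const_sub (-1)).neg.rexp
    rw [sub_zero, neg_neg] at t1
    obtain ⟨j, hj⟩ := (t1.eventually_lt_const hb).exists
    obtain ⟨n0, k1, k2⟩ := hw j
    filter_upwards [((hc n0).add (h3 j)).eventually_lt_const (by rwa [zero_add]),
      loglog_top.eventually_ge_atTop 0] with N k3 k4
    rw [← add_div] at k3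
    refine (div_le_div_of_nonneg_right ?_ k4).trans_lt k3
    exact sum_cmp (fun n => (exc_bd σ n).2) (fun n => surv_nonneg _ _ _ _)
      (fun n hn => exc_le (k2 n hn).1) k1 0 N

theorem cramer (hp : ∀ m, 3 ≤ m → P.real (A m) = 1 / Real.log m) : ∀ᵐ ω ∂P, Tendsto (fun N : ℕ =>
    ({n | 1 ≤ n ∧ n ≤ N ∧ ¬ ∃ k, 1 ≤ k ∧ k < Nat.nth (fun m => ω ∈ A m) (n - 1) ∧
      n ∣ {m | m ≤ k * n ∧ ω ∈ A m}.ncard}.ncard : ℝ) / Real.log (Real.log N)) atTop
    (𝓝 (Real.exp 1)) := by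
  classical
  filter_upwards [exc_lim hm hi ⟨fun m => ⟨measureReal_nonneg, measureReal_le_one⟩, hp⟩] with ω h
  refine h.congr fun N => congrArg (· / _) ?_
  have e1 : ∀ x, {m | m ≤ x ∧ ω ∈ A m}.ncard = cnt (x + 1) (cfg A ω) := fun x => by
    rw [cnt, Nat.count_eq_card_filter_range, ← Set.ncard_coe_finset]
    exact congrArg _ (Set.ext fun m => by simp [cfg_true])
  simp only [e1, exc, Exc, cfg_true, sum_boole, ← Set.ncard_coe_finset]
  exact congrArg _ (congrArg _ (Set.ext fun n => by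
    simp [and_assoc, Nat.one_le_iff_ne_zero, Nat.pos_iff_ne_zero]))

end

end P52
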