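import Pool.Agent.Lib.P52.R1

/-!
Elementary estimates: damping of the generating function, Abel summation with a regularised
inverse, counting of resonant indices, anti-concentration.
-/

set_option autoImplicit false

namespace P52

open Finset Complex
open scoped Real

/-- the probabilities of the model -/
structure Cr (p : ℕ → ℝ) : Prop where
  mem : ∀ m, 0 ≤ p m ∧ p m ≤ 1
  eq : ∀ m, 3 ≤ m → p m = 1 / Real.log m

lemma normSq_factor (p α : ℝ) :
    ‖1 + (p : ℂ) * (exp (α * I) - 1)‖ ^ 2 = 1 - 2 * p * (1 - p) * (1 - Real.cos α) := by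
  rw [← normSq_eq_norm_sq, normSq_apply]
  simp only [add_re, one_re, mul_re, ofReal_re, sub_re, exp_ofReal_mul_I_re, ofReal_im, sub_im,
    exp_ofReal_mul_I_im, one_im, add_im, mul_im]
  linear_combination p ^ 2 * Real.sin_sq_add_cos_sq α

lemma factor_le_one {p : ℝ} (h : 0 ≤ p ∧ p ≤ 1) (α : ℝ) :
    ‖1 + (p : ℂ) * (exp (α * I) - 1)‖ ≤ 1 := by
  refine le_of_sq_le_sq (b := 1) ?_ zero_le_one
  rw [normSq_factor]
  have := Real.cos_le_one α
  have h1 : 0 ≤ 2 * p * (1 - p) * (1 - Real.cos α) :=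
    mul_nonneg (mul_nonneg (by linarith [h.1]) (by linarith [h.2])) (by linarith)
  linarith

lemma factor_damp {p α : ℝ} (h0 : 0 ≤ p) (h1 : p ≤ 1 / 2) (hα : |α| ≤ π) :
    ‖1 + (p : ℂ) * (exp (α * I) - 1)‖ ≤ Real.exp (-(p * (α ^ 2 / π ^ 2))) := by
  refine le_of_sq_le_sq ?_ (Real.exp_pos _).le
  rw [normSq_factor, ← Real.exp_nat_mul]
  refine le_trans ?_ (Real.add_one_le_exp _)
  have h2 := Real.cos_le_one_sub_mul_cos_sq hα
  have h3 : 2 / π ^ 2 * α ^ 2 = 2 * (α ^ 2 / π ^ 2) := by ring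
  have h4 : 0 ≤ α ^ 2 / π ^ 2 := by positivity
  rw [h3] at h2
  push_cast
  nlinarith [mul_nonneg h0 h4, mul_nonneg (mul_nonneg h0 (show 0 ≤ 1 - 2 * p by linarith))
    (show 0 ≤ 1 - Real.cos α by linarith),
    mul_nonneg h0 (show 0 ≤ 1 - Real.cos α - 2 * (α ^ 2 / π ^ 2) by linarith)]

lemma gf_le_one {p : ℕ → ℝ} (hp : Cr p) (y x : ℕ) (α : ℝ) : ‖gf p y x (exp (α * I))‖ ≤ 1 := by
  unfold gf
  rw [norm_prod]
  exact prod_le_one (fun _ _ => norm_nonneg _) fun m _ => factor_le_one (hp.mem m) α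

lemma gf_mul (p : ℕ → ℝ) {y x w : ℕ} (h : y ≤ x) (h' : x ≤ w) (z : ℂ) :
    gf p y x z * gf p x w z = gf p y w z := prod_Ico_consecutive _ h h'

lemma two_le_log {m : ℕ} (h : 8 ≤ m) : 2 ≤ Real.log m := by
  have h1 : Real.log ((2 : ℝ) ^ 3) ≤ Real.log m :=
    Real.log_le_log (by norm_num) (by exact_mod_cast h)
  rw [Real.log_pow] at h1
  have := Real.log_two_gt_d9
  push_cast at h1
  linarith

lemma gf_damp {p : ℕ → ℝ} (hp : Cr p) {y d : ℕ} (hy : 8 ≤ y) {Λ α : ℝ}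
    (hΛ : Real.log (y + d : ℕ) ≤ Λ) (hα : |α| ≤ π) :
    ‖gf p y (y + d) (exp (α * I))‖ ≤ Real.exp (-(d * (α ^ 2 / π ^ 2 / Λ))) := by
  unfold gf
  rw [norm_prod]
  calc _ ≤ ∏ m ∈ Ico y (y + d), Real.exp (-(α ^ 2 / π ^ 2 / Λ)) := by
        refine prod_le_prod (fun _ _ => norm_nonneg _) fun m hm => ?_
        rw [mem_Ico] at hm
        have h2 := two_le_log (m := m) (by omega)
        have h3 : Real.log m ≤ Λ := le_trans (Real.log_le_log (by
          exact_mod_cast (by omega : 0 < m)) (by exact_mod_cast hm.2.le)) hΛ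
        have h4 := hp.eq m (by omega)
        refine (factor_damp (hp.mem m).1 ?_ hα).trans (Real.exp_le_exp.2 (neg_le_neg ?_))
        · rw [h4]; exact one_div_le_one_div_of_le two_pos h2
        · rw [h4, one_div_mul_eq_div]
          exact div_le_div_of_nonneg_left (by positivity) (by linarith) h3
    _ = _ := by
        rw [prod_const, Nat.card_Ico, Nat.add_sub_cancel_left, ← Real.exp_nat_mul, mul_neg]

lemma geo_le {a : ℝ} (ha : 0 < a) (n : ℕ) : ∑ j ∈ Ico 1 n, Real.exp (-(j * a)) ≤ 1 / a := by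
  have h : ∀ n : ℕ, a * ∑ j ∈ Ico 1 (n + 1), Real.exp (-(j * a)) ≤ 1 - Real.exp (-(n * a)) := by
    intro n
    induction n with
    | zero => simp
    | succ n ih =>
      rw [sum_Ico_succ_top (by omega), mul_add]
      have h1 : Real.exp (-(n * a)) = Real.exp a * Real.exp (-((n + 1 : ℕ) * a)) := by
        rw [← Real.exp_add]; push_cast; ring_nf
      have h2 := mul_le_mul_of_nonneg_right (Real.add_one_le_exp a)
        (Real.exp_pos (-((n + 1 : ℕ) * a))).le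
      linarith
  rw [le_div_iff₀ ha, mul_comm]
  rcases n with _ | n
  · simp
  · linarith [h n, Real.exp_pos (-(n * a))]

/-- Anti-concentration. -/
lemma anti {p : ℕ → ℝ} (hp : Cr p) {q X y x : ℕ} (hq : q ≠ 0) (hy : 8 ≤ y) (hyx : y ≤ x)
    (hX : x ≤ X) {Λ R : ℝ} (hR : 0 < R) (hΛ : Real.log x ≤ Λ) (hd : y + Λ * R ^ 2 ≤ x) (ω : Cf) :
    ce p X y (hit q x) ω ≤ 1 / q + 2 / R := by
  obtain ⟨d, rfl⟩ := Nat.exists_eq_add_of_le hyx
  have hq0 : (0 : ℝ) < q := by exact_mod_cast Nat.pos_of_ne_zero hq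
  have hΛ0 : 0 < Λ := by linarith [two_le_log (m := y + d) (by omega)]
  have hd' : Λ * R ^ 2 ≤ d := by push_cast at hd; linarith
  have h := four_bound p hq (X := X) (y := y) {0} (fun _ => y + d) (fun _ _ => ⟨hyx, hX⟩)
    (fun s => Real.exp 1 * Real.exp (-(s * (4 * R / q)))) (fun _ => by positivity)
    (fun s α h1 h2 h3 => by
      have h4 : (2 : ℝ) * s ≤ q := by exact_mod_cast h2
      rw [sum_singleton, ← Real.exp_add]
      refine (gf_damp hp hy hΛ ?_).trans (Real.exp_le_exp.2 ?_)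
      · rw [h3, div_le_iff₀ hq0]; nlinarith [Real.pi_pos]
      · have h5 : α ^ 2 / π ^ 2 = (2 * s / q) ^ 2 := by
          rw [← sq_abs α, h3]; field_simp
        have h6 : R ^ 2 * (2 * s / q) ^ 2 ≤ d * ((2 * s / q) ^ 2 / Λ) := by
          rw [← mul_div_assoc, le_div_iff₀ hΛ0]
          nlinarith [sq_nonneg ((2 : ℝ) * s / q)]
        rw [h5]
        have h7 : (s : ℝ) * (4 * R / q) = 2 * (R * (2 * s / q)) := by ring
        rw [h7]
        nlinarith [sq_nonneg (R * (2 * s / q) - 1)]) ω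
  rw [sum_singleton, card_singleton, Nat.cast_one, ← mul_sum] at h
  have h1 := geo_le (a := 4 * R / q) (by positivity) q
  have h2 : 2 / (q : ℝ) * (Real.exp 1 * ∑ j ∈ Ico 1 q, Real.exp (-(j * (4 * R / q)))) ≤
      2 / q * (4 * (1 / (4 * R / q))) :=
    mul_le_mul_of_nonneg_left (mul_le_mul (by linarith [Real.exp_one_lt_d9]) h1
      (sum_nonneg fun _ _ => (Real.exp_pos _).le) (by norm_num)) (by positivity)
  have h3 : 2 / (q : ℝ) * (4 * (1 / (4 * R / q))) = 2 / R := by field_simp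
  linarith [(abs_le.1 h).2]

lemma prod_sub_prod_le {s : Finset ℕ} {a b : ℕ → ℂ} (ha : ∀ m ∈ s, ‖a m‖ ≤ 1)
    (hb : ∀ m ∈ s, ‖b m‖ ≤ 1) : ‖∏ m ∈ s, a m - ∏ m ∈ s, b m‖ ≤ ∑ m ∈ s, ‖a m - b m‖ := by
  induction s using Finset.induction_on with
  | empty => simp
  | insert j s hj ih =>
    rw [prod_insert hj, prod_insert hj, sum_insert hj]
    have h1 := ih (fun m hm => ha m (mem_insert_of_mem hm)) fun m hm => hb m (mem_insert_of_mem hm)
    have h2 : ‖∏ m ∈ s, a m‖ ≤ 1 := by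
      rw [norm_prod]
      exact prod_le_one (fun _ _ => norm_nonneg _) fun m hm => ha m (mem_insert_of_mem hm)
    have h3 := hb j (mem_insert_self _ _)
    rw [show a j * ∏ m ∈ s, a m - b j * ∏ m ∈ s, b m =
      (a j - b j) * ∏ m ∈ s, a m + b j * (∏ m ∈ s, a m - ∏ m ∈ s, b m) by ring]
    refine (norm_add_le _ _).trans (add_le_add ?_ ?_)
    · rw [norm_mul]; exact mul_le_of_le_one_right (norm_nonneg _) h2
    · rw [norm_mul]; exact (mul_le_of_le_one_left (norm_nonneg _) h3).trans h1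

/-- regularised inverse -/
noncomputable def rinv (η : ℝ) (w : ℂ) : ℂ := (starRingEnd ℂ) w / ((‖w‖ ^ 2 + η ^ 2 : ℝ) : ℂ)

lemma rinv_le {η : ℝ} (hη : 0 < η) (w : ℂ) : ‖rinv η w‖ ≤ 1 / (2 * η) := by
  unfold rinv
  rw [norm_div, RCLike.norm_conj, norm_real, Real.norm_of_nonneg (by positivity),
    div_le_div_iff₀ (by positivity) (by positivity)]
  nlinarith [sq_nonneg (‖w‖ - η)]

lemma rinv_mul {η : ℝ} (hη : 0 < η) (w : ℂ) :
    1 - rinv η w * w = ((η ^ 2 / (‖w‖ ^ 2 + η ^ 2) : ℝ) : ℂ) := by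
  have h : ((‖w‖ ^ 2 + η ^ 2 : ℝ) : ℂ) ≠ 0 := ofReal_ne_zero.2 (by positivity)
  unfold rinv
  rw [div_mul_eq_mul_div, conj_mul', ofReal_div, eq_div_iff h, sub_mul, div_mul_cancel₀ _ h]
  push_cast
  ring

lemma rinv_lip {η : ℝ} (hη : 0 < η) (z w : ℂ) :
    ‖rinv η z - rinv η w‖ ≤ 3 / η ^ 2 * ‖z - w‖ := by
  set A := ‖z‖ ^ 2 + η ^ 2 with hA
  set B := ‖w‖ ^ 2 + η ^ 2 with hB
  have hA0 : 0 < A := by positivity
  have hB0 : 0 < B := by positivity
  have h1 : rinv η z - rinv η w = (starRingEnd ℂ) (z - w) / (A : ℂ) +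
      (starRingEnd ℂ) w * (((B - A) / (A * B) : ℝ) : ℂ) := by
    have a : (A : ℂ) ≠ 0 := ofReal_ne_zero.2 hA0.ne'
    have b : (B : ℂ) ≠ 0 := ofReal_ne_zero.2 hB0.ne'
    unfold rinv
    rw [← hA, ← hB, map_sub]
    push_cast
    field_simp
    ring
  have h2 : |B - A| ≤ (‖z‖ + ‖w‖) * ‖z - w‖ := by
    rw [show B - A = (‖z‖ + ‖w‖) * (‖w‖ - ‖z‖) by rw [hA, hB]; ring, abs_mul,
      abs_of_nonneg (by positivity)]
    refine mul_le_mul_of_nonneg_left ?_ (by positivity)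
    rw [norm_sub_rev]
    exact abs_norm_sub_norm_le w z
  have hz := norm_nonneg z
  have hw := norm_nonneg w
  have hd := norm_nonneg (z - w)
  have h3 : ‖z - w‖ / A ≤ 1 / η ^ 2 * ‖z - w‖ := by
    rw [one_div_mul_eq_div]
    exact div_le_div_of_nonneg_left hd (by positivity) (by rw [hA]; nlinarith)
  have h4 : ‖w‖ * (‖z‖ + ‖w‖) / (A * B) ≤ 2 / η ^ 2 := by
    rw [div_le_div_iff₀ (by positivity) (by positivity), hA, hB]
    have e1 : 0 ≤ η ^ 2 := by positivity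
    nlinarith [mul_nonneg e1 (sq_nonneg (‖z‖ - ‖w‖)), mul_nonneg e1 (sq_nonneg ‖z‖),
      mul_nonneg e1 (sq_nonneg ‖w‖), mul_nonneg (sq_nonneg ‖z‖) (sq_nonneg ‖w‖), mul_nonneg e1 e1]
  rw [h1]
  refine (norm_add_le _ _).trans ?_
  rw [norm_div, RCLike.norm_conj, norm_mul, RCLike.norm_conj, norm_real, norm_real,
    Real.norm_of_nonneg hA0.le, Real.norm_eq_abs, abs_div, abs_of_pos (mul_pos hA0 hB0)]
  have h5 : ‖w‖ * (|B - A| / (A * B)) ≤ ‖w‖ * (‖z‖ + ‖w‖) / (A * B) * ‖z - w‖ := by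
    calc ‖w‖ * (|B - A| / (A * B)) ≤ ‖w‖ * ((‖z‖ + ‖w‖) * ‖z - w‖ / (A * B)) := by gcongr
      _ = _ := by ring
  have h6 := mul_le_mul_of_nonneg_right h4 hd
  have h7 : 3 / η ^ 2 * ‖z - w‖ = 1 / η ^ 2 * ‖z - w‖ + 2 / η ^ 2 * ‖z - w‖ := by ring
  linarith

/-- Abel summation. -/
lemma abel_le {η : ℝ} (hη : 0 < η) (Φ r : ℕ → ℂ) (a b : ℕ) (hab : a ≤ b)
    (hr : ∀ k, a ≤ k → Φ (k + 1) = Φ k * r k) (hΦ : ∀ k, ‖Φ k‖ ≤ 1) :
    ‖∑ k ∈ Ico a b, Φ (k + 1)‖ ≤ 1 / η + ∑ k ∈ Ico a b,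
      (3 / η ^ 2 * ‖r (k + 1) - r k‖ + η ^ 2 / (‖1 - r (k + 1)‖ ^ 2 + η ^ 2)) := by
  have hc : ∀ k j, ‖rinv η (1 - r k) * Φ j‖ ≤ 1 / (2 * η) := fun k j => by
    rw [norm_mul]
    exact (mul_le_of_le_one_right (norm_nonneg _) (hΦ j)).trans (rinv_le hη _)
  have h : ‖∑ k ∈ Ico a b, Φ (k + 1) + rinv η (1 - r b) * Φ (b + 1)‖ ≤ 1 / (2 * η) + ∑ k ∈ Ico a b,
      (3 / η ^ 2 * ‖r (k + 1) - r k‖ + η ^ 2 / (‖1 - r (k + 1)‖ ^ 2 + η ^ 2)) := by
    induction b, hab using Nat.le_induction with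
    | base => simpa using hc a (a + 1)
    | succ b hab ih =>
      rw [sum_Ico_succ_top hab, sum_Ico_succ_top hab]
      have h1 : ∑ k ∈ Ico a b, Φ (k + 1) + Φ (b + 1) + rinv η (1 - r (b + 1)) * Φ (b + 1 + 1) =
          (∑ k ∈ Ico a b, Φ (k + 1) + rinv η (1 - r b) * Φ (b + 1)) +
            ((rinv η (1 - r (b + 1)) - rinv η (1 - r b)) +
              (1 - rinv η (1 - r (b + 1)) * (1 - r (b + 1)))) * Φ (b + 1) := by
        rw [hr (b + 1) (by omega)]; ring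
      rw [h1, ← add_assoc]
      refine (norm_add_le _ _).trans (add_le_add ih ?_)
      rw [norm_mul]
      refine (mul_le_of_le_one_right (norm_nonneg _) (hΦ _)).trans
        ((norm_add_le _ _).trans (add_le_add ?_ ?_))
      · refine (rinv_lip hη _ _).trans (le_of_eq ?_)
        rw [sub_sub_sub_cancel_left, norm_sub_rev]
      · rw [rinv_mul hη, norm_real, Real.norm_of_nonneg (by positivity)]
  have h2 := norm_sub_le (∑ k ∈ Ico a b, Φ (k + 1) + rinv η (1 - r b) * Φ (b + 1))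
    (rinv η (1 - r b) * Φ (b + 1))
  rw [add_sub_cancel_right] at h2
  have h3 : 1 / η = 1 / (2 * η) + 1 / (2 * η) := by field_simp; norm_num
  linarith [hc b (b + 1)]

/-- Few indices are resonant. -/
lemma res_card (φ : ℕ → ℝ) (a b s : ℕ) {κ δ : ℝ} (hκ : 0 < κ) (hδ : 0 < δ)
    (h1 : ∀ k, a ≤ k → k < b → φ (k + 1) + κ ≤ φ k) (h2 : ∀ k, a ≤ k → 0 ≤ φ k ∧ φ k ≤ s) :
    (((Ico a b).filter fun k => |φ k - round (φ k)| < δ).card : ℝ) ≤ (s + 1) * (2 * δ / κ + 1) := by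
  classical
  have h3 : ∀ k j, a ≤ k → k + j ≤ b → φ (k + j) + j * κ ≤ φ k := by
    intro k j hk
    induction j with
    | zero => simp
    | succ j ih =>
      intro hj
      have := h1 (k + j) (by omega) (by omega)
      have := ih (by omega)
      rw [← add_assoc]
      push_cast
      linarith
  have h4 : ((Ico a b).filter fun k => |φ k - round (φ k)| < δ) ⊆
      (range (s + 1)).biUnion fun j => (Ico a b).filter fun k => |φ k - j| < δ := by
    intro k hk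
    obtain ⟨hk1, hk2⟩ := mem_filter.1 hk
    obtain ⟨c1, c2⟩ := h2 k (mem_Ico.1 hk1).1
    have d1 : 0 ≤ round (φ k) := by
      rw [round_eq]; exact Int.floor_nonneg.2 (by linarith)
    have d2 : round (φ k) < (s + 1 : ℕ) := by
      rw [round_eq, Int.floor_lt]; push_cast; linarith
    obtain ⟨j, hj⟩ := Int.eq_ofNat_of_zero_le d1
    rw [hj] at hk2 d2
    exact mem_biUnion.2 ⟨j, mem_range.2 (by exact_mod_cast d2), mem_filter.2 ⟨hk1, by
      simpa using hk2⟩⟩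
  have h5 : ∀ j : ℕ, (((Ico a b).filter fun k => |φ k - j| < δ).card : ℝ) ≤ 2 * δ / κ + 1 := by
    intro j
    rcases ((Ico a b).filter fun k => |φ k - j| < δ).eq_empty_or_nonempty with h | h
    · rw [h]; simp only [card_empty, Nat.cast_zero]; positivity
    obtain ⟨k0, hk0, hm⟩ := exists_min_image _ id h
    obtain ⟨e1, e2⟩ := mem_filter.1 hk0
    have h6 : ((Ico a b).filter fun k => |φ k - j| < δ) ⊆ Icc k0 (k0 + ⌊2 * δ / κ⌋₊) := by
      intro k hk
      obtain ⟨f1, f2⟩ := mem_filter.1 hk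
      obtain ⟨i, rfl⟩ := Nat.exists_eq_add_of_le (hm k hk)
      simp only [id] at f1 f2 ⊢
      have g := h3 k0 i (mem_Ico.1 e1).1 (mem_Ico.1 f1).2.le
      refine mem_Icc.2 ⟨by omega, Nat.add_le_add_left (Nat.le_floor ?_) _⟩
      rw [le_div_iff₀ hκ]
      linarith [(abs_lt.1 e2).2, (abs_lt.1 f2).1]
    have h7 := card_le_card h6
    rw [Nat.card_Icc, show k0 + ⌊2 * δ / κ⌋₊ + 1 - k0 = ⌊2 * δ / κ⌋₊ + 1 by omega] at h7
    have h8 : ((⌊2 * δ / κ⌋₊ : ℕ) : ℝ) ≤ 2 * δ / κ := Nat.floor_le (by positivity)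
    have h9 : (((Ico a b).filter fun k => |φ k - j| < δ).card : ℝ) ≤ (⌊2 * δ / κ⌋₊ : ℕ) + 1 := by
      exact_mod_cast h7
    linarith
  calc _ ≤ ((∑ j ∈ range (s + 1), ((Ico a b).filter fun k => |φ k - j| < δ).card : ℕ) : ℝ) := by
        exact_mod_cast (card_le_card h4).trans card_biUnion_le
    _ ≤ ∑ j ∈ range (s + 1), (2 * δ / κ + 1) := by
        rw [Nat.cast_sum]; exact sum_le_sum fun j _ => h5 j
    _ = _ := by rw [sum_const, card_range, nsmul_eq_mul]; push_cast; ring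

lemma nonres (φ α : ℝ) (h : |α| = 2 * π * φ) : 4 * |φ - round φ| ≤ ‖1 - exp (α * I)‖ := by
  have h1 : ‖1 - exp (α * I)‖ = 2 * |Real.sin (π * φ)| := by
    rw [norm_sub_rev, mul_comm, norm_exp_I_mul_ofReal_sub_one, norm_mul, Real.norm_two,
      Real.norm_eq_abs]
    congr 1
    rcases abs_cases α with a | a
    · rw [← a.1, h]; congr 2; ring
    · rw [← abs_neg, ← Real.sin_neg, ← neg_div, ← a.1, h]; congr 2; ring
  have h2 : |Real.sin (π * φ)| = |Real.sin (π * (φ - round φ))| := by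
    rw [mul_sub, mul_comm π (round φ : ℝ), Real.sin_sub_int_mul_pi, abs_mul]
    simp [abs_zpow]
  have h3 := abs_sub_round φ
  have h4 := Real.mul_abs_le_abs_sin (x := π * (φ - round φ)) (by
    rw [abs_mul, abs_of_pos Real.pi_pos]; nlinarith [Real.pi_pos])
  rw [abs_mul, abs_of_pos Real.pi_pos] at h4
  have h5 : 2 / π * (π * |φ - round φ|) = 2 * |φ - round φ| := by field_simp
  rw [h1, h2]
  linarith

end P52
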