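import Pool.Agent.Lib.P52.R2

/-!
The expected number of hits in a range of multiples of `q`.
-/

set_option autoImplicit false

namespace P52

open Finset Complex
open scoped Real

/-- `q` is large -/
def Big (q : ℕ) : Prop := 1000 ≤ Real.log q ∧ Real.log q ^ 100 ≤ q

lemma Big.ge {q : ℕ} (h : Big q) : (10 : ℝ) ^ 6 ≤ q := by
  refine le_trans ?_ h.2
  calc (10 : ℝ) ^ 6 = 1000 ^ 2 := by norm_num
    _ ≤ Real.log q ^ 2 := pow_le_pow_left₀ (by norm_num) h.1 2
    _ ≤ _ := pow_le_pow_right₀ (by linarith [h.1]) (by norm_num)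

lemma Big.ge' {q : ℕ} (h : Big q) : 1000 ≤ q := by
  have : (1000 : ℝ) ≤ q := by linarith [h.ge]
  exact_mod_cast this

lemma Big.pow_le {q : ℕ} (h : Big q) {j : ℕ} (hj : j ≤ 100) : Real.log q ^ j ≤ q :=
  (pow_le_pow_right₀ (by linarith [h.1]) hj).trans h.2

lemma Big.log_le {q : ℕ} (h : Big q) {m : ℕ} (hm0 : 0 < m) (hm : (m : ℝ) ≤ 4 * q ^ 2 * Real.log q) :
    Real.log m ≤ 3 * Real.log q := by
  have h1 := h.pow_le (j := 2) (by norm_num)
  have h2 := h.1
  have h3 := h.ge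
  have h4 : (m : ℝ) ≤ q ^ 3 := by
    have : 4 * Real.log q ≤ q := by nlinarith
    nlinarith [sq_nonneg (q : ℝ)]
  have h5 := Real.log_le_log (by exact_mod_cast hm0) h4
  rw [Real.log_pow] at h5
  exact_mod_cast h5

lemma big_eventually : ∃ n0 : ℕ, ∀ q, n0 ≤ q → Big q := by
  have h1 := (Real.tendsto_log_atTop.comp tendsto_natCast_atTop_atTop).eventually_ge_atTop 1000
  have h2 := tendsto_natCast_atTop_atTop.eventually
    ((Real.isLittleO_pow_log_id_atTop (n := 100)).bound one_pos)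
  obtain ⟨n0, h⟩ := Filter.eventually_atTop.1 (h1.and h2)
  refine ⟨n0, fun q hq => ⟨(h q hq).1, ?_⟩⟩
  have := (h q hq).2
  rw [one_mul, id, Real.norm_natCast] at this
  exact (le_abs_self _).trans this

/-- expected number of successes in the block after `kq` -/
noncomputable def blk (p : ℕ → ℝ) (q k : ℕ) : ℝ := ∑ m ∈ Ico (k * q + 1) ((k + 1) * q + 1), p m

lemma blk_card (q k : ℕ) : (Ico (k * q + 1) ((k + 1) * q + 1)).card = q := by
  rw [Nat.card_Ico, add_mul]; omega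

lemma blk_mem {p : ℕ → ℝ} (hp : Cr p) (q k : ℕ) : 0 ≤ blk p q k ∧ blk p q k ≤ q := by
  refine ⟨sum_nonneg fun m _ => (hp.mem m).1, ?_⟩
  have := sum_le_card_nsmul (Ico (k * q + 1) ((k + 1) * q + 1)) p 1 fun m _ => (hp.mem m).2
  rwa [blk_card, nsmul_eq_mul, mul_one] at this

lemma blk_shift (f : ℕ → ℝ) (q k : ℕ) :
    blk f q (k + 1) = ∑ m ∈ Ico (k * q + 1) ((k + 1) * q + 1), f (m + q) := by
  unfold blk
  rw [sum_Ico_add' f]
  congr 2 <;> ring

lemma p_step {p : ℕ → ℝ} (hp : Cr p) {q k m : ℕ} (hq : Big q) (hk : 1 ≤ k)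
    (hk2 : (k : ℝ) ≤ 2 * q * Real.log q) (hm : m ∈ Ico (k * q + 1) ((k + 1) * q + 1)) :
    p (m + q) + 1 / (27 * q * Real.log q ^ 3) ≤ p m := by
  rw [mem_Ico] at hm
  have hq1 := hq.ge'
  have hq2 := hq.ge
  have hL := hq.1
  have h1 : q ≤ k * q := Nat.le_mul_of_pos_left q hk
  rw [hp.eq m (by omega), hp.eq (m + q) (by omega)]
  have hm0 : (0 : ℝ) < m := by exact_mod_cast (by omega : 0 < m)
  have h2 : ((m + q : ℕ) : ℝ) ≤ (k + 2) * q := by
    have : m + q ≤ (k + 2) * q := by rw [add_mul] at hm ⊢; omega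
    exact_mod_cast this
  have h3 : (k : ℝ) + 2 ≤ 3 * q * Real.log q := by nlinarith
  have h4 : Real.log (m + q : ℕ) ≤ 3 * Real.log q := hq.log_le (by omega) (by nlinarith)
  have h5 := two_le_log (m := m) (by omega)
  have h6 : Real.log m + 1 / (3 * q * Real.log q) ≤ Real.log (m + q : ℕ) := by
    have h7 := Real.log_le_sub_one_of_pos (x := m / (m + q : ℕ)) (by positivity)
    rw [Real.log_div hm0.ne' (by positivity)] at h7
    have h8 : (m : ℝ) / (m + q : ℕ) - 1 = -(q / (m + q : ℕ)) := by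
      push_cast; field_simp; ring
    have h9 : 1 / (3 * q * Real.log q) ≤ q / (m + q : ℕ) := by
      rw [div_le_div_iff₀ (by positivity) (by positivity)]
      nlinarith
    linarith
  set A := Real.log m
  set B := Real.log (m + q : ℕ)
  set L := Real.log q
  have hq0 : (0 : ℝ) < q := by linarith
  have hu : 0 < 1 / (3 * q * L) := by positivity
  have h10 : 1 / A - 1 / B = (B - A) / (A * B) := by
    have : B ≠ 0 := by linarith
    field_simp
  have h11 : 1 / (27 * q * L ^ 3) ≤ (B - A) / (A * B) := by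
    rw [show 1 / (27 * q * L ^ 3) = 1 / (3 * q * L) / (3 * L * (3 * L)) by field_simp; norm_num]
    exact div_le_div₀ (by linarith) (by linarith) (by nlinarith)
      (mul_le_mul (by linarith) h4 (by linarith) (by linarith))
  linarith

lemma blk_step {p : ℕ → ℝ} (hp : Cr p) {q k : ℕ} (hq : Big q) (hk : 1 ≤ k)
    (hk2 : (k : ℝ) ≤ 2 * q * Real.log q) :
    blk p q (k + 1) + 1 / (27 * Real.log q ^ 3) ≤ blk p q k := by
  have h := sum_le_sum fun m hm => p_step hp hq hk hk2 hm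
  rw [sum_add_distrib, sum_const, blk_card, nsmul_eq_mul, ← blk_shift] at h
  have hq0 : (0 : ℝ) < q := by linarith [hq.ge]
  have h2 : (q : ℝ) * (1 / (27 * q * Real.log q ^ 3)) = 1 / (27 * Real.log q ^ 3) := by field_simp
  rw [h2] at h
  exact h

lemma gf_tv {p : ℕ → ℝ} (hp : Cr p) {q k : ℕ} (hq : Big q) (hk : 1 ≤ k)
    (hk2 : (k : ℝ) ≤ 2 * q * Real.log q) (α : ℝ) :
    ‖gf p ((k + 1) * q + 1) ((k + 1 + 1) * q + 1) (exp (α * I)) -
      gf p (k * q + 1) ((k + 1) * q + 1) (exp (α * I))‖ ≤ |α| * (blk p q k - blk p q (k + 1)) := by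
  have h1 : gf p ((k + 1) * q + 1) ((k + 1 + 1) * q + 1) (exp (α * I)) =
      ∏ m ∈ Ico (k * q + 1) ((k + 1) * q + 1), (1 + p (m + q) * (exp (α * I) - 1)) := by
    unfold gf
    rw [prod_Ico_add' fun m => 1 + (p m : ℂ) * (exp (α * I) - 1)]
    congr 2 <;> ring
  rw [h1, blk_shift, blk, ← sum_sub_distrib, mul_sum]
  refine (prod_sub_prod_le (fun m _ => factor_le_one (hp.mem _) α)
    fun m _ => factor_le_one (hp.mem _) α).trans (sum_le_sum fun m hm => ?_)
  have h2 := p_step hp hq hk hk2 hm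
  have h3 : 0 < 1 / (27 * q * Real.log q ^ 3) := by
    have := hq.ge; have := hq.1; positivity
  rw [add_sub_add_left_eq_sub, ← sub_mul, norm_mul, ← ofReal_sub, norm_real, Real.norm_eq_abs,
    abs_sub_comm, abs_of_nonneg (by linarith), mul_comm]
  refine mul_le_mul_of_nonneg_right ?_ (by linarith)
  rw [mul_comm]
  exact Real.norm_exp_I_mul_ofReal_sub_one_le

lemma gf_approx {p : ℕ → ℝ} (hp : Cr p) (q k : ℕ) {α : ℝ} (hα : |α| ≤ 1) :
    ‖gf p (k * q + 1) ((k + 1) * q + 1) (exp (α * I)) - exp ((α * blk p q k : ℝ) * I)‖ ≤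
      2 * q * α ^ 2 := by
  have h1 : exp ((α * blk p q k : ℝ) * I) =
      ∏ m ∈ Ico (k * q + 1) ((k + 1) * q + 1), exp ((α * p m : ℝ) * I) := by
    rw [← exp_sum, blk, mul_sum]; push_cast; rw [sum_mul]
  rw [h1]
  refine (prod_sub_prod_le (fun m _ => factor_le_one (hp.mem _) α)
    fun m _ => (norm_exp_ofReal_mul_I _).le).trans ?_
  refine (sum_le_card_nsmul _ _ (2 * α ^ 2) fun m _ => ?_).trans
    (by rw [blk_card, nsmul_eq_mul]; linarith)
  obtain ⟨h2, h3⟩ := hp.mem m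
  have n1 : ∀ x : ℝ, ‖(x : ℂ) * I‖ = |x| := fun x => by simp
  have h4 := norm_exp_sub_one_sub_id_le (x := α * I) (by rw [n1]; exact hα)
  have h5 := norm_exp_sub_one_sub_id_le (x := (α * p m : ℝ) * I) (by
    rw [n1, abs_mul, abs_of_nonneg h2]; nlinarith [abs_nonneg α])
  rw [n1, sq_abs] at h4 h5
  rw [show 1 + (p m : ℂ) * (exp (α * I) - 1) - exp ((α * p m : ℝ) * I) =
    p m * (exp (α * I) - 1 - α * I) - (exp ((α * p m : ℝ) * I) - 1 - (α * p m : ℝ) * I) by
      push_cast; ring]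
  refine (norm_sub_le _ _).trans ?_
  rw [norm_mul, norm_real, Real.norm_of_nonneg h2]
  have h6 := mul_le_mul h3 h4 (norm_nonneg _) zero_le_one
  have h7 : (α * p m) ^ 2 ≤ α ^ 2 := by
    rw [mul_pow]; exact mul_le_of_le_one_right (sq_nonneg _) (by nlinarith)
  linarith

lemma small_freq {p : ℕ → ℝ} (hp : Cr p) {q y a b s : ℕ} (hq : Big q) (ha : 1 ≤ a) (hab : a ≤ b)
    (hb : (b : ℝ) ≤ 2 * q * Real.log q) (hy : y ≤ a * q + 1) {α : ℝ} (hs : 1 ≤ s)
    (hs2 : (s : ℝ) ≤ 2 * Real.log q ^ 10) (hα : |α| = 2 * π * s / q) :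
    ‖∑ k ∈ Ico a b, gf p y ((k + 1) * q + 1) (exp (α * I))‖ ≤ 111 * q / Real.log q ^ 19 := by
  classical
  have hL := hq.1
  have hq2 := hq.2
  have hq0 : (0 : ℝ) < q := by linarith [hq.ge]
  set L := Real.log q with hLd
  have hL0 : 0 < L := by linarith
  have hL1 : 1 ≤ L := by linarith
  have hs1 : (1 : ℝ) ≤ s := by exact_mod_cast hs
  have hpi := Real.pi_lt_d2
  have hα1 : |α| * q ≤ 14 * L ^ 10 := by
    rw [hα, div_mul_cancel₀ _ hq0.ne']; nlinarith [Real.pi_pos]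
  have hpw : ∀ i j : ℕ, i < j → 1000 * L ^ i ≤ L ^ j := fun i j h => by
    calc 1000 * L ^ i ≤ L ^ (i + 1) := by rw [pow_succ']; gcongr
      _ ≤ L ^ j := pow_le_pow_right₀ hL1 h
  have hα2 : |α| ≤ 1 := by
    have := hpw 10 100 (by norm_num)
    have h : |α| * q ≤ 1 * q := by nlinarith [pow_pos hL0 10]
    exact le_of_mul_le_mul_right h hq0
  have hγ : 2 * q * α ^ 2 ≤ 3 * (1 / L ^ 22) := by
    have h1 : (|α| * q) ^ 2 ≤ (14 * L ^ 10) ^ 2 := pow_le_pow_left₀ (by positivity) hα1 2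
    rw [mul_pow, sq_abs] at h1
    have h2 := hpw 42 100 (by norm_num)
    rw [mul_one_div, le_div_iff₀ (by positivity)]
    have h3 : 2 * q * α ^ 2 * L ^ 22 * q ≤ 3 * q := by
      have h4 := mul_le_mul_of_nonneg_right h1 (pow_pos hL0 22).le
      have h5 : (14 * L ^ 10) ^ 2 * L ^ 22 = 196 * L ^ 42 := by ring
      nlinarith [pow_pos hL0 42]
    exact le_of_mul_le_mul_right h3 hq0
  let r : ℕ → ℂ := fun k => gf p (k * q + 1) ((k + 1) * q + 1) (exp (α * I))
  have h0 := abel_le (η := 1 / L ^ 32) (by positivity) (fun k => gf p y (k * q + 1) (exp (α * I)))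
    r a b hab (fun k hk => (gf_mul p (hy.trans (by gcongr)) (by gcongr; omega) _).symm)
    fun k => gf_le_one hp _ _ _
  refine h0.trans ?_
  rw [sum_add_distrib, ← mul_sum]
  have hkb : ∀ k, k < b → (k : ℝ) ≤ 2 * q * L := fun k hk =>
    le_trans (by exact_mod_cast hk.le) hb
  have h1 : ∑ k ∈ Ico a b, ‖r (k + 1) - r k‖ ≤ 14 * L ^ 10 := by
    refine (sum_le_sum fun k hk => gf_tv hp hq (ha.trans (mem_Ico.1 hk).1)
      (hkb k (mem_Ico.1 hk).2) α).trans ?_
    rw [← mul_sum]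
    have h2 : ∑ k ∈ Ico a b, (blk p q k - blk p q (k + 1)) = blk p q a - blk p q b := by
      have := sum_Ico_sub (blk p q) hab
      rw [← neg_sub, ← this, ← sum_neg_distrib]
      exact sum_congr rfl fun k _ => by ring
    rw [h2]
    refine le_trans (mul_le_mul_of_nonneg_left ?_ (abs_nonneg _)) hα1
    linarith [(blk_mem hp q a).2, (blk_mem hp q b).1]
  let φ : ℕ → ℝ := fun k => s * blk p q k / q
  have h2 := res_card φ a (b + 1) s (κ := s / (27 * q * L ^ 3)) (δ := 1 / L ^ 22) (by positivity)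
    (by positivity) (fun k h1 h2 => by
      have h3 := blk_step hp hq (ha.trans h1) (le_trans (by exact_mod_cast (by omega : k ≤ b)) hb)
      have h4 := mul_le_mul_of_nonneg_left h3 (show 0 ≤ (s : ℝ) / q by positivity)
      simp only [φ]
      calc _ = s / q * (blk p q (k + 1) + 1 / (27 * L ^ 3)) := by field_simp
        _ ≤ _ := h4
        _ = _ := by ring)
    (fun k _ => by
      have := blk_mem hp q k
      simp only [φ]
      refine ⟨by have := this.1; positivity, ?_⟩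
      rw [div_le_iff₀ hq0]
      exact mul_le_mul_of_nonneg_left this.2 (by positivity))
  have h3 : ∑ k ∈ Ico a b, (1 / L ^ 32) ^ 2 / (‖1 - r (k + 1)‖ ^ 2 + (1 / L ^ 32) ^ 2) ≤
      ∑ k ∈ Ico a b, ((if |φ (k + 1) - round (φ (k + 1))| < 1 / L ^ 22 then 1 else 0) +
        1 / L ^ 20) := by
    refine sum_le_sum fun k _ => ?_
    split_ifs with h
    · refine le_trans ?_ (le_add_of_nonneg_right (by positivity))
      rw [div_le_one (by positivity)]
      exact le_add_of_nonneg_left (by positivity)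
    · have h4 := nonres (φ (k + 1)) (α * blk p q (k + 1)) (by
        rw [abs_mul, hα, abs_of_nonneg (blk_mem hp q _).1]; simp only [φ]; ring)
      have h5 := gf_approx hp q (k + 1) hα2
      have h6 : ‖1 - exp ((α * blk p q (k + 1) : ℝ) * I)‖ ≤
          ‖1 - r (k + 1)‖ + ‖r (k + 1) - exp ((α * blk p q (k + 1) : ℝ) * I)‖ :=
        norm_sub_le_norm_sub_add_norm_sub _ _ _
      have h7 : 1 / L ^ 22 ≤ ‖1 - r (k + 1)‖ := by
        simp only [r] at h6 ⊢
        linarith [not_lt.1 h]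
      rw [zero_add]
      calc _ ≤ (1 / L ^ 32) ^ 2 / (1 / L ^ 22) ^ 2 :=
            div_le_div_of_nonneg_left (by positivity) (by positivity)
              ((pow_le_pow_left₀ (by positivity) h7 2).trans
                (le_add_of_nonneg_right (by positivity)))
        _ = _ := by field_simp
  rw [sum_add_distrib, sum_boole, sum_const, Nat.card_Ico, nsmul_eq_mul] at h3
  have h4 : (((Ico a b).filter fun k => |φ (k + 1) - round (φ (k + 1))| < 1 / L ^ 22).card : ℝ) ≤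
      ((Ico a (b + 1)).filter fun k => |φ k - round (φ k)| < 1 / L ^ 22).card := by
    exact_mod_cast card_le_card_of_injOn (fun k => k + 1) (fun k hk => by
      simp only [coe_filter, mem_Ico, Set.mem_ofPred_eq] at hk ⊢
      exact ⟨⟨by omega, by omega⟩, hk.2⟩) fun _ _ _ _ h => by simpa using h
  have h5 : ((b - a : ℕ) : ℝ) ≤ 2 * q * L := le_trans (by exact_mod_cast Nat.sub_le b a) hb
  have h6 : (s + 1 : ℝ) * (2 * (1 / L ^ 22) / (s / (27 * q * L ^ 3)) + 1) ≤
      108 * (q / L ^ 19) + 4 * L ^ 10 := by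
    have e : 2 * (1 / L ^ 22) / (s / (27 * q * L ^ 3)) = 54 * (q / L ^ 19) / s := by
      field_simp; norm_num
    have e2 : (s + 1 : ℝ) * (54 * (q / L ^ 19) / s) ≤ 2 * s * (54 * (q / L ^ 19) / s) :=
      mul_le_mul_of_nonneg_right (by linarith) (by positivity)
    have e3 : 2 * (s : ℝ) * (54 * (q / L ^ 19) / s) = 108 * (q / L ^ 19) := by
      field_simp; norm_num
    rw [e, mul_add]
    linarith
  have h7 : ((b - a : ℕ) : ℝ) * (1 / L ^ 20) ≤ 2 * (q / L ^ 19) := by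
    refine (mul_le_mul_of_nonneg_right h5 (by positivity)).trans (le_of_eq ?_)
    field_simp
  have h8 : 3 / (1 / L ^ 32) ^ 2 * ∑ k ∈ Ico a b, ‖r (k + 1) - r k‖ ≤ 42 * L ^ 74 := by
    refine (mul_le_mul_of_nonneg_left h1 (by positivity)).trans (le_of_eq ?_)
    field_simp; norm_num
  have h9 : L ^ 81 ≤ q / L ^ 19 := by
    rw [le_div_iff₀ (by positivity), ← pow_add]; exact hq2
  have g1 := hpw 32 81 (by norm_num)
  have g2 := hpw 74 81 (by norm_num)
  have g3 := hpw 10 81 (by norm_num)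
  rw [one_div_one_div, mul_div_assoc]
  have g4 := pow_pos hL0 81
  linarith

lemma large_freq {p : ℕ → ℝ} (hp : Cr p) {q y a b s : ℕ} (hq : Big q) (ha : 1 ≤ a)
    (hb : (b : ℝ) ≤ 2 * q * Real.log q) (hy : y ≤ a * q + 1) {α : ℝ} (hs : 1 ≤ s)
    (hs2 : 2 * s ≤ q) (hα : |α| = 2 * π * s / q) :
    ‖∑ k ∈ Ico a b, gf p y ((k + 1) * q + 1) (exp (α * I))‖ ≤
      q * Real.log q * ((s : ℝ) ^ 2)⁻¹ := by
  have hL := hq.1
  have hq1 := hq.ge'
  have hq0 : (0 : ℝ) < q := by linarith [hq.ge]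
  have hs1 : (1 : ℝ) ≤ s := by exact_mod_cast hs
  have h4 : (2 : ℝ) * s ≤ q := by exact_mod_cast hs2
  have h1 : q ≤ a * q := Nat.le_mul_of_pos_left q ha
  have h2 := geo_le (a := (s : ℝ) ^ 2 / (q * Real.log q)) (by positivity) (b - a + 1)
  rw [one_div_div, div_eq_mul_inv (q * Real.log q), ← sum_Ico_add' _ 0 (b - a) 1,
    ← range_eq_Ico] at h2
  rw [sum_Ico_eq_sum_range]
  refine (norm_sum_le _ _).trans (le_trans (sum_le_sum fun j hj => ?_) h2)
  rw [mem_range] at hj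
  have h5 : (a + j + 1) * q + 1 = a * q + 1 + (j + 1) * q := by ring
  rw [h5, ← gf_mul p hy (Nat.le_add_right _ _), norm_mul]
  refine (mul_le_of_le_one_left (norm_nonneg _) (gf_le_one hp _ _ _)).trans ?_
  have h6 : ((a + j + 1 : ℕ) : ℝ) ≤ 2 * q * Real.log q :=
    le_trans (by exact_mod_cast (by omega : a + j + 1 ≤ b)) hb
  refine (gf_damp hp (by omega) (Λ := 3 * Real.log q) (hq.log_le (by omega) ?_) ?_).trans
    (Real.exp_le_exp.2 (neg_le_neg ?_))
  · rw [← h5, Nat.cast_add, Nat.cast_mul, Nat.cast_one]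
    nlinarith [hq.ge]
  · rw [hα, div_le_iff₀ hq0]; nlinarith [Real.pi_pos]
  · have h7 : α ^ 2 / π ^ 2 = (2 * s / q) ^ 2 := by
      rw [← sq_abs α, hα]; field_simp
    rw [h7, Nat.cast_mul, mul_assoc]
    refine mul_le_mul_of_nonneg_left ?_ (by positivity)
    rw [show (q : ℝ) * ((2 * s / q) ^ 2 / (3 * Real.log q)) =
      4 / 3 * ((s : ℝ) ^ 2 / (q * Real.log q)) by field_simp; norm_num]
    have : 0 ≤ (s : ℝ) ^ 2 / (q * Real.log q) := by positivity
    linarith

/-- The expected number of hits. -/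
theorem hits_eq {p : ℕ → ℝ} (hp : Cr p) {q X y a b : ℕ} (hq : Big q) (ha : 1 ≤ a) (hab : a ≤ b)
    (hb : (b : ℝ) ≤ 2 * q * Real.log q) (hy : y ≤ a * q + 1) (hX : b * q + 1 ≤ X) (ω : Cf) :
    |∑ k ∈ Ioc a b, ce p X y (hit q (k * q + 1)) ω - ((b : ℝ) - a) / q| ≤ 1 / Real.log q ^ 8 := by
  have hL := hq.1
  have hq1 := hq.ge'
  have hq0 : (0 : ℝ) < q := by linarith [hq.ge]
  set L := Real.log q with hLd
  have hL0 : 0 < L := by linarith
  have hp10 : 1 ≤ L ^ 10 := one_le_pow₀ (by linarith)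
  set T := ⌈L ^ 10⌉₊ with hT
  have hT1 : L ^ 10 ≤ T := Nat.le_ceil _
  have hT2 : (T : ℝ) ≤ 2 * L ^ 10 := by linarith [Nat.ceil_lt_add_one (show 0 ≤ L ^ 10 by linarith)]
  have hT0 : T ≠ 0 := by
    rintro h
    rw [h, Nat.cast_zero] at hT1
    linarith
  have h := four_bound p (q := q) (by omega) (X := X) (y := y) (Ico a b) (fun k => (k + 1) * q + 1)
    (fun k hk => by
      rw [mem_Ico] at hk
      exact ⟨hy.trans (by gcongr; omega), le_trans (by gcongr; omega) hX⟩)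
    (fun s => if s ≤ T then 111 * q / L ^ 19 else q * L * ((s : ℝ) ^ 2)⁻¹)
    (fun s => by split_ifs <;> positivity) (fun s α h1 h2 h3 => by
      split_ifs with h4
      · exact small_freq hp hq ha hab hb hy h1 (le_trans (by exact_mod_cast h4) hT2) h3
      · exact large_freq hp hq ha hb hy h1 h2 h3) ω
  rw [sum_Ico_add' (fun k => ce p X y (hit q (k * q + 1)) ω) a b 1, Ico_add_one_add_one_eq_Ioc,
    Nat.card_Ico, Nat.cast_sub hab, sum_ite, sum_const, nsmul_eq_mul, ← mul_sum] at h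
  refine h.trans ?_
  have h1 : (((Ico 1 q).filter fun s => s ≤ T).card : ℝ) ≤ T := by
    have : ((Ico 1 q).filter fun s => s ≤ T).card ≤ (Icc 1 T).card := card_le_card fun s hs => by
      simp only [mem_filter, mem_Ico, mem_Icc] at hs ⊢; omega
    rw [Nat.card_Icc, Nat.add_sub_cancel] at this
    exact_mod_cast this
  have h2 : ∑ s ∈ (Ico 1 q).filter fun s => ¬ s ≤ T, ((s : ℝ) ^ 2)⁻¹ ≤ (T : ℝ)⁻¹ := by
    have h3 := sum_Ioc_inv_sq_le_sub (α := ℝ) hT0 (Nat.le_add_right T q)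
    refine (sum_le_sum_of_subset_of_nonneg (fun s hs => ?_) fun _ _ _ => by positivity).trans
      (h3.trans (sub_le_self _ (by positivity)))
    simp only [mem_filter, mem_Ico, mem_Ioc] at hs ⊢; omega
  have h3 : (T : ℝ)⁻¹ ≤ (L ^ 10)⁻¹ := inv_anti₀ (by positivity) hT1
  calc _ ≤ 2 / (q : ℝ) * (2 * L ^ 10 * (111 * q / L ^ 19) + q * L * (L ^ 10)⁻¹) := by
        gcongr
        · exact h1.trans hT2
        · exact h2.trans h3
    _ = 446 / L * (1 / L ^ 8) := by field_simp; norm_num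
    _ ≤ _ := mul_le_of_le_one_left (by positivity) (by rw [div_le_one hL0]; linarith)

end P52
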