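import Pool.Agent.Lib.P52.R3

/-!
The probability that a range of multiples of `q` contains no hit.
-/

set_option autoImplicit false

namespace P52

open Finset

/-- no hit for `a < k ≤ b` -/
def Nh (q a b : ℕ) (ω : Cf) : Prop := ∀ k ∈ Ioc a b, ¬ q ∣ cnt (k * q + 1) ω

open Classical in
/-- indicator of `Nh` -/
noncomputable def surv (q a b : ℕ) : Cf → ℝ := fun ω => if Nh q a b ω then 1 else 0

lemma surv_nonneg (q a b : ℕ) (ω : Cf) : 0 ≤ surv q a b ω := by
  unfold surv; split_ifs <;> norm_num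

lemma surv_le_one (q a b : ℕ) (ω : Cf) : surv q a b ω ≤ 1 := by
  unfold surv; split_ifs <;> norm_num

lemma surv_of {q a b : ℕ} {ω : Cf} (h : Nh q a b ω) : surv q a b ω = 1 := if_pos h

lemma surv_of_not {q a b : ℕ} {ω : Cf} (h : ¬ Nh q a b ω) : surv q a b ω = 0 := if_neg h

lemma Nh.sub {q a b a' b' : ℕ} {ω : Cf} (h : Nh q a b ω) (h1 : a ≤ a') (h2 : b' ≤ b) :
    Nh q a' b' ω := fun k hk => h k (Ioc_subset_Ioc h1 h2 hk)

lemma surv_dep {q a b x : ℕ} (h : b * q + 1 ≤ x) : Dep x (surv q a b) := by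
  intro ω ω' H
  have : Nh q a b ω ↔ Nh q a b ω' := forall₂_congr fun k hk => by
    have h1 : k * q ≤ b * q := Nat.mul_le_mul_right _ (mem_Ioc.1 hk).2
    rw [cnt_congr (ω' := ω') fun m hm => H m (by omega)]
  unfold surv
  rw [this]

lemma surv_eq (q a b : ℕ) (ω : Cf) :
    surv q a b ω = ∏ k ∈ Ioc a b, (1 - hit q (k * q + 1) ω) := by
  by_cases h : Nh q a b ω
  · rw [surv_of h]
    exact (prod_eq_one fun k hk => by simp [hit, h k hk]).symm
  · rw [surv_of_not h]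
    unfold Nh at h
    push Not at h
    obtain ⟨k, hk, h⟩ := h
    exact (prod_eq_zero hk (by simp [hit, h])).symm

lemma surv_mul (q : ℕ) {a b c : ℕ} (h : a ≤ b) (h' : b ≤ c) :
    surv q a b * surv q b c = surv q a c := by
  funext ω
  simp only [Pi.mul_apply, surv_eq]
  exact prod_Ioc_consecutive _ h h'

lemma surv_prod (q : ℕ) (u : ℕ → ℕ) (hu : Monotone u) (J : ℕ) :
    ∏ j ∈ range J, surv q (u j) (u (j + 1)) = surv q (u 0) (u J) := by
  induction J with
  | zero => funext ω; simp [surv_eq]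
  | succ J ih => rw [prod_range_succ, ih, surv_mul q (hu (by omega)) (hu (by omega))]

lemma bonf {u : ℕ → ℝ} (hu : ∀ k, 0 ≤ u k ∧ u k ≤ 1) (a b : ℕ) :
    1 - ∑ k ∈ Ioc a b, u k ≤ ∏ k ∈ Ioc a b, (1 - u k) ∧ ∏ k ∈ Ioc a b, (1 - u k) ≤
      1 - ∑ k ∈ Ioc a b, u k + ∑ k ∈ Ioc a b, u k * ∑ j ∈ Ioc k b, u j := by
  rcases le_total a b with h | h
  · induction b, h using Nat.le_induction with
    | base => simp
    | succ b h ih =>
      have h1 : ∑ k ∈ Ioc a b, u k * ∑ j ∈ Ioc k (b + 1), u j =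
          ∑ k ∈ Ioc a b, u k * ∑ j ∈ Ioc k b, u j + (∑ k ∈ Ioc a b, u k) * u (b + 1) := by
        rw [sum_mul, ← sum_add_distrib]
        exact sum_congr rfl fun k hk => by rw [sum_Ioc_succ_top (mem_Ioc.1 hk).2]; ring
      rw [prod_Ioc_succ_top h, sum_Ioc_succ_top h, sum_Ioc_succ_top h, h1, Ioc_self, sum_empty]
      have h2 := hu (b + 1)
      have h3 : 0 ≤ ∑ k ∈ Ioc a b, u k := sum_nonneg fun k _ => (hu k).1
      constructor
      · nlinarith [mul_le_mul_of_nonneg_right ih.1 (sub_nonneg.2 h2.2), mul_nonneg h3 h2.1]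
      · nlinarith [mul_le_mul_of_nonneg_right ih.1 h2.1, ih.2]
  · simp [Ioc_eq_empty_of_le h]

lemma chain_le {p : ℕ → ℝ} (hp : Cr p) (X : ℕ) (y : ℕ → ℕ) (hy : Monotone y) (g : ℕ → Cf → ℝ)
    {c : ℝ} (hc : 0 ≤ c) (J : ℕ) (hd : ∀ j < J, Dep (y (j + 1)) (g j)) (h0 : ∀ j ω, 0 ≤ g j ω)
    (hg : ∀ j < J, ∀ ω, ce p X (y j) (g j) ω ≤ c) (G : Cf → ℝ) {C : ℝ} (hC : 0 ≤ C)
    (hG : ∀ ω, ce p X (y J) G ω ≤ C) (ω : Cf) :
    ce p X (y 0) ((∏ j ∈ range J, g j) * G) ω ≤ c ^ J * C := by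
  induction J generalizing G C with
  | zero => simpa using hG ω
  | succ J ih =>
    rw [prod_range_succ, mul_assoc, pow_succ, mul_assoc]
    refine ih (fun j hj => hd j (by omega)) (fun j hj => hg j (by omega)) _ (by positivity)
      fun ω => ?_
    refine (ce_mul_le hp.mem X (hy (by omega)) (hd J (by omega)) (h0 J) hG ω).trans ?_
    rw [mul_comm]
    exact mul_le_mul_of_nonneg_right (hg J (by omega) ω) hC

lemma le_chain {p : ℕ → ℝ} (hp : Cr p) (X : ℕ) (y : ℕ → ℕ) (hy : Monotone y) (g : ℕ → Cf → ℝ)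
    {c : ℝ} (J : ℕ) (hd : ∀ j < J, Dep (y (j + 1)) (g j)) (h0 : ∀ j ω, 0 ≤ g j ω)
    (hc : 0 ≤ c) (hg : ∀ j < J, ∀ ω, c ≤ ce p X (y j) (g j) ω) (G : Cf → ℝ) {C : ℝ} (hC : 0 ≤ C)
    (hG : ∀ ω, C ≤ ce p X (y J) G ω) (ω : Cf) :
    c ^ J * C ≤ ce p X (y 0) ((∏ j ∈ range J, g j) * G) ω := by
  induction J generalizing G C with
  | zero => simpa using hG ω
  | succ J ih =>
    rw [prod_range_succ, mul_assoc, pow_succ, mul_assoc]
    refine ih (fun j hj => hd j (by omega)) (fun j hj => hg j (by omega)) _ (by positivity)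
      fun ω => ?_
    refine le_trans ?_ (le_ce_mul hp.mem X (hy (by omega)) (hd J (by omega)) (h0 J) hG ω)
    rw [mul_comm]
    exact mul_le_mul_of_nonneg_left (hg J (by omega) ω) hC

/-- number of hits -/
noncomputable def hits (q a b : ℕ) : Cf → ℝ := ∑ k ∈ Ioc a b, hit q (k * q + 1)

lemma hits_apply (q a b : ℕ) (ω : Cf) : hits q a b ω = ∑ k ∈ Ioc a b, hit q (k * q + 1) ω :=
  Finset.sum_apply _ _ _

lemma ce_hits (p : ℕ → ℝ) (X y q a b : ℕ) (ω : Cf) :
    ce p X y (hits q a b) ω = ∑ k ∈ Ioc a b, ce p X y (hit q (k * q + 1)) ω := by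
  rw [hits, map_sum, Finset.sum_apply]

section

variable {p : ℕ → ℝ} (hp : Cr p) {q X y a b : ℕ} (hq : Big q) (ha : 1 ≤ a)
  (hb : (b : ℝ) ≤ 2 * q * Real.log q) (hy : y ≤ a * q + 1) (hX : b * q + 1 ≤ X)
include hp hq ha hb hy hX

lemma hits_lo (ω : Cf) : ((b : ℝ) - a) / q - 1 / Real.log q ^ 8 ≤ ce p X y (hits q a b) ω := by
  rw [ce_hits]
  rcases le_total a b with h | h
  · linarith [(abs_le.1 (hits_eq hp hq ha h hb hy hX ω)).1]
  · rw [Ioc_eq_empty_of_le h, sum_empty]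
    have h1 : (b : ℝ) - a ≤ 0 := sub_nonpos.2 (by exact_mod_cast h)
    have h2 : ((b : ℝ) - a) / q ≤ 0 := div_nonpos_of_nonpos_of_nonneg h1 (by positivity)
    have h3 : 0 ≤ 1 / Real.log q ^ 8 := by positivity
    linarith

lemma hits_hi {l : ℝ} (h0 : 0 ≤ l) (hl : ((b : ℝ) - a) / q ≤ l) (ω : Cf) :
    ce p X y (hits q a b) ω ≤ l + 1 / Real.log q ^ 8 := by
  rw [ce_hits]
  rcases le_total a b with h | h
  · linarith [(abs_le.1 (hits_eq hp hq ha h hb hy hX ω)).2]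
  · rw [Ioc_eq_empty_of_le h, sum_empty]
    positivity

lemma blk_lo {l : ℝ} (h0 : 0 ≤ l) (hl : ((b : ℝ) - a) / q ≤ l) (ω : Cf) :
    1 - (l + 1 / Real.log q ^ 8) ≤ ce p X y (surv q a b) ω := by
  have h1 := ce_mono hp.mem X y (g := 1 - hits q a b) (h := surv q a b) (fun ω => by
    rw [Pi.sub_apply, hits_apply, surv_eq]
    exact (bonf (fun k => ⟨hit_nonneg _ _ _, hit_le_one _ _ _⟩) a b).1) ω
  rw [map_sub, Pi.sub_apply, ce_one] at h1
  linarith [hits_hi hp hq ha hb hy hX h0 hl ω]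

lemma blk_hi {l : ℝ} (h0 : 0 ≤ l) (hl : ((b : ℝ) - a) / q ≤ l) (ω : Cf) :
    ce p X y (surv q a b) ω ≤
      1 - ((b : ℝ) - a) / q + 1 / Real.log q ^ 8 + (l + 1 / Real.log q ^ 8) ^ 2 := by
  have h1 := ce_mono hp.mem X y (g := surv q a b)
    (h := 1 - hits q a b + ∑ k ∈ Ioc a b, hit q (k * q + 1) * hits q k b) (fun ω => by
    simp only [Pi.add_apply, Pi.sub_apply, Finset.sum_apply, Pi.mul_apply, hits_apply, surv_eq]
    exact (bonf (fun k => ⟨hit_nonneg _ _ _, hit_le_one _ _ _⟩) a b).2) ω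
  rw [map_add, map_sub, Pi.add_apply, Pi.sub_apply, ce_one, map_sum, Finset.sum_apply] at h1
  have h2 : ∑ k ∈ Ioc a b, ce p X y (hit q (k * q + 1) * hits q k b) ω ≤
      ∑ k ∈ Ioc a b, (l + 1 / Real.log q ^ 8) * ce p X y (hit q (k * q + 1)) ω := by
    refine sum_le_sum fun k hk => ?_
    have hk1 := (mem_Ioc.1 hk).1.le
    have hk2 : (a : ℝ) ≤ k := by exact_mod_cast hk1
    exact ce_mul_le hp.mem X (hy.trans (by gcongr)) (hit_dep _ _) (hit_nonneg _ _)
      (hits_hi hp hq (ha.trans hk1) hb le_rfl hX h0 (le_trans (by gcongr) hl)) ω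
  rw [← mul_sum, ← ce_hits] at h2
  have h3 := mul_le_mul_of_nonneg_left (hits_hi hp hq ha hb hy hX h0 hl ω)
    (show 0 ≤ l + 1 / Real.log q ^ 8 by positivity)
  linarith [hits_lo hp hq ha hb hy hX ω]

end

/-- block length -/
noncomputable def bl (q : ℕ) : ℕ := ⌊q / Real.log q ^ 2⌋₊

lemma bl_spec {q : ℕ} (hq : Big q) : 0 < bl q ∧ (bl q : ℝ) / q ≤ 1 / Real.log q ^ 2 ∧
    (q : ℝ) ≤ 2 * Real.log q ^ 2 * bl q := by
  have hL := hq.1
  have hq0 : (0 : ℝ) < q := by linarith [hq.ge]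
  have h1 : (bl q : ℝ) ≤ q / Real.log q ^ 2 := Nat.floor_le (by positivity)
  have h2 : q / Real.log q ^ 2 < bl q + 1 := Nat.lt_floor_add_one _
  have h3 : 1 ≤ bl q := Nat.le_floor (by
    rw [Nat.cast_one, le_div_iff₀ (by positivity), one_mul]; exact hq.pow_le (by norm_num))
  have h4 : (1 : ℝ) ≤ bl q := by exact_mod_cast h3
  refine ⟨h3, ?_, ?_⟩
  · rw [div_le_iff₀ hq0, one_div_mul_eq_div]; exact h1
  · rw [div_lt_iff₀ (by positivity)] at h2
    nlinarith [sq_nonneg (Real.log q)]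

lemma nblk {q a b : ℕ} (hq : Big q) (hb : (b : ℝ) ≤ 2 * q * Real.log q) :
    (((b - a) / bl q : ℕ) : ℝ) ≤ 4 * Real.log q ^ 3 := by
  obtain ⟨h1, -, h3⟩ := bl_spec hq
  have hL := hq.1
  have h4 : (0 : ℝ) < bl q := by exact_mod_cast h1
  refine Nat.cast_div_le.trans ?_
  rw [div_le_iff₀ h4]
  have h5 : ((b - a : ℕ) : ℝ) ≤ b := by exact_mod_cast Nat.sub_le b a
  nlinarith

lemma small_pows {L : ℝ} (hL : 1000 ≤ L) : 0 < 1 / L ^ 8 ∧ 1 / L ^ 8 ≤ 1 / L ^ 5 ∧
    1000 * (1 / L ^ 5) ≤ 1 / L ^ 4 ∧ 1 / L ^ 4 ≤ 1 / L ^ 2 ∧ 1000 * (1 / L ^ 2) ≤ 1 / L ∧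
    1000 * (1 / L) ≤ 1 ∧ (1 / L ^ 2) ^ 2 = 1 / L ^ 4 ∧ L ^ 3 * (1 / L ^ 4) = 1 / L := by
  have h0 : 0 < L := by linarith
  have h1 : 1 ≤ L := by linarith
  have e : ∀ j : ℕ, 1000 * (1 / L ^ (j + 1)) ≤ 1 / L ^ j := fun j => by
    rw [mul_one_div, div_le_div_iff₀ (by positivity) (by positivity), pow_succ]
    nlinarith [pow_pos h0 j]
  refine ⟨by positivity, one_div_le_one_div_of_le (by positivity) (pow_le_pow_right₀ h1 (by norm_num)),
    e 4, one_div_le_one_div_of_le (by positivity) (pow_le_pow_right₀ h1 (by norm_num)),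
    by simpa using e 1, by simpa using e 0, by field_simp, by field_simp⟩

theorem surv_hi {p : ℕ → ℝ} (hp : Cr p) {q X y a b : ℕ} (hq : Big q) (ha : 1 ≤ a)
    (hb : (b : ℝ) ≤ 2 * q * Real.log q) (hy : y ≤ a * q + 1) (hX : b * q + 1 ≤ X) (ω : Cf) :
    ce p X y (surv q a b) ω ≤ Real.exp (-(((b : ℝ) - a) / q) + 21 / Real.log q) := by
  have hL := hq.1
  have hq0 : (0 : ℝ) < q := by linarith [hq.ge]
  rcases le_total b a with hab | hab
  · refine (ce_le hp.mem X y (surv_le_one q a b) ω).trans (Real.one_le_exp ?_)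
    have h1 : (b : ℝ) - a ≤ 0 := sub_nonpos.2 (by exact_mod_cast hab)
    have h2 : ((b : ℝ) - a) / q ≤ 0 := div_nonpos_of_nonpos_of_nonneg h1 (by positivity)
    have h3 : 0 ≤ 21 / Real.log q := by positivity
    linarith
  obtain ⟨l1, l2, -⟩ := bl_spec hq
  have hJ := nblk (a := a) hq hb
  obtain ⟨s1, s2, s3, s4, s5, s6, s7, s8⟩ := small_pows hL
  set L := Real.log q
  set l := bl q
  set J := (b - a) / l with hJd
  have hJ1 : a + J * l ≤ b := by
    have : J * l ≤ b - a := Nat.div_mul_le_self (b - a) l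
    omega
  have hJ2 : b < a + J * l + l := by
    have : b - a < J * l + l := Nat.lt_div_mul_add l1
    omega
  have hu : Monotone fun j => a + j * l := fun i j h => by dsimp only; gcongr
  have hle : ∀ j < J, a + (j + 1) * l ≤ b := fun j hj => (hu (by omega : j + 1 ≤ J)).trans hJ1
  have h1 := chain_le hp X (fun j => (a + j * l) * q + 1) (fun i j h => by dsimp only; gcongr)
    (fun j => surv q (a + j * l) (a + (j + 1) * l)) (c := Real.exp (-(l / q) + 5 * (1 / L ^ 4)))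
    (Real.exp_pos _).le J (fun j _ => surv_dep le_rfl) (fun j => surv_nonneg _ _ _)
    (fun j hj ω => by
      have e : (((a + (j + 1) * l : ℕ) : ℝ) - (a + j * l : ℕ)) / q = l / q := by
        push_cast; ring
      have h2 := blk_hi hp hq (a := a + j * l) (b := a + (j + 1) * l) (X := X) (by omega)
        (le_trans (by exact_mod_cast hle j hj) hb) le_rfl
        (le_trans (by gcongr; exact hle j hj) hX) (l := 1 / L ^ 2) (by positivity) (e ▸ l2) ω
      rw [e] at h2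
      refine h2.trans (le_trans ?_ (Real.add_one_le_exp _))
      nlinarith) 1 zero_le_one (fun ω => (ce_one p X _ ω).le)
  simp only [mul_one, zero_mul, add_zero] at h1
  rw [surv_prod q _ hu] at h1
  rw [ce_tower p X hy]
  refine ce_le hp.mem X y (fun ω => ?_) ω
  refine (ce_mono hp.mem X _ (fun ω => ?_) ω).trans ((h1 ω).trans ?_)
  · by_cases h : Nh q a b ω
    · rw [surv_of h, surv_of (h.sub (by simp) hJ1)]
    · rw [surv_of_not h]; exact surv_nonneg _ _ _ _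
  · rw [← Real.exp_nat_mul, Real.exp_le_exp]
    have h2 : (b : ℝ) ≤ a + J * l + l := by exact_mod_cast hJ2.le
    have h3 : ((b : ℝ) - a) / q ≤ J * (l / q) + l / q := by
      rw [← mul_div_assoc, ← add_div]; gcongr; linarith
    have h4 := mul_le_mul_of_nonneg_right hJ (show 0 ≤ 1 / L ^ 4 by positivity)
    rw [show 21 / L = 21 * (1 / L) by ring]
    nlinarith

lemma exp_le_one_sub {u : ℝ} (h0 : 0 ≤ u) (h : u ≤ 1 / 2) : Real.exp (-(u + 2 * u ^ 2)) ≤ 1 - u := by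
  rw [Real.exp_neg, inv_le_comm₀ (Real.exp_pos _) (by linarith)]
  refine le_trans ?_ (Real.add_one_le_exp _)
  rw [inv_le_iff_one_le_mul₀ (by linarith)]
  nlinarith [mul_nonneg (mul_nonneg h0 h0) (show 0 ≤ 1 - 2 * u by linarith)]

theorem surv_lo {p : ℕ → ℝ} (hp : Cr p) {q X b : ℕ} (hq : Big q) (hab : 1 ≤ b)
    (hb : (b : ℝ) ≤ 2 * q * Real.log q) (hX : b * q + 1 ≤ X) (ω : Cf) :
    Real.exp (-((b : ℝ) / q) - 60 / Real.log q) ≤ ce p X 0 (surv q 0 b) ω := by
  have hL := hq.1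
  have hq1 := hq.ge'
  have hq0 : (0 : ℝ) < q := by linarith [hq.ge]
  obtain ⟨l1, l2, -⟩ := bl_spec hq
  have hJ := nblk (a := 1) hq hb
  obtain ⟨s1, s2, s3, s4, s5, s6, s7, s8⟩ := small_pows hL
  have hq3 := hq.pow_le (j := 4) (by norm_num)
  have hlg := hq.log_le (m := q + 1) (by omega) (by push_cast; nlinarith [hq.ge])
  set L := Real.log q
  set l := bl q
  set J := (b - 1) / l with hJd
  have hJ1 : 1 + J * l ≤ b := by
    have : J * l ≤ b - 1 := Nat.div_mul_le_self (b - 1) l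
    omega
  have hJ2 : b < 1 + J * l + l := by
    have : b - 1 < J * l + l := Nat.lt_div_mul_add l1
    omega
  have hu : Monotone fun j => min b (1 + j * l) := fun i j h => by dsimp only; gcongr
  have hl0 : (0 : ℝ) ≤ l / q := by positivity
  have h1 := le_chain hp X (fun j => min b (1 + j * l) * q + 1) (fun i j h => by dsimp only; gcongr)
    (fun j => surv q (min b (1 + j * l)) (min b (1 + (j + 1) * l)))
    (c := Real.exp (-(l / q + 9 * (1 / L ^ 4)))) (J + 1) (fun j _ => surv_dep le_rfl)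
    (fun j => surv_nonneg _ _ _) (Real.exp_pos _).le (fun j hj ω => by
      have e : min b (1 + (j + 1) * l) ≤ min b (1 + j * l) + l := by rw [add_mul]; omega
      have e' : ((min b (1 + (j + 1) * l) : ℕ) : ℝ) ≤ (min b (1 + j * l) : ℕ) + l := by
        exact_mod_cast e
      have h2 := blk_lo hp hq (a := min b (1 + j * l)) (b := min b (1 + (j + 1) * l)) (X := X)
        (by omega) (le_trans (by exact_mod_cast min_le_left _ _) hb) le_rfl
        (le_trans (by gcongr; exact min_le_left _ _) hX) (l := l / q) hl0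
        (by gcongr; linarith) ω
      refine le_trans ?_ ((exp_le_one_sub (by positivity) (by linarith)).trans h2)
      rw [Real.exp_le_exp]
      have h3 : (l / q + 1 / L ^ 8) ^ 2 ≤ (2 * (1 / L ^ 2)) ^ 2 :=
        pow_le_pow_left₀ (by positivity) (by linarith) 2
      nlinarith) 1 zero_le_one (fun ω => (ce_one p X _ ω).ge)
  simp only [mul_one] at h1
  rw [surv_prod q _ hu, zero_mul, add_zero, min_eq_right hab,
    min_eq_left (by rw [add_mul]; omega)] at h1
  rw [← surv_mul q zero_le_one hab]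
  refine le_trans ?_ (le_ce_mul hp.mem X (Nat.zero_le _) (surv_dep le_rfl) (surv_nonneg _ _ _) h1 ω)
  have h2 : 1 - 3 * (1 / L) ≤ ce p X 0 (surv q 0 1) ω := by
    rw [ce_tower p X (Nat.zero_le 8)]
    refine le_ce hp.mem X 0 (fun ω => ?_) ω
    have h3 : surv q 0 1 = 1 - hit q (q + 1) := by funext ω; simp [surv_eq]
    have h4 := anti hp (q := q) (X := X) (y := 8) (x := q + 1) (by omega) le_rfl (by omega)
      (le_trans (by have := Nat.le_mul_of_pos_left q hab; omega) hX) (R := L) (by linarith) hlg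
      (by push_cast; nlinarith [pow_pos (show 0 < L by linarith) 3]) ω
    have h5 : 1 / (q : ℝ) ≤ 1 / L ^ 4 := one_div_le_one_div_of_le (by positivity) hq3
    rw [h3, map_sub, Pi.sub_apply, ce_one]
    rw [show 2 / L = 2 * (1 / L) by ring] at h4
    linarith
  have h3 := exp_le_one_sub (u := 3 * (1 / L)) (by positivity) (by linarith)
  refine le_trans ?_ (mul_le_mul_of_nonneg_left (h3.trans h2) (by positivity))
  rw [← Real.exp_nat_mul, ← Real.exp_add, Real.exp_le_exp]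
  have h4 : (1 : ℝ) + J * l ≤ b := by exact_mod_cast hJ1
  have h5 : J * ((l : ℝ) / q) ≤ b / q := by rw [← mul_div_assoc]; gcongr; linarith
  have h6 := mul_le_mul_of_nonneg_right hJ (show 0 ≤ 1 / L ^ 4 by positivity)
  have h7 : 0 < 1 / L := by positivity
  rw [show 60 / L = 60 * (1 / L) by ring]
  push_cast
  nlinarith

end P52
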