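import Pool.Agent.Lib.P52.R4

/-!
Two moduli at once.
-/

set_option autoImplicit false

namespace P52

open Finset

lemma later {p : ℕ → ℝ} (hp : Cr p) {n q X y b : ℕ} (hn : Big n) (hq : Big q) (hnq : n ≤ q)
    (hy : 8 ≤ y) (S : Finset ℕ) {R l : ℝ} (hR : 0 < R)
    (hS : ∀ j ∈ S, y + 3 * Real.log n * R ^ 2 ≤ (j * q + 1 : ℕ) ∧ j ≤ b)
    (hb : (b : ℝ) * q ≤ 2 * n ^ 2 * Real.log n) (hX : b * q + 1 ≤ X) (h0 : 0 ≤ l)
    (hl : ((b : ℝ) * q + 1 - y) / q ^ 2 ≤ l) (ω : Cf) :
    ∑ j ∈ S, ce p X y (hit q (j * q + 1)) ω ≤ 1 / n + 2 / R + l + 1 / Real.log n ^ 8 := by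
  have hL := hn.1
  have hn0 : (0 : ℝ) < n := by linarith [hn.ge]
  have hnq' : (n : ℝ) ≤ q := by exact_mod_cast hnq
  have hq0 : (0 : ℝ) < q := by linarith
  have hLL : Real.log n ≤ Real.log q := Real.log_le_log hn0 hnq'
  rcases S.eq_empty_or_nonempty with rfl | hne
  · rw [sum_empty]; positivity
  obtain ⟨j, hj, hm⟩ := exists_min_image S id hne
  obtain ⟨j1, j2⟩ := hS j hj
  have j3 : y ≤ j * q + 1 := by
    have : (y : ℝ) ≤ (j * q + 1 : ℕ) := le_trans (le_add_of_nonneg_right (by positivity)) j1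
    exact_mod_cast this
  have j4 : 1 ≤ j := by
    rcases Nat.eq_zero_or_pos j with rfl | h
    · omega
    · exact h
  have j5 : j * q ≤ b * q := Nat.mul_le_mul_right _ j2
  have j6 : (j : ℝ) * q ≤ b * q := by exact_mod_cast j5
  have hb2 : (b : ℝ) ≤ 2 * q * Real.log q := by
    have : (b : ℝ) * q ≤ 2 * q * Real.log q * q := by
      refine hb.trans ?_
      rw [show 2 * (q : ℝ) * Real.log q * q = 2 * q ^ 2 * Real.log q by ring]
      gcongr
    exact le_of_mul_le_mul_right this hq0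
  have h1 := anti hp (q := q) (X := X) (by have := hq.ge'; omega) hy j3 (by omega) hR
    (hn.log_le (by omega) (by push_cast; nlinarith [hn.ge])) j1 ω
  have h2 := hits_hi hp hq j4 hb2 j3 hX h0 (le_trans (by
    have : (y : ℝ) ≤ j * q + 1 := by exact_mod_cast j3
    rw [div_le_div_iff₀ hq0 (by positivity)]
    nlinarith) hl) ω
  rw [ce_hits] at h2
  have h3 : ∑ i ∈ S, ce p X y (hit q (i * q + 1)) ω ≤
      ∑ i ∈ insert j (Ioc j b), ce p X y (hit q (i * q + 1)) ω :=
    sum_le_sum_of_subset_of_nonneg (fun i hi => by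
      have a1 : j ≤ i := hm i hi
      have a2 := (hS i hi).2
      rw [mem_insert, mem_Ioc]; omega) fun i _ _ => le_ce hp.mem X y (hit_nonneg _ _) ω
  rw [sum_insert (by simp)] at h3
  have h4 : 1 / (q : ℝ) ≤ 1 / n := one_div_le_one_div_of_le hn0 hnq'
  have h5 : 1 / Real.log q ^ 8 ≤ 1 / Real.log n ^ 8 := by gcongr
  linarith

lemma dvd_both {g a0 a1 c : ℕ} (hc : a0.Coprime a1) (hg : 0 < g) (h0 : a0 * g ∣ c)
    (h1 : a1 * g ∣ c) : a1 * (a0 * g) ∣ c := by
  obtain ⟨u, rfl⟩ := h0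
  rw [mul_right_comm] at h1
  obtain ⟨v, rfl⟩ := hc.symm.dvd_of_dvd_mul_left (Nat.dvd_of_mul_dvd_mul_right hg h1)
  exact ⟨v, by ring⟩

lemma near_card {g a0 a1 a b W : ℕ} (hc : a0.Coprime a1) (hg : 0 < g) (h1 : 0 < a1)
    (hb : b ≤ a + a1 * g) (s' : Finset ℕ) :
    ((Ioc a b ×ˢ s').filter fun x => x.1 * (a0 * g) ≠ x.2 * (a1 * g) ∧
      x.1 * (a0 * g) < x.2 * (a1 * g) + W ∧ x.2 * (a1 * g) < x.1 * (a0 * g) + W).card ≤
      (W + 1) * (2 * W) := by
  classical
  have h := card_le_mul_card_image_of_maps_to (s := (Ioc a b ×ˢ s').filter fun x =>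
      x.1 * (a0 * g) ≠ x.2 * (a1 * g) ∧ x.1 * (a0 * g) < x.2 * (a1 * g) + W ∧
        x.2 * (a1 * g) < x.1 * (a0 * g) + W) (t := range (2 * W))
    (f := fun x => x.1 * (a0 * g) + W - x.2 * (a1 * g)) (fun x hx => by
      have := (mem_filter.1 hx).2
      rw [mem_range]; omega) (W + 1) fun e _ => by
      rw [← card_range (W + 1)]
      refine card_le_card_of_injOn (fun x => (x.1 - a) / a1) (fun x hx => ?_) fun x hx z hz hxz => ?_
      · simp only [coe_filter, mem_filter, mem_product, mem_Ioc, Set.mem_ofPred_eq] at hx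
        obtain ⟨⟨⟨x1, -⟩, x2, x3, x4⟩, -⟩ := hx
        have hW : g ≤ W := by
          rw [← mul_assoc, ← mul_assoc] at x2 x3 x4
          rcases lt_trichotomy (x.1 * a0) (x.2 * a1) with h | h | h
          · have := Nat.mul_le_mul_right g (Nat.succ_le_of_lt h)
            rw [Nat.succ_mul] at this; omega
          · exact absurd (by rw [h]) x2
          · have := Nat.mul_le_mul_right g (Nat.succ_le_of_lt h)
            rw [Nat.succ_mul] at this; omega
        simp only [coe_range, Set.mem_Iio]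
        rw [Nat.div_lt_iff_lt_mul h1, add_mul, mul_comm W]
        have := Nat.mul_le_mul_left a1 hW
        omega
      · simp only [coe_filter, mem_filter, mem_product, mem_Ioc, Set.mem_ofPred_eq] at hx hz
        obtain ⟨⟨⟨x1, -⟩, -, -, x4⟩, x5⟩ := hx
        obtain ⟨⟨⟨z1, -⟩, -, -, z4⟩, z5⟩ := hz
        have e1 : (x.1 * a0 + z.2 * a1) * g = (z.1 * a0 + x.2 * a1) * g := by
          simp only [add_mul, mul_assoc]; omega
        have e2 := Nat.eq_of_mul_eq_mul_right hg e1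
        have e3 : x.1 * a0 ≡ z.1 * a0 [MOD a1] := by
          have := congrArg (· % a1) e2
          simpa [Nat.ModEq] using this
        have e4 : x.1 ≡ z.1 [MOD a1] := Nat.ModEq.cancel_right_of_coprime hc.symm e3
        have e5 : x.1 - a ≡ z.1 - a [MOD a1] := Nat.ModEq.add_right_cancel' a (by
          rwa [Nat.sub_add_cancel x1.1.le, Nat.sub_add_cancel z1.1.le])
        have e6 : x.1 - a = z.1 - a := by
          rw [← Nat.div_add_mod (x.1 - a) a1, ← Nat.div_add_mod (z.1 - a) a1, e5]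
          simp only at hxz
          rw [hxz]
        have e7 : x.1 = z.1 := by omega
        rw [e7] at e2
        exact Prod.ext e7 (Nat.eq_of_mul_eq_mul_right h1 (by omega))
  rwa [card_range] at h

lemma ce_nonneg {p : ℕ → ℝ} (hp : Cr p) (X y : ℕ) {g : Cf → ℝ} (h : ∀ ω, 0 ≤ g ω) (ω : Cf) :
    0 ≤ ce p X y g ω := le_ce hp.mem X y h ω

lemma far_le {p : ℕ → ℝ} (hp : Cr p) (X y q q' : ℕ) (s s' : Finset ℕ) (c : ℕ → ℕ → Prop)
    [∀ i j, Decidable (c i j)] (hy : ∀ k ∈ s, y ≤ k * q + 1) {τ : ℝ}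
    (h : ∀ k ∈ s, ∀ ω, ∑ j ∈ s'.filter (c k), ce p X (k * q + 1) (hit q' (j * q' + 1)) ω ≤ τ)
    (ω : Cf) :
    ∑ k ∈ s, ∑ j ∈ s', (if c k j then ce p X y (hit q (k * q + 1) * hit q' (j * q' + 1)) ω else 0) ≤
      τ * ∑ k ∈ s, ce p X y (hit q (k * q + 1)) ω := by
  rw [mul_sum]
  refine sum_le_sum fun k hk => ?_
  rw [← sum_filter, ← Finset.sum_apply, ← map_sum, ← mul_sum]
  refine ce_mul_le hp.mem X (hy k hk) (hit_dep _ _) (hit_nonneg _ _) (fun ω => ?_) ω
  rw [map_sum, Finset.sum_apply]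
  exact h k hk ω

lemma cross_le {p : ℕ → ℝ} (hp : Cr p) {g a0 a1 n n' X a b : ℕ} (hc : a0.Coprime a1)
    (e0 : n = a0 * g) (e1 : n' = a1 * g) (hall : ∀ q, n ≤ q → Big q) (hnn : n ≤ n') (ha : 1 ≤ a)
    (hb : (b : ℝ) ≤ 2 * n * Real.log n) (hX : b * n + 1 ≤ X) {l : ℝ} (h0 : 0 ≤ l)
    (hl : ((b : ℝ) - a) / n ≤ l) (hl1 : l ≤ 1) (ω : Cf) :
    ce p X (a * n + 1) (hits n a b * hits n' (a * n / n' + 1) (b * n / n')) ω ≤
      2 * (l + 4 * (1 / Real.log n ^ 5)) ^ 2 + l / a1 ^ 2 + 5 * (1 / Real.log n ^ 5) := by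
  classical
  have hn := hall n le_rfl
  have hn' := hall n' hnn
  have hL := hn.1
  have hn1 := hn.ge'
  have hn0 : (0 : ℝ) < n := by linarith [hn.ge]
  have hnn' : (n : ℝ) ≤ n' := by exact_mod_cast hnn
  have hg : 0 < g := Nat.pos_of_ne_zero (by rintro rfl; omega)
  have ha1 : 0 < a1 := Nat.pos_of_ne_zero (by rintro rfl; omega)
  have hboth : ∀ c, n ∣ c → n' ∣ c → a1 * n ∣ c := fun c u v => by
    rw [e0]; exact dvd_both hc hg (e0 ▸ u) (e1 ▸ v)
  have hnear := fun W => near_card (W := W) (a := a) (b := b) hc hg ha1 (by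
    rw [← e1]
    rw [div_le_iff₀ hn0] at hl
    have : (b : ℝ) ≤ a + n' := by nlinarith
    exact_mod_cast this) (Ioc (a * n / n' + 1) (b * n / n'))
  rw [← e0, ← e1] at hnear
  clear e0 e1 hc hg
  obtain ⟨s1, s2, -⟩ := small_pows hL
  have hq5 := hn.pow_le (j := 5) (by norm_num)
  have hq100 := hn.2
  have han : n ≤ a * n := Nat.le_mul_of_pos_left n ha
  have hLL : Real.log n ≤ Real.log n' := Real.log_le_log hn0 hnn'
  set L := Real.log n with hLd
  have hL0 : 0 < L := by linarith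
  have hpw : ∀ i j : ℕ, i < j → 1000 * L ^ i ≤ L ^ j := fun i j h => by
    calc 1000 * L ^ i ≤ L ^ (i + 1) := by rw [pow_succ']; gcongr
      _ ≤ L ^ j := pow_le_pow_right₀ (by linarith) h
  set W := ⌈3 * L ^ 11⌉₊ with hW
  have hW1 : 3 * L * (L ^ 5) ^ 2 ≤ W := le_trans (le_of_eq (by ring)) (Nat.le_ceil _)
  have hW2 : (W : ℝ) + 1 ≤ 4 * L ^ 11 := by
    have := Nat.ceil_lt_add_one (show 0 ≤ 3 * L ^ 11 by positivity)
    have h1 := hpw 0 11 (by norm_num)
    rw [pow_zero] at h1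
    linarith
  have hbn : (b : ℝ) * n ≤ 2 * n ^ 2 * L := by nlinarith
  set A := a * n / n' + 1 with hA
  set B := b * n / n' with hB
  clear hW
  have hA1 : a * n < A * n' := by
    rw [hA, add_mul, one_mul]; exact Nat.lt_div_mul_add (by omega)
  have hB1 : B * n' ≤ b * n := Nat.div_mul_le_self _ _
  have hB2 : (B : ℝ) * n' ≤ b * n := by exact_mod_cast hB1
  have hA0 : 1 ≤ A := Nat.le_add_left 1 _
  clear hA hB
  have hn0' : (0 : ℝ) < n' := by linarith
  have m1 := hnear W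
  clear_value A B W
  clear hnear
  have hi : 1 / (n : ℝ) ≤ 1 / L ^ 5 := one_div_le_one_div_of_le (by positivity) hq5
  have hR : 2 / L ^ 5 = 2 * (1 / L ^ 5) := by ring
  have hln : (b : ℝ) * n - a * n ≤ l * n ^ 2 := by
    rw [div_le_iff₀ hn0] at hl; nlinarith
  have hsq : l * (n : ℝ) ^ 2 ≤ l * n' ^ 2 := by gcongr
  let c : ℕ → ℕ → ℝ := fun k j =>
    ce p X (a * n + 1) (hit n (k * n + 1) * hit n' (j * n' + 1)) ω
  have hc0 : ∀ k j, 0 ≤ c k j := fun k j =>
    ce_nonneg hp _ _ (fun ω => mul_nonneg (hit_nonneg _ _ _) (hit_nonneg _ _ _)) ω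
  have hd : ∀ u, 0 ≤ ce p X (a * n + 1) (hit (a1 * n) u) ω := fun u =>
    ce_nonneg hp _ _ (hit_nonneg _ _) ω
  have hkn : ∀ k ∈ Ioc a b, a * n + n ≤ k * n ∧ k * n ≤ b * n := fun k hk =>
    ⟨by rw [← add_one_mul]; exact Nat.mul_le_mul_right _ (mem_Ioc.1 hk).1,
      Nat.mul_le_mul_right _ (mem_Ioc.1 hk).2⟩
  have hjn : ∀ j ∈ Ioc A B, a * n ≤ j * n' ∧ j * n' ≤ b * n := fun j hj =>
    ⟨hA1.le.trans (Nat.mul_le_mul_right _ (mem_Ioc.1 hj).1.le),
      (Nat.mul_le_mul_right _ (mem_Ioc.1 hj).2).trans hB1⟩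
  have h1 : ce p X (a * n + 1) (hits n a b * hits n' A B) ω ≤ ∑ k ∈ Ioc a b, ∑ j ∈ Ioc A B,
      ((if k * n + W ≤ j * n' then c k j else 0) + (if j * n' + W ≤ k * n then c k j else 0) +
        (if k * n = j * n' then ce p X (a * n + 1) (hit (a1 * n) (k * n + 1)) ω else 0) +
        (if k * n ≠ j * n' ∧ k * n < j * n' + W ∧ j * n' < k * n + W then 3 * (1 / L ^ 30)
          else 0)) := by
    rw [hits, hits, sum_mul_sum, map_sum, Finset.sum_apply]
    refine sum_le_sum fun k hk => ?_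
    rw [map_sum, Finset.sum_apply]
    refine sum_le_sum fun j _ => ?_
    change c k j ≤ _
    have p1 := hc0 k j
    have p2 := hd (k * n + 1)
    have p3 : 0 ≤ 3 * (1 / L ^ 30) := by positivity
    have q3 : k * n = j * n' → c k j ≤ ce p X (a * n + 1) (hit (a1 * n) (k * n + 1)) ω := fun h =>
      ce_mono hp.mem _ _ (fun ω => by
        simp only [Pi.mul_apply, hit, ← h]
        split_ifs with u v w <;> try norm_num
        exact w (hboth _ u v)) ω
    have q4 : c k j ≤ 3 * (1 / L ^ 30) := by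
      obtain ⟨k1, k2⟩ := hkn k hk
      have k3 : (a : ℝ) * n + n ≤ k * n := by exact_mod_cast k1
      have k4 : (k : ℝ) * n ≤ b * n := by exact_mod_cast k2
      have u := anti hp (q := n) (X := X) (y := a * n + 1) (x := k * n + 1) (by omega) (by omega)
        (by omega) (by omega) (R := L ^ 30) (by positivity)
        (hn.log_le (by omega) (by push_cast; nlinarith [hn.ge])) (by
          have := hpw 61 100 (by norm_num)
          have e : 3 * L * (L ^ 30) ^ 2 = 3 * L ^ 61 := by ring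
          push_cast
          linarith [pow_pos hL0 61]) ω
      have v : 1 / (n : ℝ) ≤ 1 / L ^ 30 :=
        one_div_le_one_div_of_le (by positivity) (hn.pow_le (by norm_num))
      have w := ce_mono hp.mem X (a * n + 1) (g := hit n (k * n + 1) * hit n' (j * n' + 1))
        (h := hit n (k * n + 1)) (fun ω => mul_le_of_le_one_right (hit_nonneg _ _ _)
          (hit_le_one _ _ _)) ω
      rw [show 2 / L ^ 30 = 2 * (1 / L ^ 30) by ring] at u
      simp only [c]
      linarith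
    split_ifs with u v w z <;> first | linarith | linarith [q3 ‹_›] | omega
  simp only [sum_add_distrib] at h1
  have t1 := far_le hp X (a * n + 1) n n' (Ioc a b) (Ioc A B) (fun k j => k * n + W ≤ j * n')
    (fun k hk => by have := hkn k hk; omega) (τ := l + 4 * (1 / L ^ 5)) (fun k hk ω => by
      obtain ⟨k1, k2⟩ := hkn k hk
      have k3 : (a : ℝ) * n + n ≤ k * n := by exact_mod_cast k1
      have := later hp hn hn' hnn (X := X) (y := k * n + 1) (b := B) (by omega)
        ((Ioc A B).filter fun j => k * n + W ≤ j * n') (R := L ^ 5) (l := l) (by positivity)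
        (fun j hj => by
          obtain ⟨j1, j2⟩ := mem_filter.1 hj
          have j3 : (k : ℝ) * n + W ≤ j * n' := by exact_mod_cast j2
          exact ⟨by push_cast; linarith, (mem_Ioc.1 j1).2⟩) (by linarith) (by omega) h0
        (by rw [div_le_iff₀ (by positivity)]; push_cast; linarith) ω
      linarith) ω
  have t2 := far_le hp X (a * n + 1) n' n (Ioc A B) (Ioc a b) (fun j k => j * n' + W ≤ k * n)
    (fun j hj => by have := hjn j hj; omega) (τ := l + 4 * (1 / L ^ 5)) (fun j hj ω => by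
      obtain ⟨k1, k2⟩ := hjn j hj
      have k3 : (a : ℝ) * n ≤ j * n' := by exact_mod_cast k1
      have := later hp hn hn le_rfl (X := X) (y := j * n' + 1) (b := b) (by omega)
        ((Ioc a b).filter fun k => j * n' + W ≤ k * n) (R := L ^ 5) (l := l) (by positivity)
        (fun k hk => by
          obtain ⟨j1, j2⟩ := mem_filter.1 hk
          have j3 : (j : ℝ) * n' + W ≤ k * n := by exact_mod_cast j2
          exact ⟨by push_cast; linarith, (mem_Ioc.1 j1).2⟩) hbn hX h0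
        (by rw [div_le_iff₀ (by positivity)]; push_cast; linarith) ω
      linarith) ω
  rw [sum_comm] at t2
  simp only [mul_comm (hit n' _)] at t2
  rw [← ce_hits] at t1 t2
  have u1 := hits_hi hp hn ha hb le_rfl hX h0 hl ω
  have hA2 : (a : ℝ) * n ≤ A * n' := by exact_mod_cast hA1.le
  have u2 := hits_hi hp hn' (a := A) (b := B) (X := X) (y := a * n + 1) hA0 (by
    have : (B : ℝ) * n' ≤ 2 * n' * Real.log n' * n' := by
      refine (hB2.trans hbn).trans ?_
      rw [show 2 * (n' : ℝ) * Real.log n' * n' = 2 * n' ^ 2 * Real.log n' by ring]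
      gcongr
    exact le_of_mul_le_mul_right this hn0') (by omega) (by omega) h0 (by
    rw [div_le_iff₀ hn0']
    refine le_of_mul_le_mul_right ?_ hn0'
    nlinarith) ω
  have u3 : 1 / Real.log n' ^ 8 ≤ 1 / L ^ 8 := by gcongr
  have hτ : 0 ≤ l + 4 * (1 / L ^ 5) := by positivity
  have v1 := t1.trans (mul_le_mul_of_nonneg_left (u1.trans
    (show _ ≤ l + 4 * (1 / L ^ 5) by linarith)) hτ)
  have v2 := t2.trans (mul_le_mul_of_nonneg_left (u2.trans
    (show _ ≤ l + 4 * (1 / L ^ 5) by linarith)) hτ)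
  have hdv : ∀ x : ℕ × ℕ, x.1 * n = x.2 * n' → x.1 * n / (a1 * n) * (a1 * n) = x.1 * n :=
    fun x hx => Nat.div_mul_cancel (hboth _ (Dvd.intro_left _ rfl) (Dvd.intro_left _ hx.symm))
  have hl0 : n ≤ a1 * n := Nat.le_mul_of_pos_left n ha1
  have v3 : ∑ k ∈ Ioc a b, ∑ j ∈ Ioc A B,
      (if k * n = j * n' then ce p X (a * n + 1) (hit (a1 * n) (k * n + 1)) ω else 0) ≤
      l / a1 ^ 2 + 4 * (1 / L ^ 5) := by
    have m0 : b * n / (a1 * n) * (a1 * n) ≤ b * n := Nat.div_mul_le_self _ _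
    have m2 : ((b * n / (a1 * n) : ℕ) : ℝ) * (a1 * n : ℕ) ≤ b * n := by exact_mod_cast m0
    have m3 : (0 : ℝ) < a1 := by exact_mod_cast ha1
    have := later hp hn (hall _ hl0) hl0 (X := X) (y := a * n + 1) (b := b * n / (a1 * n))
      (by omega) (((Ioc a b ×ˢ Ioc A B).filter fun x => x.1 * n = x.2 * n').image
        fun x => x.1 * n / (a1 * n)) (R := L ^ 5) (l := l / a1 ^ 2) (by positivity)
      (fun j hj => by
        obtain ⟨x, hx, rfl⟩ := mem_image.1 hj
        obtain ⟨x1, x2⟩ := mem_filter.1 hx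
        obtain ⟨k1, k2⟩ := hkn _ (mem_product.1 x1).1
        have k3 : (a : ℝ) * n + n ≤ x.1 * n := by exact_mod_cast k1
        refine ⟨?_, Nat.div_le_div_right k2⟩
        rw [hdv x x2]
        have := hpw 11 100 (by norm_num)
        push_cast
        linarith [pow_pos hL0 11]) (m2.trans hbn) (by omega) (by positivity) (by
        rw [div_le_iff₀ (by positivity)]
        have e : l / a1 ^ 2 * ((a1 * n : ℕ) : ℝ) ^ 2 = l * n ^ 2 := by push_cast; field_simp
        rw [e, Nat.cast_add, Nat.cast_mul a, Nat.cast_one]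
        linarith) ω
    rw [sum_image (fun x hx z hz h => by
      obtain ⟨-, x2⟩ := mem_filter.1 hx
      obtain ⟨-, z2⟩ := mem_filter.1 hz
      have e : x.1 * n = z.1 * n := by rw [← hdv x x2, ← hdv z z2, h]
      exact Prod.ext (Nat.eq_of_mul_eq_mul_right (by omega) e)
        (Nat.eq_of_mul_eq_mul_right (by omega : 0 < n') (by omega))),
      sum_congr rfl fun x hx => by rw [hdv x (mem_filter.1 hx).2], sum_filter, sum_product] at this
    linarith
  have v4 : ∑ k ∈ Ioc a b, ∑ j ∈ Ioc A B,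
      (if k * n ≠ j * n' ∧ k * n < j * n' + W ∧ j * n' < k * n + W then 3 * (1 / L ^ 30)
        else 0) ≤ 1 / L ^ 5 := by
    rw [← sum_product' (f := fun k j => if k * n ≠ j * n' ∧ k * n < j * n' + W ∧
      j * n' < k * n + W then 3 * (1 / L ^ 30) else 0), ← sum_filter, sum_const, nsmul_eq_mul]
    have m2 : (((W + 1) * (2 * W) : ℕ) : ℝ) ≤ 4 * L ^ 11 * (2 * (4 * L ^ 11)) := by
      push_cast; gcongr; linarith
    calc _ ≤ 4 * L ^ 11 * (2 * (4 * L ^ 11)) * (3 * (1 / L ^ 30)) :=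
          mul_le_mul_of_nonneg_right (le_trans (by exact_mod_cast m1) m2) (by positivity)
      _ = 96 / L ^ 3 * (1 / L ^ 5) := by field_simp; norm_num
      _ ≤ _ := mul_le_of_le_one_left (by positivity) (by
          have := hpw 0 3 (by norm_num)
          rw [div_le_one (by positivity)]; linarith [pow_zero L])
  simp only [c] at h1
  rw [← sq] at v1 v2
  linarith

end P52
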