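import Pool.Agent.Lib.P52.R5

/-!
The joint probability of no hit for two moduli.
-/

set_option autoImplicit false

namespace P52

open Finset

lemma one_sub_surv (q a b : ℕ) (ω : Cf) : 1 - surv q a b ω ≤ hits q a b ω := by
  have := (bonf (u := fun k => hit q (k * q + 1) ω)
    (fun k => ⟨hit_nonneg _ _ _, hit_le_one _ _ _⟩) a b).1
  rw [surv_eq, hits_apply]
  linarith

lemma blk_joint {p : ℕ → ℝ} (hp : Cr p) {g a0 a1 n n' X a m : ℕ} (hc : a0.Coprime a1)
    (e0 : n = a0 * g) (e1 : n' = a1 * g) (hall : ∀ q, n ≤ q → Big q) (hnn : n ≤ n') (ha : 1 ≤ a)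
    (hb : ((a + m : ℕ) : ℝ) ≤ 2 * n * Real.log n) (hX : (a + m) * n + 1 ≤ X)
    (hm : (m : ℝ) / n ≤ 1 / Real.log n ^ 2) (ω : Cf) :
    ce p X (a * n + 1) (surv n a (a + m) * surv n' (a * n / n' + 1) ((a + m) * n / n')) ω ≤
      Real.exp (-(m / n) - (m * n / n' - 2) / n' + m / n / a1 ^ 2 + 17 * (1 / Real.log n ^ 4)) := by
  have hn := hall n le_rfl
  have hn' := hall n' hnn
  have hL := hn.1
  have hn1 := hn.ge'
  have hn0 : (0 : ℝ) < n := by linarith [hn.ge]
  have hnn' : (n : ℝ) ≤ n' := by exact_mod_cast hnn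
  have hn0' : (0 : ℝ) < n' := by linarith
  have hLL : Real.log n ≤ Real.log n' := Real.log_le_log hn0 hnn'
  obtain ⟨s1, s2, s3, s4, s5, s6, s7, s8⟩ := small_pows hL
  have hl0 : (0 : ℝ) ≤ m / n := by positivity
  have e : (((a + m : ℕ) : ℝ) - a) / n = m / n := by push_cast; ring
  have h5 : 0 < 1 / Real.log n ^ 2 := by positivity
  have h1 := cross_le hp hc e0 e1 hall hnn ha hb hX hl0 e.le (by linarith) ω
  clear e0 e1 hc
  have h2 := blk_hi hp hn ha hb le_rfl hX hl0 e.le ω
  have hA1 : a * n < (a * n / n' + 1) * n' := by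
    rw [add_mul, one_mul]; exact Nat.lt_div_mul_add (by omega)
  have hA2 : a * n / n' * n' ≤ a * n := Nat.div_mul_le_self _ _
  have hB1 : (a + m) * n / n' * n' ≤ (a + m) * n := Nat.div_mul_le_self _ _
  have hB2 : (a + m) * n < (a + m) * n / n' * n' + n' := Nat.lt_div_mul_add (by omega)
  have hA0 : 1 ≤ a * n / n' + 1 := Nat.le_add_left 1 _
  have cA1 : (a : ℝ) * n ≤ (a * n / n' + 1 : ℕ) * n' := by exact_mod_cast hA1.le
  have cA2 : ((a * n / n' + 1 : ℕ) : ℝ) * n' ≤ a * n + n' := by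
    have : (a * n / n' + 1) * n' ≤ a * n + n' := by rw [add_mul]; omega
    exact_mod_cast this
  have cB1 : (((a + m) * n / n' : ℕ) : ℝ) * n' ≤ (a + m) * n := by exact_mod_cast hB1
  have cB2 : ((a : ℝ) + m) * n ≤ ((a + m) * n / n' : ℕ) * n' + n' := by exact_mod_cast hB2.le
  generalize a * n / n' + 1 = A at *
  generalize (a + m) * n / n' = B at *
  have h3 := blk_hi hp hn' (a := A) (b := B) (X := X) (y := a * n + 1) hA0 (by
    have : (B : ℝ) * n' ≤ 2 * n' * Real.log n' * n' := by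
      push_cast at hb
      calc (B : ℝ) * n' ≤ 2 * n * Real.log n * n := cB1.trans (by gcongr)
        _ ≤ _ := by gcongr
    exact le_of_mul_le_mul_right this hn0') (by omega) (by omega) hl0 (by
    rw [div_le_div_iff₀ hn0' hn0]
    refine le_of_mul_le_mul_right ?_ hn0'
    have u : ((B : ℝ) - A) * n' * n ≤ m * n * n :=
      mul_le_mul_of_nonneg_right (by linarith) hn0.le
    have v : (m : ℝ) * n * n ≤ m * n' * n' := by gcongr
    linarith) ω
  have h4 := ce_mono hp.mem X (a * n + 1) (g := surv n a (a + m) * surv n' A B)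
    (h := surv n a (a + m) + surv n' A B - 1 + hits n a (a + m) * hits n' A B) (fun ω => by
      simp only [Pi.add_apply, Pi.sub_apply, Pi.mul_apply, Pi.one_apply]
      have u := one_sub_surv n a (a + m) ω
      have u' := sub_nonneg.2 (surv_le_one n a (a + m) ω)
      have := mul_le_mul u (one_sub_surv n' A B ω) (sub_nonneg.2 (surv_le_one _ _ _ _))
        (u'.trans u)
      linarith) ω
  rw [map_add, map_sub, map_add, Pi.add_apply, Pi.sub_apply, Pi.add_apply, ce_one] at h4
  rw [e] at h2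
  have u3 : 1 / Real.log n' ^ 8 ≤ 1 / Real.log n ^ 8 := by gcongr
  have u4 : 0 ≤ 1 / Real.log n' ^ 8 := by have := hn'.1; positivity
  have u5 : (m * n / n' - 2) / n' ≤ ((B : ℝ) - A) / n' := by
    refine div_le_div_of_nonneg_right ?_ hn0'.le
    rw [sub_le_iff_le_add, div_le_iff₀ hn0']
    linarith
  have sq : ∀ x : ℝ, 0 ≤ x → x ≤ 2 * (1 / Real.log n ^ 2) → x ^ 2 ≤ 4 * (1 / Real.log n ^ 4) :=
    fun x a b => (pow_le_pow_left₀ a b 2).trans (le_of_eq (by rw [mul_pow, s7]; norm_num))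
  have v1 := sq (m / n + 1 / Real.log n ^ 8) (by linarith) (by linarith)
  have v2 := sq (m / n + 1 / Real.log n' ^ 8) (by linarith) (by linarith)
  have v3 := sq (m / n + 4 * (1 / Real.log n ^ 5)) (by linarith) (by linarith)
  refine le_trans ?_ (Real.add_one_le_exp _)
  linarith

theorem surv_joint {p : ℕ → ℝ} (hp : Cr p) {g a0 a1 n n' X K K' : ℕ} (hc : a0.Coprime a1)
    (e0 : n = a0 * g) (e1 : n' = a1 * g) (hall : ∀ q, n ≤ q → Big q) (hnn : n ≤ n') (hK0 : 1 ≤ K)
    (hK : (K : ℝ) ≤ 2 * n * Real.log n) (hK' : (K' : ℝ) ≤ 2 * n' * Real.log n')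
    (hKK : K * n ≤ K' * n') (hX : K' * n' + 1 ≤ X) (ω : Cf) :
    ce p X 0 (surv n 0 K * surv n' 0 K') ω ≤
      Real.exp (-(K / n) - K' / n' + K / n / a1 ^ 2 + 100 / Real.log n) := by
  have hn := hall n le_rfl
  have hn' := hall n' hnn
  have hL := hn.1
  have hn1 := hn.ge'
  have hn0 : (0 : ℝ) < n := by linarith [hn.ge]
  have hnn' : (n : ℝ) ≤ n' := by exact_mod_cast hnn
  have hn0' : (0 : ℝ) < n' := by linarith
  have hLL : Real.log n ≤ Real.log n' := Real.log_le_log hn0 hnn'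
  obtain ⟨l1, l2, -⟩ := bl_spec hn
  have hJ := nblk (a := 1) hn hK
  obtain ⟨s1, s2, s3, s4, s5, s6, s7, s8⟩ := small_pows hL
  have hq5 := hn.pow_le (j := 5) (by norm_num)
  have hJ1 : 1 + (K - 1) / bl n * bl n ≤ K := by
    have := Nat.div_mul_le_self (K - 1) (bl n)
    omega
  have hJ2 : K < 1 + (K - 1) / bl n * bl n + bl n := by
    have := Nat.lt_div_mul_add (a := K - 1) l1
    omega
  generalize (K - 1) / bl n = J at *
  generalize bl n = l at *
  have hle : ∀ j < J, 1 + j * l + l ≤ K := fun j hj => by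
    have := Nat.mul_le_mul_right l (Nat.succ_le_of_lt hj)
    rw [Nat.succ_mul] at this
    omega
  have hA1 : (1 + J * l) * n < ((1 + J * l) * n / n' + 1) * n' := by
    rw [add_mul _ 1, one_mul]; exact Nat.lt_div_mul_add (by omega)
  have hA2 : (((1 + J * l) * n / n' + 1 : ℕ) : ℝ) ≤ (1 + J * l) * n / n' + 1 := by
    have := Nat.cast_div_le (α := ℝ) (m := (1 + J * l) * n) (n := n')
    push_cast at this ⊢
    linarith
  have hA0 : 1 ≤ (1 + J * l) * n / n' + 1 := Nat.le_add_left 1 _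
  have h1 := chain_le hp X (fun j => (1 + j * l) * n + 1) (fun i j h => by dsimp only; gcongr)
    (fun j => surv n (1 + j * l) (1 + j * l + l) *
      surv n' ((1 + j * l) * n / n' + 1) ((1 + j * l + l) * n / n'))
    (Real.exp_pos _).le J
    (fun j _ => by
      rw [add_one_mul j, ← add_assoc]
      exact (surv_dep le_rfl).mul (surv_dep (Nat.succ_le_succ (Nat.div_mul_le_self _ _))))
    (fun j ω => mul_nonneg (surv_nonneg _ _ _ _) (surv_nonneg _ _ _ _))
    (fun j hj ω => blk_joint hp hc e0 e1 hall hnn (by omega)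
      (le_trans (by exact_mod_cast hle j hj) hK)
      (by have := Nat.mul_le_mul_right n (hle j hj); omega) l2 ω)
    _ (Real.exp_pos _).le (surv_hi hp hn' hA0 hK' (by omega) hX)
  clear e0 e1 hc
  rw [ce_tower p X (Nat.zero_le ((1 + 0 * l) * n + 1))]
  refine ce_le hp.mem X 0 (fun ω => ?_) ω
  refine (ce_mono hp.mem X _ (fun ω => ?_) ω).trans ((h1 ω).trans ?_)
  · simp only [Pi.mul_apply, Finset.prod_apply]
    by_cases h : Nh n 0 K ω ∧ Nh n' 0 K' ω
    · rw [surv_of h.1, surv_of h.2, surv_of (h.2.sub (Nat.zero_le _) le_rfl),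
        prod_eq_one fun j hj => ?_]
      have u := hle j (mem_range.1 hj)
      rw [surv_of (h.1.sub (Nat.zero_le _) u), surv_of (h.2.sub (Nat.zero_le _) ?_), mul_one]
      refine Nat.div_le_of_le_mul ?_
      rw [mul_comm n']
      exact (Nat.mul_le_mul_right n u).trans hKK
    · have : surv n 0 K ω * surv n' 0 K' ω = 0 := by
        rcases not_and_or.1 h with h | h <;> simp [surv_of_not h]
      rw [this]
      exact mul_nonneg (prod_nonneg fun j _ => mul_nonneg (surv_nonneg _ _ _ _)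
        (surv_nonneg _ _ _ _)) (surv_nonneg _ _ _ _)
  · rw [← Real.exp_nat_mul, ← Real.exp_add, Real.exp_le_exp]
    set L := Real.log n
    have hL0 : 0 < L := by linarith
    have c1 : (1 : ℝ) + J * l ≤ K := by exact_mod_cast hJ1
    have c2 : (K : ℝ) ≤ 1 + J * l + l := by exact_mod_cast hJ2.le
    have d0 : 1 / (n : ℝ) ≤ 1 / L ^ 5 := one_div_le_one_div_of_le (by positivity) hq5
    have d0' : 1 / (n' : ℝ) ≤ 1 / n := one_div_le_one_div_of_le hn0 hnn'
    have d1 : (K : ℝ) / n ≤ 1 / n + J * (l / n) + l / n := by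
      rw [← mul_div_assoc, ← add_div, ← add_div]; gcongr
    have d2 : J * ((l : ℝ) / n / a1 ^ 2) ≤ K / n / a1 ^ 2 := by
      rw [← mul_div_assoc, ← mul_div_assoc]; gcongr; linarith
    have d3 : (((1 + J * l) * n / n' + 1 : ℕ) : ℝ) / n' ≤ J * (l * n / n' / n') + 2 * (1 / n') := by
      have u : (n : ℝ) / n' ≤ 1 := (div_le_one hn0').2 hnn'
      calc _ ≤ (J * (l * n / n') + 2) / (n' : ℝ) := by
            gcongr
            refine hA2.trans ?_
            rw [add_mul, add_div, one_mul, mul_assoc, mul_div_assoc]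
            linarith
        _ = _ := by ring
    have d4 : J * (1 / (n' : ℝ)) ≤ 4 * (1 / L ^ 2) := by
      calc _ ≤ 4 * L ^ 3 * (1 / L ^ 5) := mul_le_mul hJ (d0'.trans d0) (by positivity) (by positivity)
        _ = _ := by field_simp
    have d5 := mul_le_mul_of_nonneg_right hJ (show 0 ≤ 1 / L ^ 4 by positivity)
    have d6 : 21 / Real.log n' ≤ 21 * (1 / L) := by rw [mul_one_div]; gcongr
    have d7 : 0 < 1 / L ^ 2 := by positivity
    rw [show 100 / L = 100 * (1 / L) by ring, sub_div (K' : ℝ),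
      show J * (-((l : ℝ) / n) - (l * n / n' - 2) / n' + l / n / a1 ^ 2 + 17 * (1 / L ^ 4)) =
        -(J * (l / n)) - J * (l * n / n' / n') + 2 * (J * (1 / n')) + J * (l / n / a1 ^ 2) +
          17 * (J * (1 / L ^ 4)) by ring]
    linarith

end P52
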