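import Pool.Agent.Lib.P52.R6

/-!
The variance of the number of moduli without a hit.
-/

set_option autoImplicit false

namespace P52

open Finset

/-- the range of multipliers -/
noncomputable def KK (a : ℝ) (n : ℕ) : ℕ := ⌊n * (Real.log n + Real.log (Real.log n) + a)⌋₊

/-- the main term of the probability of no hit -/
noncomputable def vv (a : ℝ) (n : ℕ) : ℝ := Real.exp (-a) / (n * Real.log n)

lemma vv_nonneg (a : ℝ) (n : ℕ) : 0 ≤ vv a n := by
  have := Real.log_natCast_nonneg n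
  unfold vv; positivity

lemma loglog_bd {n : ℕ} (hn : Big n) :
    2 ≤ Real.log (Real.log n) ∧ Real.log (Real.log n) ≤ Real.log n - 1 := by
  have hL := hn.1
  refine ⟨le_trans (two_le_log (m := 8) le_rfl) (Real.log_le_log (by norm_num) ?_),
    Real.log_le_sub_one_of_pos (by linarith)⟩
  push_cast; linarith

lemma KK_spec {a : ℝ} (ha : -2 ≤ a ∧ a ≤ 0) {n : ℕ} (hn : Big n) :
    1 ≤ KK a n ∧ (KK a n : ℝ) ≤ 2 * n * Real.log n ∧ vv a n ≤ Real.exp (-(KK a n / n)) ∧
      Real.exp (-(KK a n / n)) ≤ vv a n * Real.exp (1 / n) := by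
  have hL := hn.1
  have hn0 : (0 : ℝ) < n := by linarith [hn.ge]
  obtain ⟨h1, h2⟩ := loglog_bd hn
  set t := Real.log n + Real.log (Real.log n) + a with ht
  have h3 : (KK a n : ℝ) ≤ n * t := Nat.floor_le (mul_nonneg hn0.le (by linarith [ha.1]))
  have h4 : n * t < KK a n + 1 := Nat.lt_floor_add_one _
  have h5 : vv a n = Real.exp (-t) := by
    rw [ht, neg_add, neg_add, Real.exp_add, Real.exp_add, Real.exp_neg (Real.log n),
      Real.exp_neg (Real.log _), Real.exp_log hn0, Real.exp_log (by linarith), vv]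
    field_simp
  refine ⟨Nat.le_floor ?_, h3.trans ?_, ?_, ?_⟩
  · rw [Nat.cast_one]; nlinarith [hn.ge, ha.1]
  · nlinarith [ha.2]
  · rw [h5, Real.exp_le_exp, neg_le_neg_iff, div_le_iff₀ hn0]; linarith
  · rw [h5, ← Real.exp_add, Real.exp_le_exp]
    have : t ≤ (KK a n + 1) / n := by rw [le_div_iff₀ hn0]; linarith
    rw [add_div] at this
    linarith

lemma KK_mono {a : ℝ} (ha : -2 ≤ a ∧ a ≤ 0) {n n' : ℕ} (hn : Big n) (h : n ≤ n') :
    KK a n * n ≤ KK a n' * n' := by
  have hL := hn.1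
  have hn0 : (0 : ℝ) < n := by linarith [hn.ge]
  have h' : (n : ℝ) ≤ n' := by exact_mod_cast h
  have h1 := Real.log_le_log hn0 h'
  have h2 := Real.log_le_log (by linarith) h1
  refine Nat.mul_le_mul (Nat.floor_le_floor ?_) h
  exact mul_le_mul h' (by linarith) (by linarith [(loglog_bd hn).1, ha.1]) (by linarith)

lemma vv_le {a : ℝ} (ha : -2 ≤ a ∧ a ≤ 0) {n n' : ℕ} (hn : Big n) (h : n ≤ n') :
    vv a n' ≤ 8 / (n * Real.log n) := by
  have hL := hn.1
  have hn0 : (0 : ℝ) < n := by linarith [hn.ge]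
  have h' : (n : ℝ) ≤ n' := by exact_mod_cast h
  have h1 := Real.log_le_log hn0 h'
  have h2 : Real.exp (-a) ≤ 8 := by
    calc Real.exp (-a) ≤ Real.exp (1 + 1) := Real.exp_le_exp.2 (by linarith [ha.1])
      _ ≤ 8 := by rw [Real.exp_add]; nlinarith [Real.exp_one_lt_d9, Real.exp_pos 1]
  unfold vv
  gcongr

lemma log_succ_bd {n : ℕ} (hn : 1 ≤ n) : 1 / ((n : ℝ) + 1) ≤ Real.log (n + 1) - Real.log n ∧
    Real.log (n + 1) - Real.log n ≤ 1 / n := by
  have h0 : (0 : ℝ) < n := by exact_mod_cast hn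
  have h1 := Real.log_le_sub_one_of_pos (x := n / (n + 1)) (by positivity)
  have h2 := Real.log_le_sub_one_of_pos (x := (n + 1) / n) (by positivity)
  rw [Real.log_div (by positivity) (by positivity)] at h1 h2
  have e1 : (n : ℝ) / (n + 1) - 1 = -(1 / (n + 1)) := by field_simp; ring
  have e2 : ((n : ℝ) + 1) / n - 1 = 1 / n := by field_simp; ring
  constructor <;> linarith

lemma sum_ww {m : ℕ} (hm : 8 ≤ m) (N : ℕ) :
    ∑ n ∈ Ioc m N, 1 / (n * Real.log n ^ 2) ≤ 1 := by
  have h : ∀ N, m ≤ N → ∑ n ∈ Ioc m N, 1 / (n * Real.log n ^ 2) ≤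
      1 / Real.log m - 1 / Real.log N := by
    intro N hN
    induction N, hN using Nat.le_induction with
    | base => simp
    | succ N hN ih =>
      rw [sum_Ioc_succ_top hN]
      have h1 := (log_succ_bd (n := N) (by omega)).1
      have h2 := two_le_log (m := N) (by omega)
      have h3 : 0 < 1 / ((N : ℝ) + 1) := by positivity
      push_cast
      set A := Real.log N
      set B := Real.log (N + 1)
      have h4 : 1 / A - 1 / B = (B - A) / (A * B) := by
        have : B ≠ 0 := by linarith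
        field_simp
      have h5 : 1 / ((N + 1) * B ^ 2) ≤ (B - A) / (A * B) := by
        rw [← div_div]
        exact div_le_div₀ (by linarith) h1 (by nlinarith) (by nlinarith)
      linarith
  rcases le_total m N with hN | hN
  · have h1 := two_le_log hm
    have h2 := two_le_log (hm.trans hN)
    have h3 : 1 / Real.log m ≤ 1 := by rw [div_le_one (by linarith)]; linarith
    have h4 : 0 ≤ 1 / Real.log N := by positivity
    linarith [h N hN]
  · simp [Ioc_eq_empty_of_le hN]

lemma sum_uu {m N : ℕ} (hm : 8 ≤ m) (hN : m ≤ N) :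
    Real.log (Real.log (N + 1 : ℕ)) - Real.log (Real.log (m + 1 : ℕ)) ≤
      ∑ n ∈ Ioc m N, 1 / (n * Real.log n) ∧
    ∑ n ∈ Ioc m N, 1 / (n * Real.log n) ≤ Real.log (Real.log N) - Real.log (Real.log m) := by
  induction N, hN using Nat.le_induction with
  | base => simp
  | succ N hN ih =>
    rw [sum_Ioc_succ_top hN]
    have h1 := (log_succ_bd (n := N) (by omega)).1
    have h1' := (log_succ_bd (n := N + 1) (by omega)).2
    have h2 := two_le_log (m := N) (by omega)
    have h2' := two_le_log (m := N + 1) (by omega)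
    have h2'' := two_le_log (m := N + 1 + 1) (by omega)
    push_cast at *
    set A := Real.log N
    set B := Real.log (N + 1)
    set C := Real.log (N + 1 + 1)
    have h3 := Real.log_le_sub_one_of_pos (x := A / B) (by positivity)
    have h4 := Real.log_le_sub_one_of_pos (x := C / B) (by positivity)
    rw [Real.log_div (by linarith) (by linarith)] at h3 h4
    have h5 : 1 / ((N + 1) * B) ≤ 1 - A / B := by
      rw [← div_div, show 1 - A / B = (B - A) / B by field_simp]
      gcongr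
    have h6 : C / B - 1 ≤ 1 / ((N + 1) * B) := by
      rw [← div_div, show C / B - 1 = (C - B) / B by field_simp]
      gcongr
    constructor <;> linarith [ih.1, ih.2]

lemma exc_card (n T : ℕ) (hn : 0 < n) (s : Finset ℕ) :
    (s.filter fun n' => n < n' ∧ n' / Nat.gcd n n' < T).card ≤ T * T := by
  rw [← card_range T, ← card_product, card_range]
  refine card_le_card_of_injOn (fun n' => (n / Nat.gcd n n', n' / Nat.gcd n n')) (fun x hx => ?_)
    fun x _ z _ h => ?_
  · simp only [coe_filter, Set.mem_ofPred_eq] at hx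
    simp only [coe_product, coe_range, Set.mem_prod, Set.mem_Iio]
    exact ⟨(Nat.div_le_div_right hx.2.1.le).trans_lt hx.2.2, hx.2.2⟩
  · simp only [Prod.mk.injEq] at h
    have h1 := Nat.div_mul_cancel (Nat.gcd_dvd_left n x)
    have h2 := Nat.div_mul_cancel (Nat.gcd_dvd_left n z)
    have h3 : 0 < n / Nat.gcd n x := Nat.pos_of_ne_zero fun h0 => by rw [h0] at h1; omega
    have h4 : Nat.gcd n x = Nat.gcd n z := Nat.eq_of_mul_eq_mul_left h3 (by rw [h1, h.1, h2])
    rw [← Nat.div_mul_cancel (Nat.gcd_dvd_right n x), h.2, h4,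
      Nat.div_mul_cancel (Nat.gcd_dvd_right n z)]

/-- indicator that `n` has no hit up to `KK a n` -/
noncomputable def FF (a : ℝ) (n : ℕ) : Cf → ℝ := surv n 0 (KK a n)

section

variable {p : ℕ → ℝ} (hp : Cr p) {a : ℝ} (ha : -2 ≤ a ∧ a ≤ 0) {n X : ℕ}
include hp ha

lemma FF_lo (hn : Big n) (hX : KK a n * n + 1 ≤ X) (ω : Cf) :
    vv a n - 480 * (1 / (n * Real.log n ^ 2)) ≤ ce p X 0 (FF a n) ω := by
  obtain ⟨k1, k2, k3, -⟩ := KK_spec ha hn
  have hL := hn.1
  have hn0 : (0 : ℝ) < n := by linarith [hn.ge]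
  refine le_trans ?_ (surv_lo hp hn k1 k2 hX ω)
  rw [sub_eq_add_neg (-_), Real.exp_add]
  have h1 := Real.add_one_le_exp (-(60 / Real.log n))
  have h2 := mul_le_mul_of_nonneg_right (vv_le ha hn le_rfl)
    (show 0 ≤ 60 / Real.log n by positivity)
  have h3 : 8 / (n * Real.log n) * (60 / Real.log n) = 480 * (1 / (n * Real.log n ^ 2)) := by
    field_simp; norm_num
  have h4 := mul_le_mul_of_nonneg_left h1 (vv_nonneg a n)
  have h5 := mul_le_mul_of_nonneg_right k3 (Real.exp_pos (-(60 / Real.log n))).le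
  linarith

lemma FF_hi (hn : Big n) (hX : KK a n * n + 1 ≤ X) (ω : Cf) :
    ce p X 0 (FF a n * FF a n) ω ≤ 3 * vv a n := by
  obtain ⟨k1, k2, -, k4⟩ := KK_spec ha hn
  have hL := hn.1
  have hn1 := hn.ge
  have hn0 : (0 : ℝ) < n := by linarith
  refine (ce_mono hp.mem X 0 (h := surv n 1 (KK a n)) (fun ω => ?_) ω).trans
    ((surv_hi hp hn le_rfl k2 (Nat.zero_le _) hX ω).trans ?_)
  · simp only [Pi.mul_apply, FF]
    by_cases h : Nh n 0 (KK a n) ω
    · rw [surv_of h, surv_of (h.sub zero_le_one le_rfl), mul_one]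
    · rw [surv_of_not h, mul_zero]; exact surv_nonneg _ _ _ _
  · have h1 : 1 / (n : ℝ) ≤ 1 / 4 := one_div_le_one_div_of_le (by norm_num) (by linarith)
    have h2 : 21 / Real.log n ≤ 1 / 2 := by rw [div_le_iff₀ (by linarith)]; linarith
    calc _ = Real.exp (-(KK a n / n)) * Real.exp (1 / n + 21 / Real.log n) := by
          rw [← Real.exp_add]; congr 1; push_cast; ring
      _ ≤ vv a n * Real.exp (1 / n) * Real.exp (1 / n + 21 / Real.log n) := by gcongr
      _ ≤ vv a n * 3 := by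
          rw [mul_assoc, ← Real.exp_add]
          refine mul_le_mul_of_nonneg_left ?_ (vv_nonneg a n)
          exact (Real.exp_le_exp.2 (by linarith)).trans (by linarith [Real.exp_one_lt_d9] :
            Real.exp 1 ≤ 3)
      _ = _ := mul_comm _ _

lemma FF_pair {n' : ℕ} (hall : ∀ q, n ≤ q → Big q) (hnn : n < n') (hX : KK a n' * n' + 1 ≤ X)
    (ω : Cf) : ce p X 0 (FF a n * FF a n') ω ≤ vv a n * vv a n' +
      (1664 * (1 / (n * Real.log n ^ 2)) * vv a n' +
        if n' / Nat.gcd n n' < ⌈Real.log n⌉₊ then 1 / (4 * n * Real.log n ^ 4) else 0) := by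
  have hn := hall n le_rfl
  have hn' := hall n' hnn.le
  obtain ⟨k1, k2, -, k4⟩ := KK_spec ha hn
  obtain ⟨-, k2', -, k4'⟩ := KK_spec ha hn'
  have hL := hn.1
  have hn1 := hn.ge'
  have hn0 : (0 : ℝ) < n := by linarith [hn.ge]
  have hnn' : (n : ℝ) ≤ n' := by exact_mod_cast hnn.le
  have hg : 0 < Nat.gcd n n' := Nat.gcd_pos_of_pos_left _ (by omega)
  have e0 := (Nat.div_mul_cancel (Nat.gcd_dvd_left n n')).symm
  have e1 := (Nat.div_mul_cancel (Nat.gcd_dvd_right n n')).symm
  have h1 := surv_joint hp (Nat.coprime_div_gcd_div_gcd hg) e0 e1 hall hnn.le k1 k2 k2'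
    (KK_mono ha hn hnn.le) hX ω
  have h2 : 2 ≤ n' / Nat.gcd n n' := by
    rw [Nat.le_div_iff_mul_le hg]
    obtain ⟨c, hc⟩ := Nat.gcd_dvd_right n n'
    have u := Nat.gcd_le_left n' (show 0 < n by omega)
    have v : 2 ≤ c := by
      rcases c with _ | _ | c <;> omega
    calc 2 * Nat.gcd n n' ≤ c * Nat.gcd n n' := Nat.mul_le_mul_right _ v
      _ = n' := by rw [mul_comm, ← hc]
  clear e0 e1
  generalize n' / Nat.gcd n n' = a1 at *
  have v0 := vv_nonneg a n
  have v0' := vv_nonneg a n'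
  have v1 := vv_le ha hn le_rfl
  have v1' := vv_le ha hn hnn.le
  set L := Real.log n with hLd
  have hL0 : 0 < L := by linarith
  have h3 : (KK a n : ℝ) / n ≤ 2 * L := by rw [div_le_iff₀ hn0]; linarith
  have h4 : 1 / (n : ℝ) ≤ 1 / L := one_div_le_one_div_of_le hL0 (by simpa using hn.pow_le (j := 1))
  have h5 : 1 / (n' : ℝ) ≤ 1 / n := one_div_le_one_div_of_le hn0 hnn'
  have h6 : 1000 * (1 / L) ≤ 1 := (small_pows hL).2.2.2.2.2.1
  have h7 : 0 < 1 / L := by positivity
  have h8 : ce p X 0 (FF a n * FF a n') ω ≤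
      vv a n * vv a n' * Real.exp (102 * (1 / L) + KK a n / n / a1 ^ 2) := by
    calc _ ≤ _ := h1
      _ = Real.exp (-(KK a n / n)) * Real.exp (-(KK a n' / n')) *
          Real.exp (100 * (1 / L) + KK a n / n / a1 ^ 2) := by
          rw [← Real.exp_add, ← Real.exp_add]; congr 1; ring
      _ ≤ vv a n * Real.exp (1 / n) * (vv a n' * Real.exp (1 / n')) *
          Real.exp (100 * (1 / L) + KK a n / n / a1 ^ 2) := by gcongr
      _ ≤ _ := by
          rw [mul_mul_mul_comm, mul_assoc (vv a n * vv a n'), ← Real.exp_add, ← Real.exp_add]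
          exact mul_le_mul_of_nonneg_left (Real.exp_le_exp.2 (by linarith)) (by positivity)
  refine h8.trans ?_
  have c2 : (2 : ℝ) ≤ a1 := by exact_mod_cast h2
  split_ifs with h
  · have u1 : (KK a n : ℝ) / n / a1 ^ 2 ≤ L / 2 := by
      rw [div_le_iff₀ (by positivity)]
      nlinarith [mul_le_mul_of_nonneg_left (show (4 : ℝ) ≤ a1 ^ 2 by nlinarith) hL0.le]
    set s := Real.exp (L / 2) with hs
    have s0 : 0 < s := Real.exp_pos _
    have s1 : s * s = n := by rw [hs, ← Real.exp_add, add_halves, Real.exp_log hn0]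
    have s2 : 1000 * L ^ 2 ≤ s := by
      refine le_of_sq_le_sq ?_ s0.le
      rw [sq s, s1]
      refine le_trans ?_ (hn.pow_le (j := 6) (by norm_num))
      calc (1000 * L ^ 2) ^ 2 ≤ (L * L ^ 2) ^ 2 := by gcongr
        _ = _ := by ring
    have u2 : Real.exp (102 * (1 / L) + KK a n / n / a1 ^ 2) ≤ 3 * s := by
      calc _ ≤ Real.exp (1 + L / 2) := Real.exp_le_exp.2 (by linarith)
        _ ≤ _ := by rw [Real.exp_add]; gcongr; linarith [Real.exp_one_lt_d9]
    have u3 : 8 / (n * L) * (8 / (n * L)) * (3 * s) ≤ 1 / (4 * n * L ^ 4) := by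
      rw [← s1, show 8 / (s * s * L) * (8 / (s * s * L)) * (3 * s) =
        768 * L ^ 2 / s * (1 / (4 * (s * s) * L ^ 4)) by field_simp; norm_num]
      refine mul_le_of_le_one_left (by positivity) ?_
      rw [div_le_one s0]; nlinarith [sq_nonneg L]
    have u4 : vv a n * vv a n' * Real.exp (102 * (1 / L) + KK a n / n / a1 ^ 2) ≤
        8 / (n * L) * (8 / (n * L)) * (3 * s) := by gcongr
    have u5 : 0 ≤ vv a n * vv a n' := by positivity
    have u6 : 0 ≤ 1664 * (1 / (n * L ^ 2)) * vv a n' := by positivity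
    linarith
  · have u0 : L ≤ a1 := (Nat.le_ceil L).trans (by exact_mod_cast not_lt.1 h)
    have u1 : (KK a n : ℝ) / n / a1 ^ 2 ≤ 2 * (1 / L) := by
      calc _ ≤ 2 * L / L ^ 2 := by gcongr
        _ = _ := by field_simp
    have u2 := (abs_le.1 (Real.abs_exp_sub_one_le (x := 104 * (1 / L))
      (by rw [abs_of_pos (by linarith)]; linarith))).2
    rw [abs_of_pos (by linarith)] at u2
    have u3 : Real.exp (102 * (1 / L) + KK a n / n / a1 ^ 2) ≤ 1 + 208 * (1 / L) :=
      (Real.exp_le_exp.2 (by linarith)).trans (show Real.exp (104 * (1 / L)) ≤ _ by linarith)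
    have u4 : vv a n * (208 * (1 / L)) ≤ 1664 * (1 / (n * L ^ 2)) := by
      calc _ ≤ 8 / (n * L) * (208 * (1 / L)) := by gcongr
        _ = _ := by field_simp; norm_num
    have u5 := mul_le_mul_of_nonneg_left u3 (mul_nonneg v0 v0')
    have u6 := mul_le_mul_of_nonneg_right u4 v0'
    linarith

theorem var_le {m N : ℕ} (hall : ∀ q, m ≤ q → Big q) (hX : KK a N * N + 1 ≤ X) (ω : Cf) :
    ce p X 0 (fun ω => (∑ n ∈ Ioc m N, FF a n ω - ∑ n ∈ Ioc m N, vv a n) ^ 2) ω ≤
      5000 * (∑ n ∈ Ioc m N, vv a n + 1) := by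
  classical
  set μ := ∑ n ∈ Ioc m N, vv a n with hμ
  have μ0 : 0 ≤ μ := sum_nonneg fun n _ => vv_nonneg a n
  have hb : ∀ n ∈ Ioc m N, ∀ q, n ≤ q → Big q := fun n hn q hq =>
    hall q ((mem_Ioc.1 hn).1.le.trans hq)
  have hX' : ∀ n ∈ Ioc m N, KK a n * n + 1 ≤ X := fun n hn => by
    have := KK_mono ha (hb n hn n le_rfl) (mem_Ioc.1 hn).2
    omega
  have hw := sum_ww (m := m) (by have := (hall m le_rfl).ge'; omega) N
  have e : (fun ω => (∑ n ∈ Ioc m N, FF a n ω - μ) ^ 2) =
      ∑ n ∈ Ioc m N, ∑ k ∈ Ioc m N, FF a n * FF a k - (2 * μ) • ∑ n ∈ Ioc m N, FF a n +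
        μ ^ 2 • (1 : Cf → ℝ) := by
    funext ω
    simp only [Pi.add_apply, Pi.sub_apply, Pi.smul_apply, Finset.sum_apply, Pi.mul_apply,
      Pi.one_apply, smul_eq_mul, ← sum_mul_sum]
    ring
  simp only [e, map_add, map_sub, map_smul, map_sum, Pi.add_apply, Pi.sub_apply, Pi.smul_apply,
    Finset.sum_apply, smul_eq_mul, ce_one]
  have h1 : μ - 480 ≤ ∑ n ∈ Ioc m N, ce p X 0 (FF a n) ω := by
    have := sum_le_sum fun n hn => FF_lo hp ha (hb n hn n le_rfl) (hX' n hn) ω
    rw [sum_sub_distrib, ← mul_sum] at this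
    linarith
  let D : ℕ → ℕ → ℝ := fun n k => 1664 * (1 / (n * Real.log n ^ 2)) * vv a k +
    if n < k ∧ k / Nat.gcd n k < ⌈Real.log n⌉₊ then 1 / (4 * n * Real.log n ^ 4) else 0
  have D0 : ∀ n k, 0 ≤ D n k := fun n k => by
    have := vv_nonneg a k
    simp only [D]
    split_ifs <;> positivity
  have h2 : ∑ n ∈ Ioc m N, ∑ k ∈ Ioc m N, D n k ≤ 1664 * μ + 1 := by
    have : ∀ n ∈ Ioc m N, ∑ k ∈ Ioc m N, D n k ≤ (1664 * μ + 1) * (1 / (n * Real.log n ^ 2)) := by
      intro n hn
      have hn' := hb n hn n le_rfl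
      have hL := hn'.1
      have hn0 : (0 : ℝ) < n := by linarith [hn'.ge]
      simp only [D]
      rw [sum_add_distrib, ← mul_sum, ← sum_filter, sum_const, nsmul_eq_mul]
      have u1 := exc_card n ⌈Real.log n⌉₊ (by exact_mod_cast hn0) (Ioc m N)
      have u2 : (⌈Real.log n⌉₊ : ℝ) ≤ 2 * Real.log n := by
        linarith [Nat.ceil_lt_add_one (show 0 ≤ Real.log n by linarith)]
      have u3 : (((Ioc m N).filter fun k => n < k ∧ k / Nat.gcd n k < ⌈Real.log n⌉₊).card : ℝ) ≤
          2 * Real.log n * (2 * Real.log n) :=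
        le_trans (by exact_mod_cast u1) (mul_le_mul u2 u2 (by positivity) (by linarith))
      have u4 := mul_le_mul_of_nonneg_right u3
        (show 0 ≤ 1 / (4 * n * Real.log n ^ 4) by positivity)
      have u5 : 2 * Real.log n * (2 * Real.log n) * (1 / (4 * n * Real.log n ^ 4)) =
          1 / (n * Real.log n ^ 2) := by field_simp; norm_num
      linarith
    refine (sum_le_sum this).trans ?_
    rw [← mul_sum]
    exact mul_le_of_le_one_right (by positivity) hw
  have h3 : ∑ n ∈ Ioc m N, ∑ k ∈ Ioc m N, ce p X 0 (FF a n * FF a k) ω ≤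
      ∑ n ∈ Ioc m N, ∑ k ∈ Ioc m N,
        (vv a n * vv a k + (if n = k then 3 * vv a n else 0) + D n k + D k n) := by
    refine sum_le_sum fun n hn => sum_le_sum fun k hk => ?_
    have d1 := D0 n k
    have d2 := D0 k n
    rcases lt_trichotomy n k with h | rfl | h
    · have := FF_pair hp ha (hb n hn) h (hX' k hk) ω
      rw [if_neg h.ne]
      simp only [D, h, true_and] at *
      linarith
    · have := FF_hi hp ha (hb n hn n le_rfl) (hX' n hn) ω
      have := mul_nonneg (vv_nonneg a n) (vv_nonneg a n)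
      rw [if_pos rfl]
      linarith
    · have := FF_pair hp ha (hb k hk) h (hX' n hn) ω
      rw [if_neg h.ne', mul_comm (FF a n)]
      simp only [D, h, true_and] at *
      linarith
  simp only [sum_add_distrib] at h3
  rw [← sum_mul_sum, sum_comm (f := fun n k => D k n), ← hμ,
    sum_congr rfl fun n hn => (sum_ite_eq _ _ _).trans (if_pos hn), ← mul_sum, ← hμ] at h3
  nlinarith [mul_le_mul_of_nonneg_left h1 μ0]

end

end P52
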