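import Pool.Agent.Lib.P52.R7

/-!
The mean number of successes up to `KK a n` and large deviation bounds.
-/

set_option autoImplicit false

namespace P52

open Finset Filter

lemma li_lo {c : ℝ} (hc0 : 0 ≤ c) (hc : c < 1) {m N : ℕ} (hm : 8 ≤ m) (hm' : 1 / (m : ℝ) ≤ 1 - c)
    (hN : m ≤ N) : N / (Real.log N - c) - m / (Real.log m - c) ≤ ∑ j ∈ Ioc m N, 1 / Real.log j := by
  induction N, hN using Nat.le_induction with
  | base => simp
  | succ N hN ih =>
    rw [sum_Ioc_succ_top hN]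
    obtain ⟨h1, h2⟩ := log_succ_bd (n := N) (by omega)
    have h3 := two_le_log (m := N) (by omega)
    have h4 : (m : ℝ) ≤ N := by exact_mod_cast hN
    have h5 : (0 : ℝ) < m := by exact_mod_cast (by omega : 0 < m)
    have h6 : 1 / (N : ℝ) ≤ 1 - c := (one_div_le_one_div_of_le h5 h4).trans hm'
    have h7 : 0 < 1 / ((N : ℝ) + 1) := by positivity
    rw [div_le_iff₀ (by positivity)] at h1
    push_cast
    obtain ⟨a, ha⟩ : ∃ a, Real.log N = a + c := ⟨_, (sub_add_cancel _ c).symm⟩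
    obtain ⟨b, hb⟩ : ∃ b, Real.log (N + 1) = b + c := ⟨_, (sub_add_cancel _ c).symm⟩
    have hab : a ≤ b := by
      have := Real.log_le_log (h5.trans_le h4) (le_add_of_nonneg_right zero_le_one)
      linarith
    simp only [ha, hb, add_sub_cancel_right, add_sub_add_right_eq_sub] at h1 h2 h3 ih ⊢
    have a0 : 0 < a := by linarith
    have b0 : 0 < b := by linarith
    have e : ((N : ℝ) + 1) / b - N / a = (b - (b - a) * (N + 1)) / (a * b) := by field_simp; ring
    have h8 : (b - (b - a) * (N + 1)) / (a * b) ≤ 1 / (b + c) := by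
      rw [div_le_div_iff₀ (by positivity) (by positivity)]
      have u := mul_le_mul_of_nonneg_right (show b - (b - a) * (N + 1) ≤ b - 1 by linarith)
        (show 0 ≤ b + c by linarith)
      nlinarith [mul_le_mul_of_nonneg_left (h2.trans h6) b0.le]
    linarith

lemma li_hi {c : ℝ} (hc1 : 1 < c) (hc : c ≤ 2) {m N : ℕ} (hm : 1 ≤ m)
    (hm' : 2 + 3 / (c - 1) ≤ Real.log m) (hN : m ≤ N) :
    ∑ j ∈ Ioc m N, 1 / Real.log j ≤ N / (Real.log N - c) := by
  have h0 : 3 ≤ 3 / (c - 1) := by rw [le_div_iff₀ (by linarith)]; linarith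
  induction N, hN using Nat.le_induction with
  | base => rw [Ioc_self, sum_empty]; exact div_nonneg (by positivity) (by linarith)
  | succ N hN ih =>
    rw [sum_Ioc_succ_top hN]
    obtain ⟨-, h2⟩ := log_succ_bd (n := N) (by omega)
    have h4 : (m : ℝ) ≤ N := by exact_mod_cast hN
    have h5 : (1 : ℝ) ≤ m := by exact_mod_cast hm
    have h3 := Real.log_le_log (by linarith) h4
    rw [le_div_iff₀ (by linarith)] at h2
    push_cast
    obtain ⟨a, ha⟩ : ∃ a, Real.log N = a + c := ⟨_, (sub_add_cancel _ c).symm⟩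
    obtain ⟨b, hb⟩ : ∃ b, Real.log (N + 1) = b + c := ⟨_, (sub_add_cancel _ c).symm⟩
    have hab : a ≤ b := by
      have := Real.log_le_log (x := N) (by linarith) (le_add_of_nonneg_right zero_le_one)
      linarith
    simp only [ha, hb, add_sub_cancel_right, add_sub_add_right_eq_sub] at h2 h3 ih ⊢
    have a1 : 3 / (c - 1) ≤ a := by linarith
    rw [div_le_iff₀ (by linarith)] at a1
    have a0 : 3 ≤ a := by linarith
    have b0 : 0 < b := by linarith
    have b1 : b - a ≤ 1 := by nlinarith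
    have e : ((N : ℝ) + 1) / b - N / a = (a - (b - a) * N) / (a * b) := by field_simp; ring
    have h8 : 1 / (b + c) ≤ (a - (b - a) * N) / (a * b) := by
      rw [div_le_div_iff₀ (by linarith) (by positivity)]
      have u := mul_le_mul_of_nonneg_right (show a - 1 ≤ a - (b - a) * N by linarith)
        (show 0 ≤ b + c by linarith)
      nlinarith
    linarith

lemma ev_big (C : ℝ) : ∀ᶠ n : ℕ in atTop, Big n ∧ C ≤ Real.log n := by
  obtain ⟨n0, h⟩ := big_eventually
  filter_upwards [eventually_ge_atTop n0, (Real.tendsto_log_atTop.comp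
    tendsto_natCast_atTop_atTop).eventually_ge_atTop C] with n h1 h2
  exact ⟨h n h1, h2⟩

lemma four_le_loglog {n : ℕ} (hn : Big n) : 4 ≤ Real.log (Real.log n) := by
  have h1 := two_le_log (m := 8) le_rfl
  have h2 : Real.log ((8 : ℕ) * (8 : ℕ)) ≤ Real.log (Real.log n) :=
    Real.log_le_log (by norm_num) (by push_cast; linarith [hn.1])
  rw [Real.log_mul (by norm_num) (by norm_num)] at h2
  linarith

lemma mean_lo {p : ℕ → ℝ} (hp : Cr p) {d : ℝ} (hd : 0 < d) (hd1 : d ≤ 1) : ∀ᶠ n : ℕ in atTop,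
    n + d * n / (8 * Real.log n) ≤ ∑ m ∈ Ico 0 (KK (-1 + d) n + 1), p m := by
  obtain ⟨m, hm, hm'⟩ : ∃ m : ℕ, 8 ≤ m ∧ 1 / (m : ℝ) ≤ 1 - (1 - d / 2) := by
    obtain ⟨k, hk⟩ := exists_nat_one_div_lt (show 0 < d / 2 by linarith)
    refine ⟨k + 8, by omega, ?_⟩
    have : 1 / ((k + 8 : ℕ) : ℝ) ≤ 1 / (k + 1) :=
      one_div_le_one_div_of_le (by positivity) (by push_cast; linarith)
    linarith
  have e1 := (Real.tendsto_log_atTop.comp tendsto_natCast_atTop_atTop).eventually
    (Real.isLittleO_log_id_atTop.bound (show 0 < d / 8 by linarith))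
  filter_upwards [ev_big (16 * (m + 1) / d), e1, eventually_ge_atTop m] with n ⟨hn, h1⟩ h2 h3
  have hL := hn.1
  have hn0 : (0 : ℝ) < n := by linarith [hn.ge]
  have h4 := four_le_loglog hn
  have h5 := (loglog_bd hn).2
  have h6 := hn.pow_le (j := 2) (by norm_num)
  simp only [Function.comp_apply, id, Real.norm_eq_abs] at h2
  set L := Real.log n with hLd
  rw [abs_of_nonneg (by linarith), abs_of_nonneg (by linarith)] at h2
  set t := L + Real.log L + (-1 + d) with ht
  have k1 : (KK (-1 + d) n : ℝ) ≤ n * t := Nat.floor_le (mul_nonneg hn0.le (by linarith))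
  have k2 : n * t < KK (-1 + d) n + 1 := Nat.lt_floor_add_one _
  have k3 : n ≤ KK (-1 + d) n := Nat.le_floor (by nlinarith)
  generalize KK (-1 + d) n = K at *
  have k4 : (n : ℝ) ≤ K := by exact_mod_cast k3
  have k5 := li_lo (c := 1 - d / 2) (by linarith) (by linarith) hm hm' (h3.trans k3)
  have k6 : ∑ j ∈ Ioc m K, 1 / Real.log j ≤ ∑ m ∈ Ico 0 (K + 1), p m := by
    rw [← sum_congr rfl fun j hj => hp.eq j (by have := (mem_Ioc.1 hj).1; omega)]
    exact sum_le_sum_of_subset_of_nonneg (fun j hj => by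
      rw [mem_Ioc] at hj; rw [mem_Ico]; omega) fun j _ _ => (hp.mem j).1
  have k7 : (m : ℝ) / (Real.log m - (1 - d / 2)) ≤ m :=
    div_le_self (by positivity) (by linarith [two_le_log hm])
  have k8 : Real.log K ≤ L + Real.log L + d / 8 := by
    have u1 := Real.log_le_log (by linarith) k1
    have u2 := Real.log_le_sub_one_of_pos (x := t / L) (div_pos (by linarith) (by linarith))
    rw [Real.log_mul hn0.ne' (by linarith)] at u1
    rw [Real.log_div (by linarith) (by linarith)] at u2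
    have u3 : t / L ≤ 1 + d / 8 := by rw [div_le_iff₀ (by linarith)]; linarith
    linarith
  have k9 : L ≤ Real.log K := Real.log_le_log hn0 k4
  have k10 : n + (3 * d / 8 * n - 1) / (2 * L) ≤ K / (Real.log K - (1 - d / 2)) := by
    have u0 : 0 ≤ 3 * d / 8 * n - 1 := by
      rw [div_le_iff₀ hd] at h1
      nlinarith
    calc _ ≤ n + (3 * d / 8 * n - 1) / (t - 3 * d / 8) := by gcongr <;> linarith
      _ = (n * t - 1) / (t - 3 * d / 8) := by
          have : t - 3 * d / 8 ≠ 0 := by linarith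
          rw [eq_div_iff this, add_mul, div_mul_cancel₀ _ this]; ring
      _ ≤ _ := div_le_div₀ (by linarith) (by linarith) (by linarith) (by linarith)
  have k11 : (m : ℝ) + 1 ≤ d * n / (16 * L) := by
    rw [div_le_iff₀ hd] at h1
    rw [le_div_iff₀ (by linarith)]
    nlinarith
  have k12 : (3 * d / 8 * n - 1) / (2 * L) = 3 * (d * n / (16 * L)) - 1 / (2 * L) := by
    field_simp; ring
  have k13 : d * n / (8 * L) = 2 * (d * n / (16 * L)) := by field_simp; norm_num
  have k14 : 1 / (2 * L) ≤ 1 := by rw [div_le_one (by linarith)]; linarith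
  linarith

lemma mean_hi {p : ℕ → ℝ} (hp : Cr p) {d : ℝ} (hd : 0 < d) (hd1 : d ≤ 1) : ∀ᶠ n : ℕ in atTop,
    ∑ m ∈ Ico 0 (KK (-1 - d) n + 1), p m ≤ n - d * n / (8 * Real.log n) := by
  obtain ⟨m, hm', hm⟩ := (((Real.tendsto_log_atTop.comp
    tendsto_natCast_atTop_atTop).eventually_ge_atTop (2 + 3 / (1 + d / 2 - 1))).and
    (eventually_ge_atTop 3)).exists
  filter_upwards [ev_big (8 * (m + 1) / d), eventually_ge_atTop m] with n ⟨hn, h1⟩ h3
  have hL := hn.1
  have hn0 : (0 : ℝ) < n := by linarith [hn.ge]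
  have h4 := four_le_loglog hn
  have h5 := (loglog_bd hn).2
  have h6 := hn.pow_le (j := 2) (by norm_num)
  set L := Real.log n with hLd
  set t := L + Real.log L + (-1 - d) with ht
  have k1 : (KK (-1 - d) n : ℝ) ≤ n * t := Nat.floor_le (mul_nonneg hn0.le (by linarith))
  have k2 : n * t < KK (-1 - d) n + 1 := Nat.lt_floor_add_one _
  have k3 : n ≤ KK (-1 - d) n := Nat.le_floor (by nlinarith)
  generalize KK (-1 - d) n = K at *
  have k5 := li_hi (c := 1 + d / 2) (by linarith) (by linarith) (by omega) hm' (h3.trans k3)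
  have k6 : ∑ j ∈ Ico 0 (K + 1), p j ≤ m + 1 + ∑ j ∈ Ioc m K, 1 / Real.log j := by
    rw [← sum_Ico_consecutive _ (Nat.zero_le (m + 1)) (by omega), Ico_add_one_add_one_eq_Ioc,
      sum_congr rfl fun j (hj : j ∈ Ioc m K) => hp.eq j (by have := (mem_Ioc.1 hj).1; omega)]
    have := sum_le_card_nsmul (Ico 0 (m + 1)) p 1 fun j _ => (hp.mem j).2
    simp only [Nat.card_Ico, Nat.sub_zero, nsmul_eq_mul, mul_one, Nat.cast_add, Nat.cast_one] at this
    linarith
  have k8 : L + Real.log L ≤ Real.log K := by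
    rw [hLd, ← Real.log_mul hn0.ne' (by linarith)]
    exact Real.log_le_log (by positivity) (by nlinarith [hn.ge])
  have k10 : K / (Real.log K - (1 + d / 2)) ≤ n - d / 2 * n / (2 * L) := by
    calc _ ≤ n * t / (t + d / 2) :=
          div_le_div₀ (mul_nonneg hn0.le (by linarith)) k1 (by linarith) (by linarith)
      _ = n - d / 2 * n / (t + d / 2) := by
          have : t + d / 2 ≠ 0 := by linarith
          rw [div_eq_iff this, sub_mul, div_mul_cancel₀ _ this]; ring
      _ ≤ _ := by gcongr <;> linarith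
  have k11 : (m : ℝ) + 1 ≤ d * n / (8 * L) := by
    rw [div_le_iff₀ hd] at h1
    rw [le_div_iff₀ (by linarith)]
    nlinarith
  have k13 : d / 2 * n / (2 * L) = 2 * (d * n / (8 * L)) := by field_simp; norm_num
  linarith

lemma ce_pow {p : ℕ → ℝ} (hp : Cr p) (x : ℕ) {θ : ℝ} (hθ : -1 ≤ θ) (ω : Cf) :
    ce p x 0 (fun ω => (1 + θ) ^ cnt x ω) ω ≤ Real.exp (θ * ∑ m ∈ Ico 0 x, p m) := by
  have h := ce_char p (Nat.zero_le x) le_rfl ((1 + θ : ℝ) : ℂ) 1 ω
  have e : gf p 0 x ((1 + θ : ℝ) : ℂ) = ((∏ m ∈ Ico 0 x, (1 + p m * θ) : ℝ) : ℂ) := by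
    unfold gf; push_cast; simp
  simp only [one_mul, ← Complex.ofReal_pow, Complex.ofReal_re, e, cnt, Nat.count_zero,
    pow_zero] at h
  simp only [cnt]
  rw [h, mul_sum, Real.exp_sum]
  refine prod_le_prod (fun m _ => ?_) fun m _ => ?_
  · nlinarith [hp.mem m]
  · rw [mul_comm, add_comm]; exact Real.add_one_le_exp _

lemma tail_small {d : ℝ} (hd : 0 < d) {n : ℕ} (hn : Big n) (h : 1024 / d ^ 2 ≤ Real.log n) :
    Real.exp (-(d ^ 2 * n / (512 * Real.log n ^ 2))) ≤ 1 / (n : ℝ) ^ 2 := by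
  have hL := hn.1
  have hn0 : (0 : ℝ) < n := by linarith [hn.ge]
  have h1 := hn.pow_le (j := 4) (by norm_num)
  rw [div_le_iff₀ (by positivity)] at h
  rw [show 1 / (n : ℝ) ^ 2 = Real.exp (-(2 * Real.log n)) by
    rw [Real.exp_neg, two_mul, Real.exp_add, Real.exp_log hn0, one_div, sq], Real.exp_le_exp,
    neg_le_neg_iff, le_div_iff₀ (by positivity)]
  nlinarith [mul_le_mul_of_nonneg_right h (show 0 ≤ Real.log n ^ 3 by positivity),
    mul_le_mul_of_nonneg_left h1 (sq_nonneg d)]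

theorem tail_lo {p : ℕ → ℝ} (hp : Cr p) {d : ℝ} (hd : 0 < d) (hd1 : d ≤ 1) : ∀ᶠ n : ℕ in atTop,
    ∀ ω, ce p (KK (-1 + d) n + 1) 0
      (fun ω => if cnt (KK (-1 + d) n + 1) ω < n then 1 else 0) ω ≤ 1 / (n : ℝ) ^ 2 := by
  filter_upwards [mean_lo hp hd hd1, ev_big (1024 / d ^ 2)] with n h1 ⟨hn, h2⟩ ω
  refine le_trans ?_ (tail_small hd hn h2)
  have hL := hn.1
  generalize KK (-1 + d) n + 1 = x at *
  set θ := d / (32 * Real.log n) with hθ
  have θ0 : 0 < θ := by positivity
  have θ1 : θ ≤ 1 / 2 := by rw [hθ, div_le_iff₀ (by linarith)]; linarith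
  have h3 := ce_mono hp.mem x 0 (g := fun ω => if cnt x ω < n then 1 else 0)
    (h := Real.exp (n * (θ + 2 * θ ^ 2)) • fun ω => (1 + -θ) ^ cnt x ω) (fun ω => by
      simp only [Pi.smul_apply, smul_eq_mul]
      have u0 : 0 ≤ 1 + -θ := by linarith
      split_ifs with h
      · calc (1 : ℝ) = Real.exp (n * (θ + 2 * θ ^ 2)) * Real.exp (-(θ + 2 * θ ^ 2)) ^ n := by
              rw [← Real.exp_nat_mul, ← Real.exp_add, mul_neg, add_neg_cancel, Real.exp_zero]
          _ ≤ Real.exp (n * (θ + 2 * θ ^ 2)) * (1 + -θ) ^ n := by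
              gcongr; exact exp_le_one_sub θ0.le θ1
          _ ≤ _ := mul_le_mul_of_nonneg_left (pow_le_pow_of_le_one u0 (by linarith) h.le)
              (Real.exp_pos _).le
      · positivity) ω
  rw [map_smul, Pi.smul_apply, smul_eq_mul] at h3
  refine h3.trans ((mul_le_mul_of_nonneg_left (ce_pow hp x (by linarith) ω)
    (Real.exp_pos _).le).trans ?_)
  rw [← Real.exp_add, Real.exp_le_exp]
  have h4 := mul_le_mul_of_nonneg_left h1 θ0.le
  have e1 : θ * (d * n / (8 * Real.log n)) = 2 * (d ^ 2 * n / (512 * Real.log n ^ 2)) := by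
    rw [hθ]; field_simp; ring
  have e2 : n * (2 * θ ^ 2) = d ^ 2 * n / (512 * Real.log n ^ 2) := by
    rw [hθ]; field_simp; ring
  linarith

theorem tail_hi {p : ℕ → ℝ} (hp : Cr p) {d : ℝ} (hd : 0 < d) (hd1 : d ≤ 1) : ∀ᶠ n : ℕ in atTop,
    ∀ ω, ce p (KK (-1 - d) n + 1) 0
      (fun ω => if n ≤ cnt (KK (-1 - d) n + 1) ω then 1 else 0) ω ≤ 1 / (n : ℝ) ^ 2 := by
  filter_upwards [mean_hi hp hd hd1, ev_big (1024 / d ^ 2)] with n h1 ⟨hn, h2⟩ ω
  refine le_trans ?_ (tail_small hd hn h2)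
  have hL := hn.1
  generalize KK (-1 - d) n + 1 = x at *
  set θ := d / (32 * Real.log n) with hθ
  have θ0 : 0 < θ := by positivity
  have h3 := ce_mono hp.mem x 0 (g := fun ω => if n ≤ cnt x ω then 1 else 0)
    (h := Real.exp (n * (-θ + θ ^ 2)) • fun ω => (1 + θ) ^ cnt x ω) (fun ω => by
      simp only [Pi.smul_apply, smul_eq_mul]
      split_ifs with h
      · have u : 1 ≤ Real.exp (-θ + θ ^ 2) * (1 + θ) := by
          nlinarith [mul_le_mul_of_nonneg_right (Real.add_one_le_exp (-θ + θ ^ 2))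
            (show 0 ≤ 1 + θ by linarith), pow_pos θ0 3]
        calc (1 : ℝ) ≤ (Real.exp (-θ + θ ^ 2) * (1 + θ)) ^ n := one_le_pow₀ u
          _ = Real.exp (n * (-θ + θ ^ 2)) * (1 + θ) ^ n := by rw [mul_pow, Real.exp_nat_mul]
          _ ≤ _ := mul_le_mul_of_nonneg_left (pow_le_pow_right₀ (by linarith) h)
              (Real.exp_pos _).le
      · positivity) ω
  rw [map_smul, Pi.smul_apply, smul_eq_mul] at h3
  refine h3.trans ((mul_le_mul_of_nonneg_left (ce_pow hp x (by linarith) ω)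
    (Real.exp_pos _).le).trans ?_)
  rw [← Real.exp_add, Real.exp_le_exp]
  have h4 := mul_le_mul_of_nonneg_left h1 θ0.le
  have e1 : θ * (d * n / (8 * Real.log n)) = 2 * (d ^ 2 * n / (512 * Real.log n ^ 2)) := by
    rw [hθ]; field_simp; ring
  have e2 : n * (2 * θ ^ 2) = d ^ 2 * n / (512 * Real.log n ^ 2) := by
    rw [hθ]; field_simp; ring
  have e3 : 0 ≤ n * θ ^ 2 := by positivity
  linarith

end P52
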