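import Pool.Agent.Lib.P52.R8

/-!
From the finite averaging operators to a probability space with independent events.
-/

set_option autoImplicit false

namespace P52

open Finset Filter MeasureTheory ProbabilityTheory Function Topology

open Classical in
/-- the configuration of a sample point -/
noncomputable def cfg {Ω : Type*} (A : ℕ → Set Ω) (ω : Ω) : Cf := fun m => decide (ω ∈ A m)

lemma cfg_true {Ω : Type*} (A : ℕ → Set Ω) (ω : Ω) (m : ℕ) : cfg A ω m = true ↔ ω ∈ A m := by
  simp [cfg]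

lemma Dep.upd' {x : ℕ} {g : Cf → ℝ} (h : Dep (x + 1) g) (b : Bool) :
    Dep x fun ω => g (update ω x b) := fun ω ω' H => h _ _ fun m hm => by
  rcases eq_or_ne m x with rfl | hx
  · simp
  · rw [update_of_ne hx, update_of_ne hx, H m (by omega)]

section

variable {Ω : Type*} [MeasurableSpace Ω] {P : Measure Ω} [IsProbabilityMeasure P]
  {A : ℕ → Set Ω} (hm : ∀ m, MeasurableSet (A m)) (hi : iIndepSet A P)
include hm hi

lemma link_aux (ω0 : Cf) (x : ℕ) : ∀ g : Cf → ℝ, Dep x g → Integrable (fun ω => g (cfg A ω)) P ∧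
    ∀ T : Finset ℕ, (∀ j ∈ T, x ≤ j) → ∫ ω in ⋂ j ∈ T, A j, g (cfg A ω) ∂P =
      (∏ j ∈ T, P.real (A j)) * opr (fun m => P.real (A m)) 0 x g ω0 := by
  induction x with
  | zero =>
    intro g hg
    have e : (fun ω => g (cfg A ω)) = fun _ => g ω0 := funext fun ω => hg _ _ fun m h => by omega
    rw [e]
    refine ⟨integrable_const _, fun T _ => ?_⟩
    rw [setIntegral_const, smul_eq_mul, opr_zero, Measure.real, hi.meas_biInter,
      ENNReal.toReal_prod]
    rfl
  | succ x ih =>
    intro g hg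
    obtain ⟨i0, j0⟩ := ih _ (hg.upd' false)
    obtain ⟨i1, j1⟩ := ih _ (hg.upd' true)
    have e1 : ∀ ω ∈ A x, g (cfg A ω) = g (update (cfg A ω) x true) := fun ω h => by
      rw [← (cfg_true A ω x).2 h, update_eq_self]
    have e0 : ∀ ω, ω ∉ A x → g (cfg A ω) = g (update (cfg A ω) x false) := fun ω h => by
      rw [← Bool.eq_false_iff.2 (mt (cfg_true A ω x).1 h), update_eq_self]
    have ig : Integrable (fun ω => g (cfg A ω)) P := by
      refine ((i1.indicator (hm x)).add (i0.indicator (hm x).compl)).congr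
        (Eventually.of_forall fun ω => ?_)
      by_cases h : ω ∈ A x
      · simp [h, e1 ω h]
      · simp [h, e0 ω h]
    refine ⟨ig, fun T hT => ?_⟩
    have hB : MeasurableSet (⋂ j ∈ T, A j) := T.measurableSet_biInter fun j _ => hm j
    have hx : x ∉ T := fun h => by have := hT x h; omega
    have hT' : ∀ j ∈ insert x T, x ≤ j := fun j hj => by
      rcases mem_insert.1 hj with rfl | h
      · exact le_rfl
      · exact (Nat.le_succ x).trans (hT j h)
    have k0 := j0 _ hT'
    have k1 := j1 _ hT'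
    have k2 := j0 T fun j hj => (Nat.le_succ x).trans (hT j hj)
    rw [Finset.set_biInter_insert, Set.inter_comm, prod_insert hx] at k0 k1
    rw [← integral_inter_add_sdiff (hm x) i0.integrableOn, k0] at k2
    rw [← integral_inter_add_sdiff (hm x) ig.integrableOn,
      setIntegral_congr_fun (hB.inter (hm x)) fun ω h => e1 ω h.2,
      setIntegral_congr_fun (hB.diff (hm x)) fun ω h => e0 ω h.2, k1, opr_succ, zero_add]
    have e : av (fun m => P.real (A m)) x g = (1 - P.real (A x)) • (fun ω => g (update ω x false))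
        + P.real (A x) • fun ω => g (update ω x true) := rfl
    rw [e, map_add, map_smul, map_smul]
    simp only [Pi.add_apply, Pi.smul_apply, smul_eq_mul]
    linear_combination k2

lemma link {x : ℕ} {g : Cf → ℝ} (hg : Dep x g) (ω0 : Cf) : Integrable (fun ω => g (cfg A ω)) P ∧
    ∫ ω, g (cfg A ω) ∂P = ce (fun m => P.real (A m)) x 0 g ω0 := by
  obtain ⟨h1, h2⟩ := link_aux hm hi ω0 x g hg
  refine ⟨h1, ?_⟩
  have := h2 ∅ (by simp)
  simpa [ce] using this

omit hm hi [IsProbabilityMeasure P] in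
lemma ae_zero {f : ℕ → Ω → ℝ} {b : ℕ → ℝ} (hb : Summable b) (h0 : ∀ j ω, 0 ≤ f j ω)
    (h : ∀ᶠ j in atTop, Integrable (f j) P ∧ ∫ ω, f j ω ∂P ≤ b j) :
    ∀ᵐ ω ∂P, Tendsto (fun j => f j ω) atTop (𝓝 0) := by
  obtain ⟨n, h⟩ := eventually_atTop.1 h
  have h1 : ∀ j, Integrable (f (j + n)) P ∧ ∫ ω, f (j + n) ω ∂P ≤ b (j + n) :=
    fun j => h _ (by omega)
  have h2 : Summable fun j => ∫ ω, f (j + n) ω ∂P := Summable.of_nonneg_of_le
    (fun j => integral_nonneg (h0 _)) (fun j => (h1 j).2) ((summable_nat_add_iff n).2 hb)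
  have h3 : ∫⁻ ω, ∑' j, ENNReal.ofReal (f (j + n) ω) ∂P ≠ ⊤ := by
    rw [lintegral_tsum fun j => (h1 j).1.aemeasurable.ennreal_ofReal]
    simp only [fun j => (ofReal_integral_eq_lintegral_ofReal (h1 j).1
      (Eventually.of_forall (h0 _))).symm]
    rw [← ENNReal.ofReal_tsum_of_nonneg (fun j => integral_nonneg (h0 _)) h2]
    exact ENNReal.ofReal_ne_top
  filter_upwards [ae_lt_top' (AEMeasurable.tsum fun j =>
    (h1 j).1.aemeasurable.ennreal_ofReal) h3] with ω hω
  have h4 := (ENNReal.tendsto_toReal ENNReal.zero_ne_top).comp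
    (ENNReal.tendsto_atTop_zero_of_tsum_ne_top hω.ne)
  refine (tendsto_add_atTop_iff_nat n).1 (h4.congr fun j => ?_)
  exact ENNReal.toReal_ofReal (h0 _ _)

end

end P52
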